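import Pool.Agent.Run7.h231.Fin2

/-! The tree of strings respecting the labels, and the failure of the Ramsey-type weak
Koenig lemma. -/

namespace Run7.h231

open Filter

lemma prc_inj {x y x' y' : ℕ} (h : prc x y = prc x' y') : x = x' ∧ y = y' := by
  unfold prc at h
  have h1 : x + y = x' + y' := by
    rcases lt_trichotomy (x + y) (x' + y') with h2 | h2 | h2
    · nlinarith
    · exact h2
    · nlinarith
  rw [h1] at h
  constructor
  · omega
  · omega

/-- The number with given digits. -/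
def sumd (B : ℕ) : ℕ → (ℕ → ℕ) → ℕ
  | 0, _ => 0
  | J+1, f => f 0 + B * sumd B J (fun n => f (n+1))

lemma sumd_lt {B : ℕ} (J : ℕ) (f : ℕ → ℕ) (hf : ∀ n, f n < B) : sumd B J f < B ^ J := by
  induction J generalizing f with
  | zero => simp [sumd]
  | succ J ih =>
    have h1 := ih (fun n => f (n+1)) (fun n => hf _)
    have h2 := hf 0
    simp only [sumd]
    rw [pow_succ]
    nlinarith

lemma sumd_digit {B : ℕ} (J : ℕ) (f : ℕ → ℕ) (hf : ∀ n, f n < B) (d : ℕ) (hd : d < J) :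
    sumd B J f / B ^ d % B = f d := by
  have hB : 0 < B := lt_of_le_of_lt (Nat.zero_le _) (hf 0)
  induction J generalizing f d with
  | zero => omega
  | succ J ih =>
    simp only [sumd]
    rcases Nat.eq_zero_or_pos d with rfl | hd0
    · rw [pow_zero, Nat.div_one, Nat.add_mul_mod_self_left]
      exact Nat.mod_eq_of_lt (hf 0)
    · obtain ⟨d', rfl⟩ : ∃ d', d = d' + 1 := ⟨d - 1, by omega⟩
      have h1 : (f 0 + B * sumd B J (fun n => f (n+1))) / B ^ (d'+1) =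
          sumd B J (fun n => f (n+1)) / B ^ d' := by
        rw [pow_succ', ← Nat.div_div_eq_div_mul, Nat.add_mul_div_left _ _ hB,
          Nat.div_eq_of_lt (hf 0), zero_add]
      rw [h1]
      exact ih (fun n => f (n+1)) (fun n => hf _) d' (by omega)

/-- Goedel's beta function. -/
lemma beta_exists (f : ℕ → ℕ) (n : ℕ) : ∃ a b, ∀ i < n, ent a b i = f i := by
  let l := (List.range n).map f
  refine ⟨(Nat.unpair (Nat.unbeta l)).1, (Nat.unpair (Nat.unbeta l)).2, fun i hi => ?_⟩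
  have hl : i < l.length := by simpa [l] using hi
  have h1 := Nat.beta_unbeta_coe l ⟨i, hl⟩
  unfold Nat.beta at h1
  unfold ent
  rw [add_comm 1]
  have h2 : l.get ⟨i, hl⟩ = f i := by simp [l]
  rw [← h2]
  exact h1

namespace Data

variable (d : Data)

lemma ent_iff {c : Cut} {a b i r : Ix → ℕ} (ha : c.Bd a) (hb : c.Bd b) (hi : c.Bd i)
    (hr : c.Bd r) : (MM c).Entry (mkD c a) (mkD c b) (mkD c i) (mkD c r) ↔
      ∀ᶠ ι in (U : Filter Ix), ent (a ι) (b ι) (i ι) = r ι := by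
  have hm : c.Bd (fun ι => 1 + (i ι + 1) * b ι) :=
    bd_add (Cut.bd_const 1) (bd_mul (bd_add hi (Cut.bd_const 1)) hb)
  have h1 : (MM c).add (MM c).one ((MM c).mul ((MM c).add (mkD c i) (MM c).one) (mkD c b)) =
      mkD c (fun ι => 1 + (i ι + 1) * b ι) := by
    rw [MM_one, MM_add hi (Cut.bd_const 1), MM_mul (bd_add hi (Cut.bd_const 1)) hb,
      MM_add (Cut.bd_const 1) (bd_mul (bd_add hi (Cut.bd_const 1)) hb)]
  unfold L2Model.Entry
  rw [h1, MM_lt hr hm]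
  have h2 : ∀ q, c.Bd q → (mkD c a = (MM c).add ((MM c).mul (mkD c q)
      (mkD c (fun ι => 1 + (i ι + 1) * b ι))) (mkD c r) ↔
      ∀ᶠ ι in (U : Filter Ix), a ι = q ι * (1 + (i ι + 1) * b ι) + r ι) := by
    intro q hq
    rw [MM_mul hq hm, MM_add (bd_mul hq hm) hr]
    have h3 : (mkD c a = mkD c (fun ι => q ι * (1 + (i ι + 1) * b ι) + r ι)) ↔
        (mkD c a).1 = (mkD c (fun ι => q ι * (1 + (i ι + 1) * b ι) + r ι)).1 := Subtype.ext_iff
    rw [h3, mkD_val ha, mkD_val (bd_add (bd_mul hq hm) hr)]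
    exact Filter.Germ.coe_eq
  constructor
  · rintro ⟨h3, q, h4⟩
    obtain ⟨qf, hqf, rfl⟩ := exists_rep q
    rw [h2 qf hqf] at h4
    filter_upwards [h3, h4] with ι h5 h6
    unfold ent
    rw [h6, mul_comm, Nat.mul_add_mod]
    exact Nat.mod_eq_of_lt h5
  · intro h3
    refine ⟨?_, mkD c (fun ι => a ι / (1 + (i ι + 1) * b ι)), ?_⟩
    · filter_upwards [h3] with ι h4
      rw [← h4]
      exact Nat.mod_lt _ (by omega)
    · rw [h2 _ (Cut.bd_le ha (Eventually.of_forall fun ι => Nat.div_le_self _ _))]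
      filter_upwards [h3] with ι h4
      rw [← h4]
      exact (Nat.div_add_mod' _ _).symm

lemma cod_eq {c : Cut} {n a b : Ix → ℕ} (hn : c.Bd n) (ha : c.Bd a) (hb : c.Bd b) :
    (MM c).code (mkD c n) (mkD c a) (mkD c b) = mkD c (fun ι => codn (n ι) (a ι) (b ι)) := by
  unfold L2Model.code
  rw [MM_pair ha hb, MM_pair hn (bd_prc ha hb)]
  rfl

lemma bd_codn {c : Cut} {n a b : Ix → ℕ} (hn : c.Bd n) (ha : c.Bd a) (hb : c.Bd b) :
    c.Bd (fun ι => codn (n ι) (a ι) (b ι)) := bd_prc hn (bd_prc ha hb)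

/-- The tree as a set in the full model. -/
lemma mem_tree {n a b : Ix → ℕ} (hn : d.c.Bd n) (ha : d.c.Bd a) (hb : d.c.Bd b) :
    (mkD d.c (fun ι => codn (n ι) (a ι) (b ι))).1 ∈ zs (d.s 0).1 ↔
      ∀ᶠ ι in (U : Filter Ix), TOk (d.S.W.B ι) (d.S.W.J ι) (d.S.W.T ι) (n ι) (a ι) (b ι) := by
  classical
  rw [mkD_mem (bd_codn hn ha hb), d.z0]
  apply eventually_congr
  refine Eventually.of_forall fun ι => ?_
  unfold Tcol
  have h1 : Tt (d.S.W.B ι) (d.S.W.J ι) (d.S.W.T ι) (codn (n ι) (a ι) (b ι)) ↔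
      TOk (d.S.W.B ι) (d.S.W.J ι) (d.S.W.T ι) (n ι) (a ι) (b ι) := by
    constructor
    · rintro ⟨n', a', b', h2, h3⟩
      obtain ⟨h4, h5⟩ := prc_inj h2
      obtain ⟨h6, h7⟩ := prc_inj h5
      rw [h4, h6, h7]
      exact h3
    · intro h2
      exact ⟨_, _, _, rfl, h2⟩
  by_cases h2 : Tt (d.S.W.B ι) (d.S.W.J ι) (d.S.W.T ι) (codn (n ι) (a ι) (b ι))
  · rw [if_pos h2]
    simp [h1.1 h2]
  · rw [if_neg h2]
    simp only [zero_ne_one, false_iff]
    exact fun h3 => h2 (h1.2 h3)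

noncomputable def Kf : Ix → ℕ := fun ι => d.S.W.B ι ^ d.S.W.J ι

lemma bd_K : d.c.Bd d.Kf := Cut.bd_le (Cut.bd_a 0) (Eventually.of_forall d.S.W.K_le)

/-- Strings respecting the labels exist. -/
lemma exists_string {B J : ℕ} (hB : 0 < B) {τ : ℕ → Cmd} {n : ℕ} (hL : Legal B J τ n) :
    ∃ a b, TOk B J τ n a b := by
  classical
  let lab : ℕ → ℕ → ℕ := fun x e => if h : ∃ l, Lab τ n e x l ∧ l < B then h.choose else 0
  have hlab : ∀ x e, lab x e < B := by
    intro x e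
    simp only [lab]
    split_ifs with h
    · exact h.choose_spec.2
    · exact hB
  obtain ⟨a, b, hab⟩ := beta_exists (fun x => sumd B J (lab x)) n
  refine ⟨a, b, fun i hi => ?_⟩
  rw [hab i hi]
  refine ⟨sumd_lt J _ (hlab i), fun e l hl => ?_⟩
  obtain ⟨s, hs, b', h1, h2, h3⟩ := hl
  obtain ⟨h4, h5, _⟩ := hL.bd s hs e l b' h1
  have hl' : Lab τ n e i l := ⟨s, hs, b', h1, h2, h3⟩
  show sumd B J (lab i) / B ^ e % B = l
  rw [sumd_digit J _ (hlab i) e h4]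
  have hex : ∃ l, Lab τ n e i l ∧ l < B := ⟨l, hl', h5⟩
  simp only [lab]
  rw [dif_pos hex]
  exact hL.lab_unique hex.choose_spec.1 hl'

theorem mm_tree (e : ℕ → ℕ) (he : e 0 = 0) : (MM d.c).InfTree (mkD d.c d.Kf)
    (xi (cutD_clo d.c) ∅ (d.Ze e) 0) := by
  classical
  have hmem : ∀ x : (MM d.c).M, x ∈ xi (cutD_clo d.c) ∅ (d.Ze e) 0 ↔ x.1 ∈ zs (d.s 0).1 := by
    intro x
    show x.1 ∈ zs (d.s (e 0)).1 ↔ _
    rw [he]
  constructor
  · intro c hc
    rw [hmem] at hc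
    obtain ⟨y, hy, rfl⟩ := exists_rep c
    rw [mkD_mem hy, d.z0] at hc
    have h1 : ∀ᶠ ι in (U : Filter Ix), ∃ w : ℕ × ℕ × ℕ, y ι = codn w.1 w.2.1 w.2.2 ∧
        TOk (d.S.W.B ι) (d.S.W.J ι) (d.S.W.T ι) w.1 w.2.1 w.2.2 := by
      filter_upwards [hc] with ι h2
      have h3 : Tt (d.S.W.B ι) (d.S.W.J ι) (d.S.W.T ι) (y ι) := by
        by_contra h4
        unfold Tcol at h2
        rw [if_neg h4] at h2
        omega
      obtain ⟨n, a, b, h4, h5⟩ := h3
      exact ⟨(n, a, b), h4, h5⟩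
    obtain ⟨w, hw⟩ := h1.choice
    have hn : d.c.Bd (fun ι => (w ι).1) := Cut.bd_le hy (hw.mono fun ι h2 => by
      rw [h2.1]; exact le_prc_left _ _)
    have ha : d.c.Bd (fun ι => (w ι).2.1) := Cut.bd_le hy (hw.mono fun ι h2 => by
      rw [h2.1]; exact (le_prc_left _ _).trans (le_prc_right _ _))
    have hb : d.c.Bd (fun ι => (w ι).2.2) := Cut.bd_le hy (hw.mono fun ι h2 => by
      rw [h2.1]; exact (le_prc_right _ _).trans (le_prc_right _ _))
    refine ⟨mkD d.c (fun ι => (w ι).1), mkD d.c (fun ι => (w ι).2.1),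
      mkD d.c (fun ι => (w ι).2.2), ?_, ?_⟩
    · rw [cod_eq hn ha hb]
      apply gM_ext
      rw [mkD_val hy, mkD_val (bd_codn hn ha hb)]
      exact Filter.Germ.coe_eq.2 (hw.mono fun ι h2 => h2.1)
    · intro i hi
      obtain ⟨fi, hfi, rfl⟩ := exists_rep i
      rw [MM_lt hfi hn] at hi
      have hr : d.c.Bd (fun ι => ent (w ι).2.1 (w ι).2.2 (fi ι)) :=
        Cut.bd_le ha (Eventually.of_forall fun ι => Nat.mod_le _ _)
      refine ⟨mkD d.c (fun ι => ent (w ι).2.1 (w ι).2.2 (fi ι)), ?_, ?_⟩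
      · rw [MM_lt hr d.bd_K]
        filter_upwards [hi, hw] with ι h2 h3
        exact (h3.2 (fi ι) h2).1
      · rw [ent_iff ha hb hfi hr]
        exact Eventually.of_forall fun ι => rfl
  · intro n a b n' a' b' hc hle hent
    rw [hmem] at hc ⊢
    obtain ⟨nf, hnf, rfl⟩ := exists_rep n
    obtain ⟨af, haf, rfl⟩ := exists_rep a
    obtain ⟨bf, hbf, rfl⟩ := exists_rep b
    obtain ⟨nf', hnf', rfl⟩ := exists_rep n'
    obtain ⟨af', haf', rfl⟩ := exists_rep a'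
    obtain ⟨bf', hbf', rfl⟩ := exists_rep b'
    rw [cod_eq hnf haf hbf, d.mem_tree hnf haf hbf] at hc
    rw [cod_eq hnf' haf' hbf', d.mem_tree hnf' haf' hbf']
    have hle' : ∀ᶠ ι in (U : Filter Ix), nf' ι ≤ nf ι := by
      rcases hle with h1 | h1
      · rw [MM_lt hnf' hnf] at h1
        exact h1.mono fun ι h => h.le
      · have h2 : (mkD d.c nf').1 = (mkD d.c nf).1 := congrArg Subtype.val h1
        rw [mkD_val hnf', mkD_val hnf] at h2
        exact (Filter.Germ.coe_eq.1 h2).mono fun ι h => h.le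
    have heq : ∀ᶠ ι in (U : Filter Ix), ∀ i < nf' ι,
        ent (af' ι) (bf' ι) i = ent (af ι) (bf ι) i := by
      by_contra hcon
      rw [← Ultrafilter.eventually_not] at hcon
      have h1 : ∀ᶠ ι in (U : Filter Ix), ∃ i, i < nf' ι ∧
          ent (af' ι) (bf' ι) i ≠ ent (af ι) (bf ι) i := by
        filter_upwards [hcon] with ι h2
        push Not at h2
        exact h2
      obtain ⟨fi, hfi⟩ := h1.choice
      have hfib : d.c.Bd fi := Cut.bd_le hnf' (hfi.mono fun ι h => h.1.le)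
      have hr : d.c.Bd (fun ι => ent (af ι) (bf ι) (fi ι)) :=
        Cut.bd_le haf (Eventually.of_forall fun ι => Nat.mod_le _ _)
      have h2 := hent (mkD d.c fi) ((MM_lt hfib hnf').2 (hfi.mono fun ι h => h.1))
        (mkD d.c (fun ι => ent (af ι) (bf ι) (fi ι)))
        ((ent_iff haf hbf hfib hr).2 (Eventually.of_forall fun ι => rfl))
      rw [ent_iff haf' hbf' hfib hr] at h2
      obtain ⟨ι, h3, h4⟩ := (h2.and hfi).exists
      exact h4.2 h3
    filter_upwards [hc, hle', heq] with ι h1 h2 h3 i hi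
    rw [h3 i hi]
    refine ⟨(h1 i (by omega)).1, fun e l hl => (h1 i (by omega)).2 e l ?_⟩
    exact hl.mono h2 (fun _ _ => rfl)
  · intro n
    obtain ⟨nf, hnf, rfl⟩ := exists_rep n
    obtain ⟨k, hk⟩ := Cut.bd_nat.1 hnf
    -- entries below `K`: bounded codes
    have hex : ∀ᶠ ι in (U : Filter Ix), ∃ l : List ℕ, (l.length = nf ι ∧ ∀ x ∈ l, x < d.Kf ι) ∧
        ∀ a b, (∀ i < nf ι, ent a b i = l.getD i 0) →
          TOk (d.S.W.B ι) (d.S.W.J ι) (d.S.W.T ι) (nf ι) a b := by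
      filter_upwards [hk, d.S.W.le_top k] with ι h1 h2
      obtain ⟨a, b, hab⟩ := exists_string (B := d.S.W.B ι) (J := d.S.W.J ι)
        (by have := d.S.W.two_le ι; omega) ((d.S.W.legal ι).mono (h1.trans h2))
      refine ⟨(List.range (nf ι)).map (fun i => ent a b i), ⟨by simp, ?_⟩, ?_⟩
      · intro x hx
        rw [List.mem_map] at hx
        obtain ⟨i, hi, rfl⟩ := hx
        exact (hab i (List.mem_range.1 hi)).1
      · intro a' b' h3 i hi
        have h4 : ent a' b' i = ent a b i := by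
          rw [h3 i hi, List.getD_eq_getElem?_getD, List.getElem?_map, List.getElem?_range hi]
          rfl
        rw [h4]
        exact hab i hi
    obtain ⟨l, hl⟩ := hex.choice
    have hlb : d.c.Bd l := by
      refine Cut.bd_of_finite (n := fun ι => (nf ι, d.Kf ι))
        (fun p : ℕ × ℕ => {l : List ℕ | l.length = p.1 ∧ ∀ x ∈ l, x < p.2}) ?_
        (Cut.bd_prod hnf d.bd_K) (hl.mono fun ι h => h.1)
      rintro ⟨m, K⟩
      have h1 : {l : List ℕ | l.length = m ∧ ∀ x ∈ l, x < K} ⊆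
          (fun l : List (Fin K) => l.map Fin.val) '' {l : List (Fin K) | l.length = m} := by
        rintro l ⟨h2, h3⟩
        refine ⟨l.attach.map (fun x => ⟨x.1, h3 x.1 x.2⟩), ?_, ?_⟩
        · simpa using h2
        · simp only [List.map_map]
          have : (Fin.val ∘ fun x : {x // x ∈ l} => (⟨x.1, h3 x.1 x.2⟩ : Fin K)) = Subtype.val := rfl
          rw [this, List.attach_map_subtype_val]
      exact Set.Finite.subset ((List.finite_length_eq _ _).image _) h1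
    have hbe : ∀ l : List ℕ, ∃ ab : ℕ × ℕ, ∀ i < l.length, ent ab.1 ab.2 i = l.getD i 0 := by
      intro l
      obtain ⟨a, b, h⟩ := beta_exists (fun i => l.getD i 0) l.length
      exact ⟨(a, b), h⟩
    choose g hg using hbe
    have ha : d.c.Bd (fun ι => (g (l ι)).1) := Cut.bd_map (fun l => (g l).1) hlb
    have hb : d.c.Bd (fun ι => (g (l ι)).2) := Cut.bd_map (fun l => (g l).2) hlb
    refine ⟨mkD d.c (fun ι => (g (l ι)).1), mkD d.c (fun ι => (g (l ι)).2), ?_⟩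
    rw [hmem, cod_eq hnf ha hb, d.mem_tree hnf ha hb]
    filter_upwards [hl] with ι h1
    apply h1.2
    intro i hi
    exact hg (l ι) i (by rw [h1.1.1]; exact hi)

lemma K_mem : ((d.s 0).2 : Gm) ∈ d.C := ⟨0, rfl⟩

/-- The number of colours. -/
noncomputable def K : d.C := ⟨((d.s 0).2 : Gm), d.K_mem⟩

lemma incl_K : incl d.C_sub d.K = mkD d.c d.Kf := by
  apply gM_ext
  rw [mkD_val d.bd_K]
  show ((d.s 0).2 : Gm) = _
  rw [d.c0]
  rfl

theorem cm_tree : d.CM.InfTree d.K (xi d.C_clo d.𝒵 (d.Ze (fun _ => 0)) 0) := by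
  have h1 := d.mm_tree (fun _ => 0) rfl
  rw [← d.incl_K] at h1
  have h2 := (Fml.sat_treeF (MM d.c) (xi (cutD_clo d.c) ∅ (d.Ze (fun _ => 0)))
    (fun _ => incl d.C_sub d.K)).2 h1
  rw [← elem' d (fun _ => 0) Fml.treeF (fun _ => d.K), Fml.sat_treeF] at h2
  exact h2

theorem not_homog (j : ℕ) (hinf : (MM d.c).Inf (xi (cutD_clo d.c) ∅ (d.Ze (fun m => if m = 0 then 0 else j)) 1))
    (hh : (MM d.c).HomogTree (mkD d.c d.Kf)
      (xi (cutD_clo d.c) ∅ (d.Ze (fun m => if m = 0 then 0 else j)) 0)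
      (xi (cutD_clo d.c) ∅ (d.Ze (fun m => if m = 0 then 0 else j)) 1)) : False := by
  classical
  have hP := (d.good (j+1)).proc' (d.S.hL (.avd (j+1) j) 0) (fun _ => ()) (Cut.bd_const _)
  have hP' : PP d.S.W (avoid (fun v => col (j+1) j v = 1)) (fun _ => ())
    (XX d.S.W (fun j => (d.s j).1) (j+1)) := hP
  have hcol : ∀ ι y, col (j+1) j (XX d.S.W (fun j => (d.s j).1) (j+1) ι y) = (d.s j).1 ι y :=
    fun ι y => col_XX d.S.W (fun j => (d.s j).1) (Nat.lt_succ_self j) ι y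
  obtain ⟨dd, y, y', l, l', b, hb, hy⟩ := avoid_spec hP' (by
    intro t ht
    obtain ⟨h, hh1, hh2⟩ := hinf (mkD d.c t)
    obtain ⟨z, hz, rfl⟩ := exists_rep h
    have h1 : ∀ᶠ i in (U : Filter Ix), (d.s j).1 i (z i) = 1 := (mkD_mem hz).1 hh1
    rw [MM_lt ht hz] at hh2
    refine ⟨z, hz, ?_⟩
    filter_upwards [h1, hh2] with ι h2 h3
    exact ⟨h3.le, by rw [hcol]; exact h2⟩)
  have hyb : d.c.Bd y := Cut.bd_le hb (hy.mono fun i hi => hi.1.le)
  have hyb' : d.c.Bd y' := Cut.bd_le hb (hy.mono fun i hi => hi.2.1.le)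
  obtain ⟨c, _, hc⟩ := hh
  obtain ⟨cf, hcf, rfl⟩ := exists_rep c
  obtain ⟨a, b', hab, hent⟩ := hc (mkD d.c b)
  obtain ⟨af, haf, rfl⟩ := exists_rep a
  obtain ⟨bf, hbf, rfl⟩ := exists_rep b'
  have hab' : ((MM d.c).code (mkD d.c b) (mkD d.c af) (mkD d.c bf)).1 ∈ zs (d.s 0).1 := hab
  rw [cod_eq hb haf hbf, d.mem_tree hb haf hbf] at hab'
  have e1 := hent (mkD d.c y) ((mkD_mem (Z := (d.s j).1) hyb).2 (hy.mono fun i hi => by
    have := hi.2.2.1; rw [hcol] at this; exact this)) ((MM_lt hyb hb).2 (hy.mono fun i hi => hi.1))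
  have e2 := hent (mkD d.c y') ((mkD_mem (Z := (d.s j).1) hyb').2 (hy.mono fun i hi => by
    have := hi.2.2.2.1; rw [hcol] at this; exact this))
    ((MM_lt hyb' hb).2 (hy.mono fun i hi => hi.2.1))
  rw [ent_iff haf hbf hyb hcf] at e1
  rw [ent_iff haf hbf hyb' hcf] at e2
  obtain ⟨ι, h1, h2, h3, h4⟩ := (hab'.and (e1.and (e2.and hy))).exists
  have h5 := (h1 (y ι) h4.1).2 _ _ h4.2.2.2.2.1
  have h6 := (h1 (y' ι) h4.2.1).2 _ _ h4.2.2.2.2.2.1
  rw [h2] at h5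
  rw [h3] at h6
  exact h4.2.2.2.2.2.2 (h5.symm.trans h6)

theorem cm_not_rwkl : ¬ d.CM.RWKL d.K := by
  intro h
  obtain ⟨H, hH, hinf, hh⟩ := h _ (d.mem_S 0) d.cm_tree
  obtain ⟨B, ⟨j, rfl⟩, rfl⟩ := hH
  have hinf' : d.CM.Inf (xi d.C_clo d.𝒵 (d.Ze (fun m => if m = 0 then 0 else j)) 1) := hinf
  have hh' : d.CM.HomogTree ((fun _ => d.K : ℕ → d.C) 0)
    (xi d.C_clo d.𝒵 (d.Ze (fun m => if m = 0 then 0 else j)) 0)
    (xi d.C_clo d.𝒵 (d.Ze (fun m => if m = 0 then 0 else j)) 1) := hh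
  have hinf2 := (Fml.sat_infF d.CM _ (fun _ => d.K)).2 hinf'
  have hh2 := (Fml.sat_htF d.CM _ (fun _ => d.K)).2 hh'
  rw [elem', Fml.sat_infF] at hinf2
  rw [elem', Fml.sat_htF] at hh2
  refine d.not_homog j hinf2 ?_
  rw [← d.incl_K]
  exact hh2

lemma K_pos : d.CM.lt d.CM.zero d.K := by
  show (0 : Gm) < ((d.s 0).2 : Gm)
  rw [d.c0]
  have h1 : ((fun _ => 0 : Ix → ℕ) : Gm) < ((fun i => d.S.W.B i ^ d.S.W.J i : Ix → ℕ) : Gm) := by
    refine Filter.Germ.coe_lt.2 (Eventually.of_forall fun i => ?_)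
    have := d.S.W.two_le i
    positivity
  exact h1

end Data

/-- The main theorem. -/
theorem main : ∃ 𝓜 : L2Model, RCA0 𝓜 ∧ 𝓜.SRT22 ∧ ∃ k, 𝓜.lt 𝓜.zero k ∧ ¬ 𝓜.RWKL k := by
  obtain ⟨d⟩ := exists_data
  exact ⟨d.CM, d.cm_rca0, d.cm_srt22, d.K, d.K_pos, d.cm_not_rwkl⟩

end Run7.h231
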