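import Pool.Agent.Run7.h231.Proc

/-! Pulled processes, the search processes, the process avoiding homogeneous sets. -/

namespace Run7.h231

open Filter

/-- A delayed local computation. -/
structure PullFn where
  P : Type
  cP : Countable P
  u : P → ℕ → ℕ → (ℕ → ℕ) → Option ℕ
  loc : ∀ p y r x x', (∀ z < r, x z = x' z) → u p y r x = u p y r x'

attribute [instance] PullFn.cP

namespace PullFn

variable (u : PullFn)

/-- `y` is decided before `t`. -/
def Dec (p : u.P) (t : ℕ) (x : ℕ → ℕ) (y : ℕ) : Prop := ∃ r, r ≤ t ∧ (u.u p y r x).isSome = true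

open Classical in
noncomputable def val (p : u.P) (t : ℕ) (x : ℕ → ℕ) (y : ℕ) : ℕ :=
  if h : ∃ r, r ≤ t ∧ (u.u p y r x).isSome = true then (u.u p y (Nat.find h) x).getD 0 else 0

open Classical in
noncomputable def len (p : u.P) (t : ℕ) (x : ℕ → ℕ) : ℕ :=
  Nat.findGreatest (fun m => ∀ y < m, u.Dec p t x y) t

lemma dec_mono {p : u.P} {t t' : ℕ} {x x' : ℕ → ℕ} {y : ℕ} (h1 : t ≤ t')
    (h2 : ∀ z < t, x z = x' z) (h : u.Dec p t x y) : u.Dec p t' x' y := by
  obtain ⟨r, hr, h3⟩ := h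
  refine ⟨r, hr.trans h1, ?_⟩
  rw [← u.loc p y r x x' (fun z hz => h2 z (by omega))]
  exact h3

lemma dec_len {p : u.P} {t : ℕ} {x : ℕ → ℕ} {y : ℕ} (h : y < u.len p t x) : u.Dec p t x y := by
  classical
  have h1 := Nat.findGreatest_spec (P := fun m => ∀ y < m, u.Dec p t x y) (n := t) (m := 0)
    (Nat.zero_le _) (by intro y hy; omega)
  exact h1 y h

lemma le_len {p : u.P} {t m : ℕ} {x : ℕ → ℕ} (hm : m ≤ t) (h : ∀ y < m, u.Dec p t x y) :
    m ≤ u.len p t x := by
  classical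
  exact Nat.le_findGreatest (P := fun m => ∀ y < m, u.Dec p t x y) hm h

lemma len_le {p : u.P} {t : ℕ} {x : ℕ → ℕ} : u.len p t x ≤ t := by
  classical
  exact Nat.findGreatest_le t

lemma val_local {p : u.P} {t : ℕ} {x x' : ℕ → ℕ} (h : ∀ z < t, x z = x' z) :
    u.val p t x = u.val p t x' := by
  classical
  funext y
  have h1 : (fun r => r ≤ t ∧ (u.u p y r x).isSome = true) =
      fun r => r ≤ t ∧ (u.u p y r x').isSome = true := by
    funext r
    apply propext
    constructor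
    · rintro ⟨h2, h3⟩
      exact ⟨h2, by rw [← u.loc p y r x x' (fun z hz => h z (by omega))]; exact h3⟩
    · rintro ⟨h2, h3⟩
      exact ⟨h2, by rw [u.loc p y r x x' (fun z hz => h z (by omega))]; exact h3⟩
  unfold val
  by_cases hx : ∃ r, r ≤ t ∧ (u.u p y r x).isSome = true
  · have hx' : ∃ r, r ≤ t ∧ (u.u p y r x').isSome = true := by
      obtain ⟨r, hr⟩ := hx
      exact ⟨r, by have := congrFun h1 r; rw [← this]; exact hr⟩
    rw [dif_pos hx, dif_pos hx']
    have hfind : Nat.find hx = Nat.find hx' := by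
      apply le_antisymm
      · exact Nat.find_min' hx (by have := congrFun h1 (Nat.find hx'); rw [this]; exact Nat.find_spec hx')
      · exact Nat.find_min' hx' (by have := congrFun h1 (Nat.find hx); rw [← this]; exact Nat.find_spec hx)
    rw [← hfind]
    rw [u.loc p y _ x x' (fun z hz => h z (lt_of_lt_of_le hz (Nat.find_spec hx).1))]
  · have hx' : ¬ ∃ r, r ≤ t ∧ (u.u p y r x').isSome = true := by
      rintro ⟨r, hr⟩
      exact hx ⟨r, by have := congrFun h1 r; rw [this]; exact hr⟩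
    rw [dif_neg hx, dif_neg hx']

lemma len_local {p : u.P} {t : ℕ} {x x' : ℕ → ℕ} (h : ∀ z < t, x z = x' z) :
    u.len p t x = u.len p t x' := by
  apply le_antisymm
  · exact u.le_len u.len_le fun y hy => u.dec_mono le_rfl h (u.dec_len hy)
  · exact u.le_len u.len_le fun y hy => u.dec_mono le_rfl (fun z hz => (h z hz).symm) (u.dec_len hy)

lemma val_stable {p : u.P} {t t' : ℕ} {x x' : ℕ → ℕ} {y : ℕ} (h1 : t ≤ t')
    (h2 : ∀ z < t, x z = x' z) (h : u.Dec p t x y) : u.val p t x y = u.val p t' x' y := by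
  classical
  rw [u.val_local h2]
  have h' : u.Dec p t x' y := u.dec_mono le_rfl h2 h
  have h'' : u.Dec p t' x' y := u.dec_mono h1 (fun _ _ => rfl) h'
  unfold val
  unfold Dec at h' h''
  rw [dif_pos h', dif_pos h'']
  have hfind : Nat.find h' = Nat.find h'' := by
    apply le_antisymm
    · apply Nat.find_min' h'
      refine ⟨?_, (Nat.find_spec h'').2⟩
      exact (Nat.find_min' h'' ⟨(Nat.find_spec h').1.trans h1, (Nat.find_spec h').2⟩).trans
        (Nat.find_spec h').1
    · exact Nat.find_min' h'' ⟨(Nat.find_spec h').1.trans h1, (Nat.find_spec h').2⟩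
  rw [hfind]

lemma len_mono {p : u.P} {t t' : ℕ} {x x' : ℕ → ℕ} (h1 : t ≤ t')
    (h2 : ∀ z < t, x z = x' z) : u.len p t x ≤ u.len p t' x' :=
  u.le_len (u.len_le.trans h1) fun _ hy => u.dec_mono h1 h2 (u.dec_len hy)

/-- The final value. -/
noncomputable def fin (p : u.P) (x : ℕ → ℕ) (y : ℕ) : ℕ :=
  open Classical in
  if h : ∃ r, (u.u p y r x).isSome = true then (u.u p y (Nat.find h) x).getD 0 else 0

lemma fin_eq {p : u.P} {t : ℕ} {x : ℕ → ℕ} {y : ℕ} (h : u.Dec p t x y) :
    u.fin p x y = u.val p t x y := by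
  classical
  obtain ⟨r, hr, h3⟩ := h
  have hx : ∃ r, (u.u p y r x).isSome = true := ⟨r, h3⟩
  have hx' : ∃ r, r ≤ t ∧ (u.u p y r x).isSome = true := ⟨r, hr, h3⟩
  unfold fin val
  rw [dif_pos hx, dif_pos hx']
  have hfind : Nat.find hx = Nat.find hx' := by
    apply le_antisymm
    · exact Nat.find_min' hx (Nat.find_spec hx').2
    · apply Nat.find_min' hx'
      exact ⟨(Nat.find_min' hx h3).trans hr, Nat.find_spec hx⟩
  rw [hfind]

/-- If `u` is deterministic then any decided value is the final one. -/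
lemma fin_eq_of {p : u.P} {x : ℕ → ℕ} {y v : ℕ} (h : ∃ r, (u.u p y r x).isSome = true)
    (hv : ∀ r w, u.u p y r x = some w → w = v) : u.fin p x y = v := by
  classical
  unfold fin
  rw [dif_pos h]
  have h1 := Nat.find_spec h
  obtain ⟨w, hw⟩ := Option.isSome_iff_exists.1 h1
  rw [hw]
  exact hv _ _ hw

end PullFn

open Classical in
/-- The process `A` for the oracle computed by `u`. -/
noncomputable def pull (u : PullFn) {Q : Type} (A : PQ Q) : PQ (u.P × Q) where
  S := A.S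
  cS := inferInstance
  v := A.v
  thr q := A.thr q.2
  init q := A.init q.2
  act B q s b t x := if h : ∃ t₁, b ≤ t₁ ∧ t₁ ≤ u.len q.1 t x ∧
      (A.act B q.2 s b t₁ (u.val q.1 t x)).isSome = true
    then A.act B q.2 s b h.choose (u.val q.1 t x) else none
  next B q s b t x l := if h : ∃ t₁, b ≤ t₁ ∧ t₁ ≤ u.len q.1 t x ∧
      (A.act B q.2 s b t₁ (u.val q.1 t x)).isSome = true
    then A.next B q.2 s b h.choose (u.val q.1 t x) l else s
  rel := A.rel
  wf := A.wf
  Inv B q s t x Λ := A.Inv B q.2 s (u.len q.1 t x) (u.val q.1 t x) Λ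
  act_local B q s b t x x' h := by
    rw [u.val_local h, u.len_local h]
  act_card B q s b t x V h := by
    split_ifs at h with h1
    exact A.act_card _ _ _ _ _ _ _ h
  dec B q s b t x V l h hl hV := by
    split_ifs at h with h1
    rw [dif_pos h1]
    exact A.dec _ _ _ _ _ _ _ _ h hl hV
  inv_init B q t x Λ := A.inv_init _ _ _ _ _
  inv_mono B q s t t' x x' Λ Λ' h1 h2 h3 h4 := by
    refine A.inv_mono B q.2 s _ _ _ _ Λ Λ' (u.len_mono h1 h2) ?_ h3 h4
    intro y hy
    exact u.val_stable h1 h2 (u.dec_len hy)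
  inv_next B q s t₀ b t x Λ V l h1 h2 h3 h4 h5 h6 h7 h8 := by
    split_ifs at h5 with h
    rw [dif_pos h]
    obtain ⟨ha, hb, _⟩ := h.choose_spec
    have h4' : A.Inv B q.2 s (u.len q.1 t₀ x) (u.val q.1 t x) Λ := by
      refine A.inv_mono B q.2 s _ _ _ _ Λ Λ le_rfl ?_ (fun _ _ h => h) h4
      intro y hy
      exact u.val_stable (h1.trans h3) (fun _ _ => rfl) (u.dec_len hy)
    have h9 := A.inv_next B q.2 s (u.len q.1 t₀ x) b h.choose (u.val q.1 t x) Λ V l
      (u.len_le.trans h1) h2 ha h4' h5 h6 h7 (fun y hy1 hy2 => h8 y hy1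
        (lt_of_lt_of_le hy2 (hb.trans u.len_le)))
    exact A.inv_mono B q.2 _ _ _ _ _ Λ Λ hb (fun _ _ => rfl) (fun _ _ h => h) h9

lemma pull_act_none {u : PullFn} {Q : Type} {A : PQ Q} {B q s b t x}
    (h : (pull u A).act B q s b t x = none) :
    ∀ t₁, b ≤ t₁ → t₁ ≤ u.len q.1 t x → A.act B q.2 s b t₁ (u.val q.1 t x) = none := by
  classical
  intro t₁ h1 h2
  unfold pull at h
  simp only at h
  split_ifs at h with h3
  · have := h3.choose_spec.2.2
    rw [h] at this
    simp at this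
  · by_contra hcon
    exact h3 ⟨t₁, h1, h2, Option.isSome_iff_ne_none.2 hcon⟩

/-- A local search. -/
structure SigFn where
  P : Type
  cP : Countable P
  u : P → ℕ → ℕ → (ℕ → ℕ) → Prop
  loc : ∀ p y r x x', (∀ z < r, x z = x' z) → u p y r x → u p y r x'

attribute [instance] SigFn.cP

def SigFn.Hit (u : SigFn) (p : u.P) (y t : ℕ) (x : ℕ → ℕ) : Prop := ∃ r, r ≤ t ∧ u.u p y r x

lemma SigFn.hit_mono (u : SigFn) {p : u.P} {y t t' : ℕ} {x x' : ℕ → ℕ} (h1 : t ≤ t')
    (h2 : ∀ z < t, x z = x' z) (h : u.Hit p y t x) : u.Hit p y t' x' := by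
  obtain ⟨r, hr, h3⟩ := h
  exact ⟨r, hr.trans h1, u.loc p y r x x' (fun z hz => h2 z (by omega)) h3⟩

open Classical in
/-- The process which collects the set of all `y < a` for which the search succeeds. -/
noncomputable def sig (u : SigFn) : PQ (u.P × ℕ) where
  S := Finset ℕ × ℕ
  cS := inferInstance
  v := 0
  thr _ := 0
  init q := (∅, q.2)
  act _ q s _ t x := if 0 < s.2 ∧ ∃ y, y < q.2 ∧ y ∉ s.1 ∧ u.Hit q.1 y t x then some ∅ else none
  next _ q s _ t x _ := if h : ∃ y, y < q.2 ∧ y ∉ s.1 ∧ u.Hit q.1 y t x then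
    (insert h.choose s.1, s.2 - 1) else (s.1, s.2 - 1)
  rel := InvImage (· < ·) Prod.snd
  wf := InvImage.wf _ wellFounded_lt
  Inv _ q s t x _ := (∀ y ∈ s.1, y < q.2 ∧ u.Hit q.1 y t x) ∧ s.1.card + s.2 = q.2
  act_local B q s b t x x' h := by
    have h1 : ∀ y, u.Hit q.1 y t x = u.Hit q.1 y t x' := fun y => propext
      ⟨u.hit_mono le_rfl h, u.hit_mono le_rfl (fun z hz => (h z hz).symm)⟩
    simp only [h1]
  act_card B q s b t x V h := by
    split_ifs at h with h1
    simp only [Option.some.injEq] at h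
    subst h
    simp
  dec B q s b t x V l h hl hV := by
    split_ifs at h with h1
    rw [dif_pos h1.2]
    have := h1.1
    show s.2 - 1 < s.2
    omega
  inv_init B q t x Λ := by simp
  inv_mono B q s t t' x x' Λ Λ' h1 h2 h3 h4 :=
    ⟨fun y hy => ⟨(h4.1 y hy).1, u.hit_mono h1 h2 (h4.1 y hy).2⟩, h4.2⟩
  inv_next B q s t₀ b t x Λ V l h1 h2 h3 h4 h5 h6 h7 h8 := by
    split_ifs at h5 with h
    rw [dif_pos h.2]
    obtain ⟨ha, hb, hc⟩ := h.2.choose_spec
    constructor
    · intro y hy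
      rcases Finset.mem_insert.1 hy with h9 | h9
      · subst h9
        exact ⟨ha, hc⟩
      · exact ⟨(h4.1 y h9).1, u.hit_mono (h1.trans h3) (fun _ _ => rfl) (h4.1 y h9).2⟩
    · rw [Finset.card_insert_of_notMem hb]
      have := h4.2
      have := h.1
      show s.1.card + 1 + (s.2 - 1) = q.2
      omega

lemma sig_act_none {u : SigFn} {B q s b t t₀ x x₀ Λ}
    (h : (sig u).act B q s b t x = none) (hI : (sig u).Inv B q s t₀ x₀ Λ) :
    ∀ y < q.2, u.Hit q.1 y t x → y ∈ s.1 := by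
  classical
  intro y hy hh
  by_contra hcon
  unfold sig at h
  simp only at h
  split_ifs at h with h1
  apply h1
  refine ⟨?_, y, hy, hcon, hh⟩
  have h2 : s.1 ⊂ Finset.range q.2 := by
    rw [Finset.ssubset_iff_of_subset]
    · exact ⟨y, Finset.mem_range.2 hy, hcon⟩
    · intro z hz
      exact Finset.mem_range.2 (hI.1 z hz).1
  have h3 := Finset.card_lt_card h2
  rw [Finset.card_range] at h3
  have h4 : s.1.card + s.2 = q.2 := hI.2
  omega

open Classical in
/-- The process which finds two elements of a given set with different labels. -/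
noncomputable def avoid (β : ℕ → Prop) : PQ Unit where
  S := ℕ × (ℕ × ℕ) × (ℕ × ℕ)
  cS := inferInstance
  v := 1
  thr _ := 0
  init _ := (2, (0,0), (0,0))
  act _ _ s b t x := if ∃ y, b ≤ y ∧ y < t ∧ β (x y) then
    (if s.1 = 2 then some ∅ else if s.1 = 1 then some {s.2.1.2} else none) else none
  next _ _ s b t x l := if h : ∃ y, b ≤ y ∧ y < t ∧ β (x y) then
    (if s.1 = 2 then (1, (h.choose, l), (0,0)) else (0, s.2.1, (h.choose, l))) else s
  rel := InvImage (· < ·) Prod.fst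
  wf := InvImage.wf _ wellFounded_lt
  Inv _ _ s t x Λ := s.1 ≤ 2 ∧ (s.1 = 1 → s.2.1.1 < t ∧ β (x s.2.1.1) ∧ Λ s.2.1.1 s.2.1.2) ∧
    (s.1 = 0 → s.2.1.1 < t ∧ β (x s.2.1.1) ∧ Λ s.2.1.1 s.2.1.2 ∧
      s.2.2.1 < t ∧ β (x s.2.2.1) ∧ Λ s.2.2.1 s.2.2.2 ∧ s.2.2.2 ≠ s.2.1.2)
  act_local B q s b t x x' h := by
    have h1 : (∃ y, b ≤ y ∧ y < t ∧ β (x y)) = (∃ y, b ≤ y ∧ y < t ∧ β (x' y)) := by
      apply propext
      constructor
      · rintro ⟨y, h1, h2, h3⟩
        exact ⟨y, h1, h2, by rw [← h y h2]; exact h3⟩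
      · rintro ⟨y, h1, h2, h3⟩
        exact ⟨y, h1, h2, by rw [h y h2]; exact h3⟩
    simp only [h1]
  act_card B q s b t x V h := by
    split_ifs at h with h1 h2 h3
    · simp only [Option.some.injEq] at h
      subst h
      simp
    · simp only [Option.some.injEq] at h
      subst h
      simp
  dec B q s b t x V l h hl hV := by
    split_ifs at h with h1 h2 h3
    · rw [dif_pos h1, if_pos h2]
      show 1 < s.1
      omega
    · rw [dif_pos h1, if_neg h2]
      show 0 < s.1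
      omega
  inv_init B q t x Λ := by simp
  inv_mono B q s t t' x x' Λ Λ' h1 h2 h3 h4 := by
    refine ⟨h4.1, fun hs => ?_, fun hs => ?_⟩
    · obtain ⟨h5, h6, h7⟩ := h4.2.1 hs
      exact ⟨by omega, by rw [← h2 _ h5]; exact h6, h3 _ _ h7⟩
    · obtain ⟨h5, h6, h7, h8, h9, h10, h11⟩ := h4.2.2 hs
      exact ⟨by omega, by rw [← h2 _ h5]; exact h6, h3 _ _ h7, by omega,
        by rw [← h2 _ h8]; exact h9, h3 _ _ h10, h11⟩
  inv_next B q s t₀ b t x Λ V l h1 h2 h3 h4 h5 h6 h7 h8 := by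
    split_ifs at h5 with h9 h10 h11
    · rw [dif_pos h9, if_pos h10]
      obtain ⟨ha, hb, hc⟩ := h9.choose_spec
      refine ⟨by simp, fun _ => ⟨hb, hc, h8 _ ha hb⟩, by simp⟩
    · rw [dif_pos h9, if_neg h10]
      obtain ⟨ha, hb, hc⟩ := h9.choose_spec
      obtain ⟨h12, h13, h14⟩ := h4.2.1 h11
      refine ⟨by simp, by simp, fun _ => ⟨by simp only; omega, h13, h14, hb, hc, h8 _ ha hb, ?_⟩⟩
      simp only [Option.some.injEq] at h5
      subst h5
      simpa using h7

lemma avoid_act_none {β : ℕ → Prop} {B q s b t x}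
    (h : (avoid β).act B q s b t x = none) (hs : s.1 = 1 ∨ s.1 = 2) :
    ∀ y, b ≤ y → y < t → ¬ β (x y) := by
  classical
  intro y h1 h2 h3
  unfold avoid at h
  simp only at h
  have h4 : ∃ y, b ≤ y ∧ y < t ∧ β (x y) := ⟨y, h1, h2, h3⟩
  rw [if_pos h4] at h
  rcases hs with hs | hs
  · rw [if_neg (by omega), if_pos hs] at h
    simp at h
  · rw [if_pos hs] at h
    simp at h

end Run7.h231
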