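import Mathlib

/-! Basic nonstandard set-up: an ultrapower of the natural numbers, a cut of countable
cofinality which is closed under all standard functions, boundedness and saturation. -/

namespace Run7.h231

open Filter

/-- The index set of the ultrapower. -/
abbrev Ix : Type := Finset (ℕ → ℕ)

/-- The ultrafilter on the index set. -/
noncomputable def U : Ultrafilter Ix := Ultrafilter.of atTop

lemma U_le : (U : Filter Ix) ≤ atTop := Ultrafilter.of_le _

lemma ev_mem (f : ℕ → ℕ) : ∀ᶠ i : Ix in (U : Filter Ix), f ∈ i := by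
  apply U_le
  filter_upwards [eventually_ge_atTop ({f} : Finset (ℕ → ℕ))] with i hi
  exact hi (Finset.mem_singleton_self f)

lemma ev_card (k : ℕ) : ∀ᶠ i : Ix in (U : Filter Ix), k ≤ i.card := by
  obtain ⟨s, hs⟩ := Infinite.exists_subset_card_eq (ℕ → ℕ) k
  apply U_le
  filter_upwards [eventually_ge_atTop s] with i hi
  rw [← hs]
  exact Finset.card_le_card hi

/-- A fixed injection of a countable type into the natural numbers. -/
noncomputable def enc {α : Type*} [Countable α] : α → ℕ :=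
  (exists_injective_nat α).choose

lemma enc_inj {α : Type*} [Countable α] : Function.Injective (enc : α → ℕ) :=
  (exists_injective_nat α).choose_spec

lemma finite_enc_le {α : Type*} [Countable α] (n : ℕ) : {x : α | enc x ≤ n}.Finite :=
  Set.Finite.preimage enc_inj.injOn (Set.finite_Iic n)

/-- A cut, given by a cofinal sequence which grows faster than all standard functions. -/
structure Cut where
  a : ℕ → Ix → ℕ
  mono : ∀ k i, a k i ≤ a (k+1) i
  grow : ∀ (f : ℕ → ℕ) (k : ℕ), ∀ᶠ i in (U : Filter Ix), ∀ m ≤ a k i, f m < a (k+1) i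

namespace Cut

variable (c : Cut)

lemma mono' {k l : ℕ} (h : k ≤ l) (i : Ix) : c.a k i ≤ c.a l i := by
  induction h with
  | refl => exact le_rfl
  | step _ ih => exact ih.trans (c.mono _ i)

/-- Bounded (that is, belonging to the cut). -/
def Bd {α : Type*} [Countable α] (x : Ix → α) : Prop :=
  ∃ k, ∀ᶠ i in (U : Filter Ix), enc (x i) ≤ c.a k i

variable {c}

lemma bd_of_finite {α β : Type*} [Countable α] [Countable β] (S : β → Set α)
    (hS : ∀ b, (S b).Finite) {n : Ix → β} (hn : c.Bd n) {x : Ix → α}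
    (h : ∀ᶠ i in (U : Filter Ix), x i ∈ S (n i)) : c.Bd x := by
  have key : ∀ m : ℕ, ∃ N : ℕ, ∀ b : β, enc b ≤ m → ∀ y ∈ S b, enc y ≤ N := by
    intro m
    have hfin : (enc '' (⋃ b ∈ {b : β | enc b ≤ m}, S b) : Set ℕ).Finite := by
      apply Set.Finite.image
      exact Set.Finite.biUnion (finite_enc_le m) (fun b _ => hS b)
    obtain ⟨N, hN⟩ := hfin.bddAbove
    refine ⟨N, fun b hb y hy => hN ⟨y, ?_, rfl⟩⟩
    simp only [Set.mem_iUnion]
    exact ⟨b, hb, hy⟩
  choose f hf using key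
  obtain ⟨k, hk⟩ := hn
  refine ⟨k+1, ?_⟩
  filter_upwards [hk, h, c.grow f k] with i h1 h2 h3
  exact (hf (c.a k i) (n i) h1 (x i) h2).trans (h3 _ le_rfl).le

lemma bd_nat {x : Ix → ℕ} : c.Bd x ↔ ∃ k, ∀ᶠ i in (U : Filter Ix), x i ≤ c.a k i := by
  constructor
  · rintro ⟨k, hk⟩
    have key : ∀ m : ℕ, ∃ N : ℕ, ∀ y : ℕ, enc y ≤ m → y ≤ N := by
      intro m
      obtain ⟨N, hN⟩ := (finite_enc_le (α := ℕ) m).bddAbove
      exact ⟨N, fun y hy => hN hy⟩
    choose f hf using key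
    refine ⟨k+1, ?_⟩
    filter_upwards [hk, c.grow f k] with i h1 h3
    exact (hf _ _ h1).trans (h3 _ le_rfl).le
  · rintro ⟨k, hk⟩
    refine ⟨k+1, ?_⟩
    filter_upwards [hk, c.grow enc k] with i h1 h3
    exact (h3 _ h1).le

lemma bd_nat' {x : Ix → ℕ} (h : c.Bd x) : ∃ k, ∀ᶠ i in (U : Filter Ix), x i < c.a k i := by
  obtain ⟨k, hk⟩ := bd_nat.1 h
  refine ⟨k+1, ?_⟩
  filter_upwards [hk, c.grow id k] with i h1 h3
  exact (h3 _ h1)

lemma bd_a (k : ℕ) : c.Bd (c.a k) := bd_nat.2 ⟨k, Eventually.of_forall fun _ => le_rfl⟩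

lemma bd_le {x y : Ix → ℕ} (hx : c.Bd x) (h : ∀ᶠ i in (U : Filter Ix), y i ≤ x i) : c.Bd y := by
  obtain ⟨k, hk⟩ := bd_nat.1 hx
  refine bd_nat.2 ⟨k, ?_⟩
  filter_upwards [hk, h] with i h1 h2
  exact h2.trans h1

lemma bd_map {α β : Type*} [Countable α] [Countable β] (f : α → β) {x : Ix → α} (hx : c.Bd x) :
    c.Bd (fun i => f (x i)) :=
  bd_of_finite (fun a => {f a}) (fun _ => Set.finite_singleton _) hx
    (Eventually.of_forall fun _ => rfl)

lemma bd_congr {α : Type*} [Countable α] {x y : Ix → α} (hx : c.Bd x)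
    (h : ∀ᶠ i in (U : Filter Ix), y i = x i) : c.Bd y :=
  bd_of_finite (fun a => {a}) (fun _ => Set.finite_singleton _) hx h

lemma bd_const {α : Type*} [Countable α] (y : α) : c.Bd (fun _ => y) := by
  refine bd_map (fun _ : ℕ => y) (x := c.a 0) (bd_a 0)

lemma bd_prod {α β : Type*} [Countable α] [Countable β] {x : Ix → α} {y : Ix → β}
    (hx : c.Bd x) (hy : c.Bd y) : c.Bd (fun i => (x i, y i)) := by
  obtain ⟨k, hk⟩ := hx
  obtain ⟨l, hl⟩ := hy
  refine bd_of_finite (n := c.a (max k l))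
    (fun m : ℕ => ({a : α | enc a ≤ m} ×ˢ {b : β | enc b ≤ m})) ?_ (bd_a _) ?_
  · intro m
    exact (finite_enc_le m).prod (finite_enc_le m)
  · filter_upwards [hk, hl] with i h1 h2
    exact ⟨h1.trans (c.mono' (le_max_left _ _) i), h2.trans (c.mono' (le_max_right _ _) i)⟩

lemma bd_map₂ {α β γ : Type*} [Countable α] [Countable β] [Countable γ] (f : α → β → γ)
    {x : Ix → α} {y : Ix → β} (hx : c.Bd x) (hy : c.Bd y) : c.Bd (fun i => f (x i) (y i)) :=
  bd_map (fun p : α × β => f p.1 p.2) (bd_prod hx hy)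

lemma bd_choice {α β : Type*} [Countable α] [Countable β] {x : Ix → α} {y : Ix → β}
    (hx : c.Bd x) (R : α → Set β) (hR : ∀ a, (R a).Finite) (h : ∀ᶠ i in (U : Filter Ix), y i ∈ R (x i)) :
    c.Bd y := bd_of_finite R hR hx h

lemma ev_lt_a {x : Ix → ℕ} (h : c.Bd x) : ∃ k, ∀ l ≥ k, ∀ᶠ i in (U : Filter Ix), x i < c.a l i := by
  obtain ⟨k, hk⟩ := bd_nat' h
  refine ⟨k, fun l hl => ?_⟩
  filter_upwards [hk] with i hi
  exact hi.trans_le (c.mono' hl i)

end Cut

/-- Countable saturation. -/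
lemma saturate {α : Type*} [Nonempty α] (Φ : ℕ → Ix → α → Prop)
    (h : ∀ k, ∀ᶠ i in (U : Filter Ix), ∃ y, ∀ j ≤ k, Φ j i y) :
    ∃ y : Ix → α, ∀ k, ∀ᶠ i in (U : Filter Ix), Φ k i (y i) := by
  classical
  let good : Ix → ℕ → Prop := fun i k => ∃ y, ∀ j ≤ k, Φ j i y
  let kk : Ix → ℕ := fun i => Nat.findGreatest (good i) i.card
  let y : Ix → α := fun i => if hg : good i (kk i) then hg.choose else Classical.arbitrary α
  refine ⟨y, fun k => ?_⟩
  filter_upwards [h k, ev_card k] with i h1 h2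
  have h3 : good i (kk i) := Nat.findGreatest_spec (P := good i) h2 h1
  have h4 : k ≤ kk i := Nat.le_findGreatest h2 h1
  have h5 : y i = h3.choose := dif_pos h3
  rw [h5]
  exact h3.choose_spec k h4

/-- A function into a finite type is constant on a large set. -/
lemma ultra_const {ι : Type*} (V : Ultrafilter ι) {α : Type*} [Finite α] (f : ι → α) :
    ∃ a, ∀ᶠ i in (V : Filter ι), f i = a := by
  by_contra hcon
  have h1 : ∀ a, ∀ᶠ i in (V : Filter ι), f i ≠ a := by
    intro a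
    have h0 : ¬ ∀ᶠ i in (V : Filter ι), f i = a := fun h => hcon ⟨a, h⟩
    exact Ultrafilter.eventually_not.2 h0
  have h2 : ∀ᶠ i in (V : Filter ι), ∀ a, f i ≠ a := eventually_all.2 h1
  obtain ⟨i, hi⟩ := h2.exists
  exact hi (f i) rfl

end Run7.h231
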