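import Mathlib

/-! The statement: models of second-order arithmetic, the base theory, stable Ramsey's
theorem for pairs and the Ramsey-type weak Koenig lemma for strings over a set of `k` colours. -/

namespace Run7.h231

/-- A structure for the language of second-order arithmetic: a first-order part `M` with
`0, 1, +, *, <` and a collection `S` of subsets of `M` as second-order part. -/
structure L2Model where
  M : Type
  zero : M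
  one : M
  add : M → M → M
  mul : M → M → M
  lt : M → M → Prop
  S : Set (Set M)

/-- Number terms. -/
inductive Trm : Type
  | var (n : ℕ)
  | zero
  | one
  | add (s t : Trm)
  | mul (s t : Trm)

/-- Arithmetical formulas (no set quantifiers). `mem t X` says that the value of `t` belongs to
the set assigned to the set variable `X`; `ball x t φ` is the bounded quantifier
`∀ x < t, φ`; `all x φ` is the unbounded number quantifier `∀ x, φ`. -/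
inductive Fml : Type
  | eq (s t : Trm)
  | lt (s t : Trm)
  | mem (t : Trm) (X : ℕ)
  | neg (φ : Fml)
  | and (φ ψ : Fml)
  | ball (x : ℕ) (t : Trm) (φ : Fml)
  | all (x : ℕ) (φ : Fml)

/-- Value of a term under an assignment of the number variables. -/
def Trm.val (𝓜 : L2Model) (ρ : ℕ → 𝓜.M) : Trm → 𝓜.M
  | .var n => ρ n
  | .zero => 𝓜.zero
  | .one => 𝓜.one
  | .add s t => 𝓜.add (s.val 𝓜 ρ) (t.val 𝓜 ρ)
  | .mul s t => 𝓜.mul (s.val 𝓜 ρ) (t.val 𝓜 ρ)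

/-- Truth of an arithmetical formula under an assignment `Ξ` of the set variables and an
assignment `ρ` of the number variables. -/
def Fml.Sat (𝓜 : L2Model) (Ξ : ℕ → Set 𝓜.M) : Fml → (ℕ → 𝓜.M) → Prop
  | .eq s t, ρ => s.val 𝓜 ρ = t.val 𝓜 ρ
  | .lt s t, ρ => 𝓜.lt (s.val 𝓜 ρ) (t.val 𝓜 ρ)
  | .mem t X, ρ => t.val 𝓜 ρ ∈ Ξ X
  | .neg φ, ρ => ¬ φ.Sat 𝓜 Ξ ρ
  | .and φ ψ, ρ => φ.Sat 𝓜 Ξ ρ ∧ ψ.Sat 𝓜 Ξ ρ
  | .ball x t φ, ρ => ∀ a, 𝓜.lt a (t.val 𝓜 ρ) → φ.Sat 𝓜 Ξ (Function.update ρ x a)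
  | .all x φ, ρ => ∀ a, φ.Sat 𝓜 Ξ (Function.update ρ x a)

/-- `Δ⁰₀` formulas: no unbounded quantifier. -/
def Fml.Bounded : Fml → Prop
  | .eq _ _ => True
  | .lt _ _ => True
  | .mem _ _ => True
  | .neg φ => φ.Bounded
  | .and φ ψ => φ.Bounded ∧ ψ.Bounded
  | .ball _ _ φ => φ.Bounded
  | .all _ _ => False

/-- `φ(a, b)`: truth of `φ` when the number variables `0` and `1` have the values `a`, `b` and
the others, the parameters, are given by `ρ`. -/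
def Fml.Sat2 (𝓜 : L2Model) (Ξ : ℕ → Set 𝓜.M) (φ : Fml) (ρ : ℕ → 𝓜.M) (a b : 𝓜.M) : Prop :=
  φ.Sat 𝓜 Ξ (Function.update (Function.update ρ 0 a) 1 b)

/-- The axioms of `RCA₀`: the basic axioms, `Σ⁰₁` induction and `Δ⁰₁` comprehension, with number
and set parameters. -/
structure RCA0 (𝓜 : L2Model) : Prop where
  succ_ne_zero : ∀ m, 𝓜.add m 𝓜.one ≠ 𝓜.zero
  succ_inj : ∀ m n, 𝓜.add m 𝓜.one = 𝓜.add n 𝓜.one → m = n
  add_zero : ∀ m, 𝓜.add m 𝓜.zero = m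
  add_succ : ∀ m n, 𝓜.add m (𝓜.add n 𝓜.one) = 𝓜.add (𝓜.add m n) 𝓜.one
  mul_zero : ∀ m, 𝓜.mul m 𝓜.zero = 𝓜.zero
  mul_succ : ∀ m n, 𝓜.mul m (𝓜.add n 𝓜.one) = 𝓜.add (𝓜.mul m n) m
  not_lt_zero : ∀ m, ¬ 𝓜.lt m 𝓜.zero
  lt_succ : ∀ m n, 𝓜.lt m (𝓜.add n 𝓜.one) ↔ 𝓜.lt m n ∨ m = n
  sets_nonempty : 𝓜.S.Nonempty
  sigma_induction : ∀ φ : Fml, φ.Bounded → ∀ Ξ : ℕ → Set 𝓜.M, (∀ k, Ξ k ∈ 𝓜.S) →
    ∀ ρ : ℕ → 𝓜.M, (∃ x, φ.Sat2 𝓜 Ξ ρ 𝓜.zero x) →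
      (∀ n, (∃ x, φ.Sat2 𝓜 Ξ ρ n x) → ∃ x, φ.Sat2 𝓜 Ξ ρ (𝓜.add n 𝓜.one) x) →
      ∀ n, ∃ x, φ.Sat2 𝓜 Ξ ρ n x
  delta_comprehension : ∀ φ ψ : Fml, φ.Bounded → ψ.Bounded →
    ∀ Ξ : ℕ → Set 𝓜.M, (∀ k, Ξ k ∈ 𝓜.S) → ∀ ρ : ℕ → 𝓜.M,
      (∀ n, (∃ x, φ.Sat2 𝓜 Ξ ρ n x) ↔ ∀ x, ψ.Sat2 𝓜 Ξ ρ n x) →
      ∃ Z ∈ 𝓜.S, ∀ n, n ∈ Z ↔ ∃ x, φ.Sat2 𝓜 Ξ ρ n x

namespace L2Model

variable (𝓜 : L2Model)

/-- The pairing function `(x + y) * (x + y) + x`. -/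
def pair (x y : 𝓜.M) : 𝓜.M := 𝓜.add (𝓜.mul (𝓜.add x y) (𝓜.add x y)) x

/-- An infinite (that is, unbounded) set. -/
def Inf (H : Set 𝓜.M) : Prop := ∀ m, ∃ h ∈ H, 𝓜.lt m h

/-- A colouring of pairs with two colours is given by a set `F`: the pair `x < y` has colour `1`
if the code of `(x, y)` belongs to `F`, and colour `0` otherwise. It is stable if for every `x`
the colour of `(x, y)` is the same for all sufficiently large `y`. -/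
def Stable (F : Set 𝓜.M) : Prop :=
  ∀ x, ∃ z, (∀ y, 𝓜.lt x y → 𝓜.lt z y → 𝓜.pair x y ∈ F) ∨
    (∀ y, 𝓜.lt x y → 𝓜.lt z y → 𝓜.pair x y ∉ F)

/-- `H` is homogeneous for the colouring `F`. -/
def Homog (F H : Set 𝓜.M) : Prop :=
  (∀ x ∈ H, ∀ y ∈ H, 𝓜.lt x y → 𝓜.pair x y ∈ F) ∨
    (∀ x ∈ H, ∀ y ∈ H, 𝓜.lt x y → 𝓜.pair x y ∉ F)

/-- Stable Ramsey's theorem for pairs and two colours. -/
def SRT22 : Prop := ∀ F ∈ 𝓜.S, 𝓜.Stable F → ∃ H ∈ 𝓜.S, 𝓜.Inf H ∧ 𝓜.Homog F H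

/-- `r` is the remainder of `a` modulo `1 + (i+1) * b`, that is, the `i`-th entry of the sequence
coded by `a` and `b` (Goedel's beta function). -/
def Entry (a b i r : 𝓜.M) : Prop :=
  𝓜.lt r (𝓜.add 𝓜.one (𝓜.mul (𝓜.add i 𝓜.one) b)) ∧
    ∃ q, a = 𝓜.add (𝓜.mul q (𝓜.add 𝓜.one (𝓜.mul (𝓜.add i 𝓜.one) b))) r

/-- The code of the string of length `n` whose `i`-th entry, for `i < n`, is the `i`-th entry of
the sequence coded by `a` and `b`. -/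
def code (n a b : 𝓜.M) : 𝓜.M := 𝓜.pair n (𝓜.pair a b)

/-- `T` is an infinite tree of strings over the colours `< k`: all members of `T` are codes of
strings with entries `< k`; all codes of initial segments of strings in `T` are in `T`; and `T`
has a string of every length. -/
structure InfTree (k : 𝓜.M) (T : Set 𝓜.M) : Prop where
  strings : ∀ c ∈ T, ∃ n a b, c = 𝓜.code n a b ∧
    ∀ i, 𝓜.lt i n → ∃ r, 𝓜.lt r k ∧ 𝓜.Entry a b i r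
  initial : ∀ n a b n' a' b', 𝓜.code n a b ∈ T → (𝓜.lt n' n ∨ n' = n) →
    (∀ i, 𝓜.lt i n' → ∀ r, 𝓜.Entry a b i r → 𝓜.Entry a' b' i r) → 𝓜.code n' a' b' ∈ T
  infinite : ∀ n, ∃ a b, 𝓜.code n a b ∈ T

/-- `H` is homogeneous for the tree `T` (over the colours `< k`): there is a colour `c < k` such
that for every `n` some string of length `n` in `T` has value `c` at all elements of `H` below
`n`. -/
def HomogTree (k : 𝓜.M) (T H : Set 𝓜.M) : Prop :=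
  ∃ c, 𝓜.lt c k ∧ ∀ n, ∃ a b, 𝓜.code n a b ∈ T ∧ ∀ i ∈ H, 𝓜.lt i n → 𝓜.Entry a b i c

/-- The Ramsey-type weak Koenig lemma for `k` colours. -/
def RWKL (k : 𝓜.M) : Prop :=
  ∀ T ∈ 𝓜.S, 𝓜.InfTree k T → ∃ H ∈ 𝓜.S, 𝓜.Inf H ∧ 𝓜.HomogTree k T H

end L2Model

end Run7.h231
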