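import Pool.Agent.Run7.h231.World

/-! Shapes, the Delta process, and the majority lemma. -/

namespace Run7.h231

open Filter

structure Shape where
  I : Type
  fI : Fintype I
  dI : DecidableEq I
  iI : Inhabited I
  Q : Type
  cQ : Countable Q
  C : ℕ → Q → ℕ → (ℕ → ℕ) → (ℕ → I) → Prop
  anti : ∀ B q t t' x x' h h', t ≤ t' → (∀ y < t, x y = x' y) → (∀ y < t, h y = h' y) →
    C B q t' x' h' → C B q t x h

attribute [instance] Shape.fI Shape.dI Shape.iI Shape.cQ

abbrev Kd (Sh : Shape) : Type := Sh.I × Bool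

def join (x g : ℕ → ℕ) : ℕ → ℕ := fun y => Nat.pair (x y) (g y)

def ind (g : Finset ℕ) : ℕ → ℕ := fun y => if y ∈ g then 1 else 0

abbrev Leaf (K S : Type) : Type := List K × (K → Finset ℕ) × (K → S)

def ExtL {K : Type} (h : ℕ → K) (κ : List K) : Prop := ∀ y k, κ[y]? = some k → h y = k

def tab {K : Type} (h : ℕ → K) (t : ℕ) : List K := (List.range t).map h

lemma tab_length {K : Type} (h : ℕ → K) (t : ℕ) : (tab h t).length = t := by simp [tab]

lemma tab_get {K : Type} (h : ℕ → K) (t y : ℕ) (k : K) :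
    (tab h t)[y]? = some k ↔ y < t ∧ h y = k := by
  unfold tab
  rw [List.getElem?_map]
  by_cases hy : y < t
  · rw [List.getElem?_range hy]
    simp [hy]
  · rw [List.getElem?_eq_none (by simpa using hy)]
    simp [hy]

lemma lt_of_get {K : Type} {κ : List K} {y : ℕ} {k : K} (h : κ[y]? = some k) : y < κ.length := by
  by_contra hcon
  rw [List.getElem?_eq_none (by omega)] at h
  simp at h

lemma exists_get {K : Type} {κ : List K} {y : ℕ} (h : y < κ.length) : ∃ k, κ[y]? = some k :=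
  ⟨κ[y], List.getElem?_eq_getElem h⟩

section

variable (Sh : Shape) (G : PQ ℕ)

/-- The process `G` acts on a part of `κ`, allowing the label `l`; the witness is
`(k, t₁, g, V)`. -/
def AccP (B p : ℕ) (π : Leaf (Kd Sh) G.S) (b t : ℕ) (x : ℕ → ℕ) (κ : ℕ → Kd Sh) (l : ℕ)
    (w : Kd Sh × ℕ × Finset ℕ × Finset ℕ) : Prop :=
  b ≤ w.2.1 ∧ w.2.1 ≤ t ∧ (∀ y ∈ w.2.2.1, y < w.2.1) ∧
    (∀ y < π.1.length, y ∈ w.2.2.1 ↔ y ∈ π.2.1 w.1) ∧
    (∀ y ∈ w.2.2.1, π.1.length ≤ y → κ y = w.1) ∧
    G.act B p (π.2.2 w.1) b w.2.1 (join x (ind w.2.2.1)) = some w.2.2.2 ∧ l ∉ w.2.2.2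

def Acc (B p : ℕ) (π : Leaf (Kd Sh) G.S) (b t : ℕ) (x : ℕ → ℕ) (κ : ℕ → Kd Sh) (l : ℕ) : Prop :=
  ∃ w, AccP Sh G B p π b t x κ l w

variable {Sh G}

lemma Acc.mono {B p : ℕ} {π : Leaf (Kd Sh) G.S} {b t t' : ℕ} {x x' : ℕ → ℕ} {κ κ' : ℕ → Kd Sh}
    {l : ℕ} (h1 : t ≤ t') (h2 : ∀ y < t, x y = x' y) (h3 : ∀ y < t, κ y = κ' y)
    (h : Acc Sh G B p π b t x κ l) : Acc Sh G B p π b t' x' κ' l := by
  obtain ⟨w, h4, h5, h6, h7, h8, h9, h10⟩ := h
  refine ⟨w, h4, h5.trans h1, h6, h7, fun y hy hl => ?_, ?_, h10⟩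
  · rw [← h3 y ((h6 y hy).trans_le h5)]
    exact h8 y hy hl
  · rw [← h9]
    apply G.act_local
    intro y hy
    unfold join
    rw [h2 y (hy.trans_le h5)]

variable (Sh G)

def GoodL (B : ℕ) (q : Sh.Q) (p : ℕ) (π : Leaf (Kd Sh) G.S) (b t : ℕ) (x : ℕ → ℕ) (l : ℕ) : Prop :=
  ∀ κ : ℕ → Kd Sh, ExtL κ π.1 → Sh.C B q t x (fun y => (κ y).1) → Acc Sh G B p π b t x κ l

open Classical in
noncomputable def badl (B : ℕ) (q : Sh.Q) (p : ℕ) (π : Leaf (Kd Sh) G.S) (b t : ℕ)
    (x : ℕ → ℕ) : Finset ℕ :=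
  (Finset.range B).filter (fun l => ¬ GoodL Sh G B q p π b t x l)

def vv : ℕ := Fintype.card (Kd Sh) * G.v

open Classical in
noncomputable def child (B p : ℕ) (π : Leaf (Kd Sh) G.S) (b t : ℕ) (x : ℕ → ℕ) (l : ℕ)
    (κ : ℕ → Kd Sh) : Leaf (Kd Sh) G.S :=
  if h : Acc Sh G B p π b t x κ l then
    (tab κ t, Function.update π.2.1 h.choose.1 h.choose.2.2.1,
      Function.update π.2.2 h.choose.1 (G.next B p (π.2.2 h.choose.1) b h.choose.2.1
        (join x (ind h.choose.2.2.1)) l))
  else π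

def extF {K : Type} [Inhabited K] {t : ℕ} (h : Fin t → K) : ℕ → K :=
  fun y => if hy : y < t then h ⟨y, hy⟩ else default

open Classical in
noncomputable def children (B : ℕ) (q : Sh.Q) (p : ℕ) (π : Leaf (Kd Sh) G.S) (b t : ℕ)
    (x : ℕ → ℕ) (l : ℕ) : Multiset (Leaf (Kd Sh) G.S) :=
  ((Finset.univ : Finset (Fin t → Kd Sh)).filter (fun h => ExtL (extF h) π.1 ∧
    Sh.C B q t x (fun y => (extF h y).1) ∧ Acc Sh G B p π b t x (extF h) l)).val.map
    (fun h => child Sh G B p π b t x l (extF h))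

def relL : Leaf (Kd Sh) G.S → Leaf (Kd Sh) G.S → Prop :=
  InvImage (Relation.CutExpand G.rel) (fun π => Finset.univ.val.map π.2.2)

variable {Sh G}

lemma cutExpand_update {K S : Type} [Fintype K] [DecidableEq K] {r : S → S → Prop} (s : K → S)
    (k : K) (a : S) (h : r a (s k)) :
    Relation.CutExpand r (Finset.univ.val.map (Function.update s k a)) (Finset.univ.val.map s) := by
  classical
  refine ⟨{a}, s k, ?_, ?_⟩
  · intro a' ha'
    rw [Multiset.mem_singleton] at ha'
    subst ha'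
    exact h
  · have h1 : (Finset.univ : Finset K).val = k ::ₘ ((Finset.univ : Finset K).erase k).val := by
      rw [Finset.erase_val, Multiset.cons_erase]
      exact Finset.mem_univ_val k
    rw [h1, Multiset.map_cons, Multiset.map_cons, Function.update_self]
    have h2 : Multiset.map (Function.update s k a) ((Finset.univ : Finset K).erase k).val =
        Multiset.map s ((Finset.univ : Finset K).erase k).val := by
      apply Multiset.map_congr rfl
      intro y hy
      have : y ≠ k := by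
        rw [Finset.mem_val] at hy
        exact (Finset.mem_erase.1 hy).1
      rw [Function.update_of_ne this]
    rw [h2, ← Multiset.singleton_add, ← Multiset.singleton_add]
    abel

variable (Sh G)

def InvL (B p : ℕ) (κ0 : List (Kd Sh)) (F0 : Kd Sh → Finset ℕ) (π : Leaf (Kd Sh) G.S)
    (t : ℕ) (x : ℕ → ℕ) (Λ : ℕ → ℕ → Prop) : Prop :=
  κ0.length ≤ π.1.length ∧ π.1.length ≤ max t κ0.length ∧
    (∀ (y : ℕ) (k : Kd Sh), κ0[y]? = some k → π.1[y]? = some k) ∧
    (∀ k, ∀ y < κ0.length, y ∈ π.2.1 k ↔ y ∈ F0 k) ∧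
    (∀ k, ∀ y ∈ π.2.1 k, κ0.length ≤ y → π.1[y]? = some k) ∧
    ∀ k, G.Inv B p (π.2.2 k) (min t π.1.length) (join x (ind (π.2.1 k))) Λ

lemma ind_local {g g' : Finset ℕ} {t : ℕ} (h : ∀ y < t, y ∈ g ↔ y ∈ g') (x : ℕ → ℕ) :
    ∀ y < t, join x (ind g) y = join x (ind g') y := by
  intro y hy
  unfold join ind
  by_cases h1 : y ∈ g
  · rw [if_pos h1, if_pos ((h y hy).1 h1)]
  · rw [if_neg h1, if_neg (fun h2 => h1 ((h y hy).2 h2))]

open Classical in
/-- The bag of the Delta process. -/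
noncomputable def deltaBag : Bag (Sh.Q × ℕ × List (Kd Sh) × (Kd Sh → Finset ℕ)) where
  E := Leaf (Kd Sh) G.S
  cE := inferInstance
  W := ℕ → Kd Sh
  v := vv Sh G
  thr q := max q.2.2.1.length (G.thr q.2.1)
  init q := {(q.2.2.1, fun k => (q.2.2.2 k).filter (· < q.2.2.1.length), fun _ => G.init q.2.1)}
  act B q π b t x := if (badl Sh G B q.1 q.2.1 π b t x).card ≤ vv Sh G
    then some (badl Sh G B q.1 q.2.1 π b t x) else none
  next B q π b t x l := children Sh G B q.1 q.2.1 π b t x l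
  rel := relL Sh G
  wf := InvImage.wf _ G.wf.cutExpand
  Inv B q π t x Λ := InvL Sh G B q.2.1 q.2.2.1 q.2.2.2 π t x Λ
  Valid B q κ t x := ExtL κ q.2.2.1 ∧ Sh.C B q.1 t x (fun y => (κ y).1)
  Fits π κ := ExtL κ π.1
  act_local B q π b t x x' h := by
    have h1 : badl Sh G B q.1 q.2.1 π b t x = badl Sh G B q.1 q.2.1 π b t x' := by
      unfold badl
      apply Finset.filter_congr
      intro l _
      apply not_congr
      constructor
      · intro h2 κ h3 h4
        exact Acc.mono le_rfl h (fun _ _ => rfl) (h2 κ h3 (Sh.anti _ _ _ _ _ _ _ _ le_rfl h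
          (fun _ _ => rfl) h4))
      · intro h2 κ h3 h4
        exact Acc.mono le_rfl (fun y hy => (h y hy).symm) (fun _ _ => rfl) (h2 κ h3
          (Sh.anti _ _ _ _ _ _ _ _ le_rfl (fun y hy => (h y hy).symm) (fun _ _ => rfl) h4))
    rw [h1]
  act_card B q π b t x V h := by
    split_ifs at h with h1
    simp only [Option.some.injEq] at h
    subst h
    exact h1
  dec B q π b t x V l h hl hV e' he' := by
    unfold children at he'
    rw [Multiset.mem_map] at he'
    obtain ⟨f, hf, rfl⟩ := he'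
    rw [Finset.mem_val, Finset.mem_filter] at hf
    obtain ⟨_, _, _, hacc⟩ := hf
    unfold child
    rw [dif_pos hacc]
    obtain ⟨_, _, _, _, _, h5, h6⟩ := hacc.choose_spec
    exact cutExpand_update _ _ _ (G.dec _ _ _ _ _ _ _ _ h5 hl h6)
  inv_init B q t x Λ e he := by
    rw [Multiset.mem_singleton] at he
    subst he
    refine ⟨le_rfl, le_max_right _ _, fun _ _ h => h, fun k y hy => ?_, fun k y hy hle => ?_,
      fun k => G.inv_init _ _ _ _ _⟩
    · simp [hy]
    · simp only [Finset.mem_filter] at hy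
      omega
  fits_init B q w t x hw := ⟨_, Multiset.mem_singleton_self _, hw.1⟩
  inv_mono B q π t t' x x' Λ Λ' h1 h2 h3 h4 := by
    obtain ⟨h5, h6, h7, h8, h9, h10⟩ := h4
    refine ⟨h5, by omega, h7, h8, h9, fun k => ?_⟩
    refine G.inv_mono _ _ _ _ _ _ _ _ _ (by omega) ?_ h3 (h10 k)
    intro y hy
    unfold join
    rw [h2 y (by omega)]
  valid_anti B q w t t' x x' h1 h2 h := ⟨h.1, Sh.anti _ _ _ _ _ _ _ _ h1 h2 (fun _ _ => rfl) h.2⟩
  inv_next B q π t₀ b t x Λ V l h1 h2 h3 h4 h5 h6 h7 h8 e' he' := by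
    unfold children at he'
    rw [Multiset.mem_map] at he'
    obtain ⟨f, hf, rfl⟩ := he'
    rw [Finset.mem_val, Finset.mem_filter] at hf
    obtain ⟨_, hext, _, hacc⟩ := hf
    unfold child
    rw [dif_pos hacc]
    obtain ⟨h11, h12, h13, h14, h15, h16, h17⟩ := hacc.choose_spec
    set w := hacc.choose
    set κ := extF f
    obtain ⟨h21, h22, h23, h24, h25, h26⟩ := h4
    have hthr1 : q.2.2.1.length ≤ b := (le_max_left _ _).trans h2
    have hthr2 : G.thr q.2.1 ≤ b := (le_max_right _ _).trans h2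
    have hlen : π.1.length ≤ b := by omega
    refine ⟨?_, ?_, ?_, ?_, ?_, ?_⟩
    · show _ ≤ (tab κ t).length
      rw [tab_length]
      omega
    · show (tab κ t).length ≤ _
      rw [tab_length]
      omega
    · intro y k hk
      show (tab κ t)[y]? = some k
      rw [tab_get]
      exact ⟨by have := lt_of_get hk; omega, hext y k (h23 y k hk)⟩
    · intro k y hy
      show y ∈ Function.update π.2.1 w.1 w.2.2.1 k ↔ _
      rcases eq_or_ne k w.1 with rfl | hne
      · rw [Function.update_self, h14 y (by omega)]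
        exact h24 _ y hy
      · rw [Function.update_of_ne hne]
        exact h24 _ y hy
    · intro k y hy hle
      show (tab κ t)[y]? = some k
      rw [tab_get]
      have hy' : y ∈ Function.update π.2.1 w.1 w.2.2.1 k := hy
      rcases eq_or_ne k w.1 with rfl | hne
      · rw [Function.update_self] at hy'
        have := h13 y hy'
        refine ⟨by omega, ?_⟩
        rcases Nat.lt_or_ge y π.1.length with h31 | h31
        · exact hext y _ (h25 _ y ((h14 y h31).1 hy') hle)
        · exact h15 y hy' h31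
      · rw [Function.update_of_ne hne] at hy'
        have h31 := h25 k y hy' hle
        exact ⟨by have := lt_of_get h31; omega, hext y k h31⟩
    · intro k
      show G.Inv B q.2.1 (Function.update π.2.2 w.1 _ k) (min t (tab κ t).length)
        (join x (ind (Function.update π.2.1 w.1 w.2.2.1 k))) Λ
      rw [tab_length, min_self]
      rcases eq_or_ne k w.1 with rfl | hne
      · rw [Function.update_self, Function.update_self]
        have h31 : G.Inv B q.2.1 (π.2.2 w.1) (min t₀ π.1.length) (join x (ind w.2.2.1)) Λ := by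
          refine G.inv_mono _ _ _ _ _ _ _ _ _ le_rfl ?_ (fun _ _ h => h) (h26 w.1)
          exact ind_local (fun y hy => (h14 y (by omega)).symm) x
        have h32 := G.inv_next B q.2.1 (π.2.2 w.1) (min t₀ π.1.length) b w.2.1
          (join x (ind w.2.2.1)) Λ w.2.2.2 l (by omega) hthr2 h11 h31 h16 h6 h17
          (fun y hy1 hy2 => h8 y hy1 (by omega))
        exact G.inv_mono _ _ _ _ _ _ _ _ _ h12 (fun _ _ => rfl) (fun _ _ h => h) h32
      · rw [Function.update_of_ne hne, Function.update_of_ne hne]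
        exact G.inv_mono _ _ _ _ _ _ _ _ _ (by omega) (fun _ _ => rfl) (fun _ _ h => h) (h26 k)
  fits_next B q π t₀ b t x Λ V l h1 h2 h3 h4 h5 h6 h7 w hw hv := by
    obtain ⟨h21, h22, h23, h24, h25, h26⟩ := h4
    have hthr1 : q.2.2.1.length ≤ b := (le_max_left _ _).trans h2
    have hlen : π.1.length ≤ b := by omega
    have hagree : ∀ y < t, w y = extF (fun j : Fin t => w j) y := by
      intro y hy
      unfold extF
      rw [dif_pos hy]
    split_ifs at h5 with h31
    simp only [Option.some.injEq] at h5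
    subst h5
    have hgood : GoodL Sh G B q.1 q.2.1 π b t x l := by
      by_contra hcon
      exact h7 (Finset.mem_filter.2 ⟨Finset.mem_range.2 h6, hcon⟩)
    have hext : ExtL (extF (fun j : Fin t => w j)) π.1 := by
      intro y k hk
      rw [← hagree y (by have := lt_of_get hk; omega)]
      exact hw y k hk
    have hC : Sh.C B q.1 t x (fun y => (extF (fun j : Fin t => w j) y).1) := by
      refine Sh.anti _ _ _ _ _ _ _ _ le_rfl (fun _ _ => rfl) ?_ hv.2
      intro y hy
      rw [← hagree y hy]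
    have hacc := hgood _ hext hC
    refine ⟨child Sh G B q.2.1 π b t x l (extF (fun j : Fin t => w j)), ?_, ?_⟩
    · unfold children
      rw [Multiset.mem_map]
      refine ⟨fun j : Fin t => w j, ?_, rfl⟩
      rw [Finset.mem_val, Finset.mem_filter]
      exact ⟨Finset.mem_univ _, hext, hC, hacc⟩
    · unfold child
      rw [dif_pos hacc]
      intro y k hk
      rw [tab_get] at hk
      rw [hagree y hk.1]
      exact hk.2

noncomputable def delta : PQ (Sh.Q × ℕ × List (Kd Sh) × (Kd Sh → Finset ℕ)) :=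
  (deltaBag Sh G).toPQ

/-- The next shape. -/
def nextShape : Shape where
  I := Fin (vv Sh G + 1) → Kd Sh
  fI := inferInstance
  dI := inferInstance
  iI := inferInstance
  Q := Sh.Q × ℕ × Leaf (Kd Sh) G.S × ℕ × (Fin (vv Sh G + 1) → ℕ)
  cQ := inferInstance
  C B q t x h := ∀ j, (∀ y < t, ∀ k, q.2.2.1.1[y]? = some k → h y j = k) ∧
    Sh.C B q.1 t x (fun y => (h y j).1) ∧
    ¬ Acc Sh G B q.2.1 q.2.2.1 q.2.2.2.1 t x (fun y => h y j) (q.2.2.2.2 j)
  anti B q t t' x x' h h' h1 h2 h3 h4 j := by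
    obtain ⟨h5, h6, h7⟩ := h4 j
    refine ⟨fun y hy k hk => ?_, ?_, fun hacc => h7 ?_⟩
    · rw [h3 y hy]
      exact h5 y (by omega) k hk
    · refine Sh.anti _ _ _ _ _ _ _ _ h1 h2 ?_ h6
      intro y hy
      rw [h3 y hy]
    · refine Acc.mono h1 h2 ?_ hacc
      intro y hy
      rw [h3 y hy]

lemma exists_parent (ν : Fin (vv Sh G + 1) → Kd Sh) :
    ∃ k, G.v < (Finset.univ.filter (fun j => ν j = k)).card := by
  classical
  have := Finset.exists_lt_card_fiber_of_mul_lt_card_of_maps_to (s := Finset.univ)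
    (t := (Finset.univ : Finset (Kd Sh))) (f := ν) (n := G.v) (fun _ _ => Finset.mem_univ _)
    (by simp [vv])
  obtain ⟨k, _, hk⟩ := this
  exact ⟨k, hk⟩

noncomputable def parent (ν : Fin (vv Sh G + 1) → Kd Sh) : Kd Sh := (exists_parent Sh G ν).choose

lemma parent_spec (ν : Fin (vv Sh G + 1) → Kd Sh) :
    G.v < (Finset.univ.filter (fun j => ν j = parent Sh G ν)).card :=
  (exists_parent Sh G ν).choose_spec

lemma parent_exists (ν : Fin (vv Sh G + 1) → Kd Sh) : ∃ j, ν j = parent Sh G ν := by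
  have h := parent_spec Sh G ν
  have h1 : (Finset.univ.filter (fun j => ν j = parent Sh G ν)).Nonempty := by
    rw [← Finset.card_pos]
    omega
  obtain ⟨j, hj⟩ := h1
  exact ⟨j, (Finset.mem_filter.1 hj).2⟩

lemma majority {B p b t t₁ : ℕ} {q : Sh.Q} {π : Leaf (Kd Sh) G.S} {l : Fin (vv Sh G + 1) → ℕ}
    {x : ℕ → ℕ} {h : ℕ → (nextShape Sh G).I} (hC : (nextShape Sh G).C B (q, p, π, b, l) t x h)
    (hl : Function.Injective l) (ν : Fin (vv Sh G + 1) → Kd Sh) (g : Finset ℕ) (h1 : b ≤ t₁)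
    (h2 : t₁ ≤ t) (h3 : ∀ y ∈ g, y < t₁)
    (h4 : ∀ y < π.1.length, y ∈ g ↔ y ∈ π.2.1 (parent Sh G ν))
    (h5 : ∀ y ∈ g, π.1.length ≤ y → h y = ν) :
    G.act B p (π.2.2 (parent Sh G ν)) b t₁ (join x (ind g)) = none := by
  classical
  by_contra hcon
  obtain ⟨V, hV⟩ := Option.ne_none_iff_exists'.1 hcon
  have hcard := G.act_card _ _ _ _ _ _ _ hV
  have hsp := parent_spec Sh G ν
  have h6 : V.card < ((Finset.univ.filter (fun j => ν j = parent Sh G ν)).image l).card := by
    rw [Finset.card_image_of_injective _ hl]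
    omega
  obtain ⟨m, hm, hmV⟩ := Finset.exists_mem_notMem_of_card_lt_card h6
  obtain ⟨j, hj, rfl⟩ := Finset.mem_image.1 hm
  rw [Finset.mem_filter] at hj
  refine (hC j).2.2 ⟨(parent Sh G ν, t₁, g, V), h1, h2, h3, h4, ?_, hV, hmV⟩
  intro y hy hle
  show h y j = _
  rw [h5 y hy hle]
  exact hj.2

end

/-- The sequence of shapes. -/
def shp (G : ℕ → PQ ℕ) : ℕ → Shape
  | 0 =>
    { I := Unit
      fI := inferInstance
      dI := inferInstance
      iI := inferInstance
      Q := Unit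
      cQ := inferInstance
      C := fun _ _ _ _ _ => True
      anti := fun _ _ _ _ _ _ _ _ _ _ _ _ => trivial }
  | n+1 => nextShape (shp G n) (G n)

lemma shp_congr {G G' : ℕ → PQ ℕ} {n : ℕ} (h : ∀ j < n, G j = G' j) : shp G n = shp G' n := by
  induction n with
  | zero => rfl
  | succ n ih =>
    simp only [shp]
    rw [ih (fun j hj => h j (by omega)), h n (by omega)]

/-- The bundled Delta process at stage `n`. -/
noncomputable def deltaPr (G : ℕ → PQ ℕ) (n : ℕ) : Pr :=
  ⟨(shp G n).Q × ℕ × List (Kd (shp G n)) × (Kd (shp G n) → Finset ℕ), inferInstance,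
    delta (shp G n) (G n)⟩

end Run7.h231
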