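import Pool.Agent.Run7.h231.Syn

/-! The family of processes. -/

namespace Run7.h231

open Filter

/-! ### Columns -/

/-- The oracle with the labelling and the first `k` columns. -/
noncomputable def XX (W : World) (Z : ℕ → Ix → ℕ → ℕ) : ℕ → Ix → ℕ → ℕ
  | 0 => fun i => orc (W.T i)
  | k+1 => fun i => join (XX W Z k i) (Z k i)

/-- Column `j` of `k` columns. -/
def col : ℕ → ℕ → ℕ → ℕ
  | 0, _, _ => 0
  | k+1, j, v => if j = k then (Nat.unpair v).2 else col k j (Nat.unpair v).1

lemma col_XX (W : World) (Z : ℕ → Ix → ℕ → ℕ) {k j : ℕ} (h : j < k) (i : Ix) (y : ℕ) :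
    col k j (XX W Z k i y) = Z j i y := by
  induction k with
  | zero => omega
  | succ k ih =>
    simp only [XX, col, join, Nat.unpair_pair]
    rcases eq_or_ne j k with rfl | hne
    · rw [if_pos rfl]
    · rw [if_neg hne]
      exact ih (by omega)

lemma XX_congr (W : World) {Z Z' : ℕ → Ix → ℕ → ℕ} {k : ℕ} (h : ∀ j < k, Z j = Z' j) :
    XX W Z k = XX W Z' k := by
  induction k with
  | zero => rfl
  | succ k ih =>
    simp only [XX]
    rw [ih (fun j hj => h j (by omega)), h k (by omega)]

/-- Membership of numbers in the columns `e`. -/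
def xs (k : ℕ) (e : List ℕ) (x : ℕ → ℕ) : ℕ → ℕ → Prop := fun m y => col k (e.getD m 0) (x y) = 1

/-- Assignments. -/
def rh (p : List ℕ) (y w : ℕ) : ℕ → ℕ :=
  Function.update (Function.update (fun m => p.getD m 0) 0 y) 1 w

lemma xs_XX (W : World) (Z : ℕ → Ix → ℕ → ℕ) {k : ℕ} {e : List ℕ} (h0 : 0 < k)
    (h : ∀ j ∈ e, j < k) (i : Ix) :
    xs k e (XX W Z k i) = xn (fun m => Z (e.getD m 0)) i := by
  funext m y
  unfold xs xn
  rw [col_XX]
  rw [List.getD_eq_getElem?_getD]
  rcases h1 : e[m]? with _ | v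
  · simpa using h0
  · simp only [Option.getD_some]
    exact h v (List.mem_of_getElem? h1)

/-- A search for a witness of a bounded formula. -/
def sigFn (k : ℕ) (φ : Fml) (e : List ℕ) : SigFn where
  P := List ℕ
  cP := inferInstance
  u p y r x := φ.Bounded ∧ ∃ w < r, φ.bd (rh p y w) ≤ r ∧ φ.sn (xs k e x) (rh p y w)
  loc p y r x x' h := by
    rintro ⟨hφ, w, h1, h2, h3⟩
    refine ⟨hφ, w, h1, h2, ?_⟩
    rw [← φ.bd_spec hφ (Ξ := xs k e x)]
    · exact h3
    · intro m z hz
      unfold xs
      rw [h z (by omega)]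

/-- Pairing as in the statement. -/
def prc (x y : ℕ) : ℕ := (x + y) * (x + y) + x

lemma le_prc_left (x y : ℕ) : x ≤ prc x y := by unfold prc; omega

lemma le_prc_right (x y : ℕ) : y ≤ prc x y := by
  unfold prc
  rcases Nat.eq_zero_or_pos (x + y) with h | h
  · omega
  · have : x + y ≤ (x + y) * (x + y) := Nat.le_mul_of_pos_left _ h
    omega

lemma prc_mono {x x' y y' : ℕ} (h : x ≤ x') (h' : y ≤ y') : prc x y ≤ prc x' y' := by
  unfold prc
  have : x + y ≤ x' + y' := by omega
  have := Nat.mul_le_mul this this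
  omega

/-- The colour of the pair `(x, y)` in the colouring given by column `j`. -/
def fc (k j : ℕ) (x : ℕ → ℕ) (a b : ℕ) : Prop := col k j (x (prc a b)) = 1

/-- A search for a change of colour after `m`. -/
def chgFn (k j : ℕ) : SigFn where
  P := ℕ
  cP := inferInstance
  u m a r x := ∃ y, m ≤ y ∧ prc a y < r ∧ ¬ (fc k j x a y ↔ fc k j x a m)
  loc m a r x x' h := by
    rintro ⟨y, h1, h2, h3⟩
    refine ⟨y, h1, h2, ?_⟩
    unfold fc at *
    rw [← h _ h2, ← h (prc a m) ((prc_mono le_rfl h1).trans_lt h2)]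
    exact h3

open Classical in
/-- The computation for comprehension. -/
noncomputable def pCA (k : ℕ) (φ ψ : Fml) (e : List ℕ) : PullFn where
  P := List ℕ
  cP := inferInstance
  u p y r x := if y < r ∧ φ.Bounded ∧ ∃ w < r, φ.bd (rh p y w) ≤ r ∧ φ.sn (xs k e x) (rh p y w)
    then some (Nat.pair (x y) 1)
    else if y < r ∧ ψ.Bounded ∧ ∃ w < r, ψ.bd (rh p y w) ≤ r ∧ ¬ ψ.sn (xs k e x) (rh p y w)
    then some (Nat.pair (x y) 0) else none
  loc p y r x x' h := by
    have h1 : (y < r ∧ φ.Bounded ∧ ∃ w < r, φ.bd (rh p y w) ≤ r ∧ φ.sn (xs k e x) (rh p y w)) =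
        (y < r ∧ φ.Bounded ∧ ∃ w < r, φ.bd (rh p y w) ≤ r ∧ φ.sn (xs k e x') (rh p y w)) := by
      apply propext
      apply and_congr_right
      intro _
      apply and_congr_right
      intro hφ
      apply exists_congr
      intro w
      apply and_congr_right
      intro _
      apply and_congr_right
      intro hw
      apply φ.bd_spec hφ
      intro m z hz
      unfold xs
      rw [h z (by omega)]
    have h2 : (y < r ∧ ψ.Bounded ∧ ∃ w < r, ψ.bd (rh p y w) ≤ r ∧ ¬ ψ.sn (xs k e x) (rh p y w)) =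
        (y < r ∧ ψ.Bounded ∧ ∃ w < r, ψ.bd (rh p y w) ≤ r ∧ ¬ ψ.sn (xs k e x') (rh p y w)) := by
      apply propext
      apply and_congr_right
      intro _
      apply and_congr_right
      intro hφ
      apply exists_congr
      intro w
      apply and_congr_right
      intro _
      apply and_congr_right
      intro hw
      apply not_congr
      apply ψ.bd_spec hφ
      intro m z hz
      unfold xs
      rw [h z (by omega)]
    simp only [h1, h2]
    by_cases hy : y < r
    · rw [h y hy]
    · simp [hy]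

open Classical in
/-- The thinned set below `n`: the oracle `x` is the join of `k` columns and the set to be
thinned. -/
noncomputable def thin (k j : ℕ) (side : Bool) (x : ℕ → ℕ) : ℕ → Finset ℕ
  | 0 => ∅
  | n+1 => if (Nat.unpair (x n)).2 = 1 ∧ ∀ a ∈ thin k j side x n,
      (fc k j (fun z => (Nat.unpair (x z)).1) a n ↔ side = true) then
      insert n (thin k j side x n) else thin k j side x n

lemma thin_sub {k j : ℕ} {side : Bool} {x : ℕ → ℕ} {n : ℕ} : ∀ y ∈ thin k j side x n, y < n := by
  classical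
  induction n with
  | zero => intro y hy; simp [thin] at hy
  | succ n ih =>
    intro y hy
    simp only [thin] at hy
    split_ifs at hy with h
    · rcases Finset.mem_insert.1 hy with rfl | h1
      · omega
      · have := ih y h1
        omega
    · have := ih y hy
      omega

lemma thin_mono {k j : ℕ} {side : Bool} {x : ℕ → ℕ} {n m : ℕ} (h : n ≤ m) {y : ℕ} (hy : y < n) :
    y ∈ thin k j side x m ↔ y ∈ thin k j side x n := by
  classical
  induction h with
  | refl => exact Iff.rfl
  | @step m h ih =>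
    rw [← ih]
    have h1 : n ≤ m := h
    simp only [thin]
    split_ifs with h2
    · rw [Finset.mem_insert]
      constructor
      · rintro (rfl | h3)
        · omega
        · exact h3
      · exact Or.inr
    · exact Iff.rfl

lemma thin_local {k j : ℕ} {side : Bool} {x x' : ℕ → ℕ} {n r : ℕ} (h : ∀ z < r, x z = x' z)
    (hn : prc n n < r) : thin k j side x n = thin k j side x' n := by
  classical
  induction n with
  | zero => rfl
  | succ n ih =>
    have h1 : prc n n ≤ prc (n+1) (n+1) := prc_mono (by omega) (by omega)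
    have h2 : n ≤ prc n n := le_prc_left n n
    have ih' := ih (by omega)
    simp only [thin]
    rw [← ih', ← h n (by omega)]
    have h3 : (∀ a ∈ thin k j side x n, (fc k j (fun z => (Nat.unpair (x z)).1) a n ↔ side = true)) =
        (∀ a ∈ thin k j side x n, (fc k j (fun z => (Nat.unpair (x' z)).1) a n ↔ side = true)) := by
      apply propext
      apply forall_congr'
      intro a
      apply imp_congr_right
      intro ha
      unfold fc
      have h4 := thin_sub a ha
      have h5 : prc a n ≤ prc n n := prc_mono (by omega) le_rfl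
      have h6 : x (prc a n) = x' (prc a n) := h (prc a n) (by omega)
      simp only [h6]
    simp only [h3]

open Classical in
noncomputable def pThin (k j : ℕ) : PullFn where
  P := Bool
  cP := inferInstance
  u side y r x := if prc (y+1) (y+1) < r then
    some (Nat.pair (Nat.unpair (x y)).1 (if y ∈ thin k j side x (y+1) then 1 else 0)) else none
  loc side y r x x' h := by
    by_cases hr : prc (y+1) (y+1) < r
    · rw [if_pos hr, if_pos hr, thin_local h hr, h y (by have := le_prc_left (y+1) (y+1); omega)]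
    · rw [if_neg hr, if_neg hr]

/-! ### The tree -/

/-- Entries of coded strings. -/
def ent (a b i : ℕ) : ℕ := a % (1 + (i + 1) * b)

def codn (n a b : ℕ) : ℕ := prc n (prc a b)

/-- The string coded by `(n, a, b)` has entries below `K` and respects the labels seen before
`n`. -/
def TOk (B J : ℕ) (τ : ℕ → Cmd) (n a b : ℕ) : Prop :=
  ∀ i < n, ent a b i < B ^ J ∧ ∀ d l, Lab τ n d i l → ent a b i / B ^ d % B = l

def Tt (B J : ℕ) (τ : ℕ → Cmd) (c : ℕ) : Prop := ∃ n a b, c = codn n a b ∧ TOk B J τ n a b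

lemma Lab.congr {τ τ' : ℕ → Cmd} {t d y l : ℕ} (h : ∀ s < t, τ s = τ' s) :
    Lab τ t d y l ↔ Lab τ' t d y l := by
  constructor
  · exact Lab.mono le_rfl (fun s hs => (h s hs).symm)
  · exact Lab.mono le_rfl (fun s hs => h s hs)

lemma Tt_local {B J : ℕ} {τ τ' : ℕ → Cmd} {c : ℕ} (h : ∀ s < c, τ s = τ' s) :
    Tt B J τ c ↔ Tt B J τ' c := by
  have key : ∀ τ τ' : ℕ → Cmd, (∀ s < c, τ s = τ' s) → Tt B J τ c → Tt B J τ' c := by
    rintro τ τ' h ⟨n, a, b, rfl, h1⟩
    refine ⟨n, a, b, rfl, fun i hi => ⟨(h1 i hi).1, fun d l hl => (h1 i hi).2 d l ?_⟩⟩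
    rw [Lab.congr (τ' := τ')]
    · exact hl
    · intro s hs
      exact h s (lt_of_lt_of_le hs (le_prc_left _ _))
  exact ⟨key τ τ' h, key τ' τ (fun s hs => (h s hs).symm)⟩

noncomputable def dcd (v : ℕ) : Cmd := Function.invFun (enc : Cmd → ℕ) v

lemma dcd_orc (τ : ℕ → Cmd) (s : ℕ) : dcd (orc τ s) = τ s :=
  Function.leftInverse_invFun enc_inj (τ s)

open Classical in
noncomputable def pT : PullFn where
  P := ℕ × ℕ
  cP := inferInstance
  u p y r x := if y < r then
    some (Nat.pair (x y) (if Tt p.1 p.2 (fun s => dcd (x s)) y then 1 else 0)) else none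
  loc p y r x x' h := by
    by_cases hr : y < r
    · rw [if_pos hr, if_pos hr, h y hr]
      have h1 : Tt p.1 p.2 (fun s => dcd (x s)) y = Tt p.1 p.2 (fun s => dcd (x' s)) y :=
        propext (Tt_local (fun s hs => by rw [h s (by omega)]))
      simp only [h1]
    · rw [if_neg hr, if_neg hr]

/-! ### The operations -/

deriving instance Countable for Trm
deriving instance Countable for Fml

inductive OpC : Type
  | delta
  | sigF (k : ℕ) (φ : Fml) (e : List ℕ)
  | chg (k j : ℕ)
  | avd (k j : ℕ)
  | puT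
  | puCA (k : ℕ) (φ ψ : Fml) (e : List ℕ)
  | puThin (k j : ℕ)

deriving instance Countable for OpC

noncomputable def opC : OpC → (ℕ → Pr) → ℕ → Pr
  | .delta, L, n => deltaPr (gam L) n
  | .sigF k φ e, _, _ => ⟨(sigFn k φ e).P × ℕ, inferInstance, sig (sigFn k φ e)⟩
  | .chg k j, _, _ => ⟨(chgFn k j).P × ℕ, inferInstance, sig (chgFn k j)⟩
  | .avd k j, _, _ => ⟨Unit, inferInstance, avoid (fun v => col k j v = 1)⟩
  | .puT, L, n => pullPr pT (gam L) n
  | .puCA k φ ψ e, L, n => pullPr (pCA k φ ψ e) (gam L) n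
  | .puThin k j, L, n => pullPr (pThin k j) (gam L) n

noncomputable def mkDelta (Sh : Shape) (G : PQ ℕ) : Pr :=
  ⟨Sh.Q × ℕ × List (Kd Sh) × (Kd Sh → Finset ℕ), inferInstance, delta Sh G⟩

noncomputable def mkPull (u : PullFn) (G : PQ ℕ) : Pr := ⟨u.P × ℕ, inferInstance, pull u G⟩

lemma opC_local (o : OpC) (L L' : ℕ → Pr) (n : ℕ) (h : ∀ j ≤ n, L j = L' j) :
    opC o L n = opC o L' n := by
  have h1 : ∀ j ≤ n, gam L j = gam L' j := fun j hj => gam_congr (fun j' hj' => h j' (by omega))
  have h2 : ∀ u : PullFn, pullPr u (gam L) n = pullPr u (gam L') n := by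
    intro u
    show mkPull u (gam L n) = mkPull u (gam L' n)
    rw [h1 n le_rfl]
  cases o with
  | delta =>
    show mkDelta (shp (gam L) n) (gam L n) = mkDelta (shp (gam L') n) (gam L' n)
    rw [h1 n le_rfl, shp_congr (fun j hj => h1 j (by omega))]
  | sigF k φ e => rfl
  | chg k j => rfl
  | avd k j => rfl
  | puT => exact h2 _
  | puCA k φ ψ e => exact h2 _
  | puThin k j => exact h2 _

/-- The setting for the rest of the construction. -/
structure Setting where
  L : ℕ → Pr
  W : World
  hL0 : L 0 = ctrPr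
  hL : ∀ (o : OpC) (n : ℕ), ∃ m, L m = opC o L n
  good : Good W L (fun i => orc (W.T i))

theorem exists_setting : Nonempty Setting := by
  have : Nonempty OpC := ⟨.delta⟩
  obtain ⟨f, hf⟩ := exists_surjective_nat OpC
  obtain ⟨L, h0, hL⟩ := exists_closed ctrPr (fun k L n => opC (f k) L n)
    (fun k L L' n h => opC_local (f k) L L' n h)
  obtain ⟨W, hW⟩ := exists_world L
  refine ⟨⟨L, W, h0, fun o n => ?_, hW⟩⟩
  obtain ⟨k, rfl⟩ := hf o
  exact hL k n

end Run7.h231
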