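import Pool.Agent.Run7.h231.Hist

/-! The countable model: Tarski-Vaught, the base theory and stable Ramsey's theorem. -/

namespace Run7.h231

open Filter

/-- The data of the construction. -/
structure Data where
  S : Setting
  s : ℕ → Item
  good : ∀ k, Good S.W S.L (XX S.W (fun j => (s j).1) k)
  bd : ∀ k, S.W.c.Bd (s k).2
  z0 : (s 0).1 = Tcol S
  c0 : (s 0).2 = (fun i => S.W.B i ^ S.W.J i)
  rs : ∀ k, 0 < k → RS S.W.c k s (s k).1 (fS (Nat.unpair k).1)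
  rw : ∀ k, 0 < k → RW S.W.c k s (s k).2 (fW (Nat.unpair k).1)

theorem exists_data : Nonempty Data := by
  obtain ⟨S⟩ := exists_setting
  obtain ⟨s, h1, h2, h3, h4, h5, h6⟩ := exists_items S
  exact ⟨⟨S, s, h1, h2, h3, h4, h5, h6⟩⟩

lemma gM_ext {D : Set Gm} (x y : D) (h : x.1 = y.1) : x = y := Subtype.ext h

lemma exists_rep {c : Cut} (x : cutD c) : ∃ f : Ix → ℕ, c.Bd f ∧ x = mkD c f := by
  obtain ⟨f, h1, h2⟩ := x.2
  exact ⟨f, h2, Subtype.ext (by rw [mkD_val h2]; exact h1)⟩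

lemma MM_lt {c : Cut} {f g : Ix → ℕ} (hf : c.Bd f) (hg : c.Bd g) :
    (MM c).lt (mkD c f) (mkD c g) ↔ ∀ᶠ i in (U : Filter Ix), f i < g i := by
  show (mkD c f).1 < (mkD c g).1 ↔ _
  rw [mkD_val hf, mkD_val hg]
  exact Filter.Germ.coe_lt

lemma MM_add {c : Cut} {f g : Ix → ℕ} (hf : c.Bd f) (hg : c.Bd g) :
    (MM c).add (mkD c f) (mkD c g) = mkD c (fun i => f i + g i) := by
  apply gM_ext
  rw [mkD_val (Cut.bd_map₂ (fun a b : ℕ => a + b) hf hg)]
  show (mkD c f).1 + (mkD c g).1 = _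
  rw [mkD_val hf, mkD_val hg]
  rfl

lemma MM_mul {c : Cut} {f g : Ix → ℕ} (hf : c.Bd f) (hg : c.Bd g) :
    (MM c).mul (mkD c f) (mkD c g) = mkD c (fun i => f i * g i) := by
  apply gM_ext
  rw [mkD_val (Cut.bd_map₂ (fun a b : ℕ => a * b) hf hg)]
  show (mkD c f).1 * (mkD c g).1 = _
  rw [mkD_val hf, mkD_val hg]
  rfl

lemma MM_one {c : Cut} : (MM c).one = mkD c (fun _ => 1) := by
  apply gM_ext
  rw [mkD_val (Cut.bd_const 1)]
  rfl

lemma MM_zero {c : Cut} : (MM c).zero = mkD c (fun _ => 0) := by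
  apply gM_ext
  rw [mkD_val (Cut.bd_const 0)]
  rfl

lemma bd_add {c : Cut} {f g : Ix → ℕ} (hf : c.Bd f) (hg : c.Bd g) :
    c.Bd (fun i => f i + g i) := Cut.bd_map₂ (fun a b : ℕ => a + b) hf hg

lemma bd_mul {c : Cut} {f g : Ix → ℕ} (hf : c.Bd f) (hg : c.Bd g) :
    c.Bd (fun i => f i * g i) := Cut.bd_map₂ (fun a b : ℕ => a * b) hf hg

lemma bd_prc {c : Cut} {f g : Ix → ℕ} (hf : c.Bd f) (hg : c.Bd g) :
    c.Bd (fun i => prc (f i) (g i)) := Cut.bd_map₂ prc hf hg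

lemma MM_pair {c : Cut} {f g : Ix → ℕ} (hf : c.Bd f) (hg : c.Bd g) :
    (MM c).pair (mkD c f) (mkD c g) = mkD c (fun i => prc (f i) (g i)) := by
  unfold L2Model.pair
  rw [MM_add hf hg, MM_mul (bd_add hf hg) (bd_add hf hg),
    MM_add (bd_mul (bd_add hf hg) (bd_add hf hg)) hf]
  rfl

lemma mkD_mem {c : Cut} {f : Ix → ℕ} (hf : c.Bd f) {Z : Ix → ℕ → ℕ} :
    (mkD c f).1 ∈ zs Z ↔ ∀ᶠ i in (U : Filter Ix), Z i (f i) = 1 := by
  rw [mkD_val hf, coe_mem_zs]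

namespace Data

variable (d : Data)

abbrev c : Cut := d.S.W.c

/-- The domain of the countable model. -/
def C : Set Gm := {g | ∃ k, g = ((d.s k).2 : Gm)}

lemma C_sub : ∀ x ∈ d.C, x ∈ cutD d.c := by
  rintro _ ⟨k, rfl⟩
  exact coe_mem_cutD.2 (d.bd k)

/-- Set assignments by columns. -/
def Ze (e : ℕ → ℕ) : ℕ → Ix → ℕ → ℕ := fun m => (d.s (e m)).1

lemma parR_bd (r : List ℕ) (m : ℕ) : d.c.Bd (parR d.s r m) := by
  unfold parR
  rw [List.getD_eq_getElem?_getD, List.getElem?_map]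
  rcases h1 : r[m]? with _ | v
  · exact Cut.bd_const 0
  · exact d.bd v

lemma parF_bd (r : List ℕ) : d.c.Bd (parF d.s r) := by
  induction r with
  | nil => exact Cut.bd_const _
  | cons m r ih => exact Cut.bd_map₂ (fun (a : ℕ) (l : List ℕ) => a :: l) (d.bd m) ih

lemma parF_getD (r : List ℕ) (m : ℕ) (i : Ix) : (parF d.s r i).getD m 0 = parR d.s r m i := by
  unfold parF parR
  rw [List.getD_eq_getElem?_getD, List.getD_eq_getElem?_getD, List.getElem?_map,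
    List.getElem?_map]
  rcases h1 : r[m]? with _ | v
  · rfl
  · rfl

/-- A list representing the values of a function below `N`. -/
def lst (f : ℕ → ℕ) (N : ℕ) : List ℕ := (List.range N).map f

lemma lst_getD (f : ℕ → ℕ) {N m : ℕ} (h : m < N) : (lst f N).getD m 0 = f m := by
  unfold lst
  rw [List.getD_eq_getElem?_getD, List.getElem?_map, List.getElem?_range h]
  rfl

lemma parR_lst (f : ℕ → ℕ) {N m : ℕ} (h : m < N) : parR d.s (lst f N) m = (d.s (f m)).2 := by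
  unfold parR lst
  rw [List.getD_eq_getElem?_getD, List.getElem?_map, List.getElem?_map, List.getElem?_range h]
  rfl

lemma parZ_lst (f : ℕ → ℕ) {N m : ℕ} (h : m < N) : parZ d.s (lst f N) m = d.Ze f m := by
  unfold parZ Ze
  rw [lst_getD f h]

/-- A stage at which a given task is treated. -/
lemma exists_stage (n : ℕ) (e r : List ℕ) : ∃ k, 0 < k ∧ (Nat.unpair k).1 = n ∧
    (∀ j ∈ e, j < k) ∧ (∀ j ∈ r, j < k) := by
  let M := (e.foldr max 0) + (r.foldr max 0) + 1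
  have hle : ∀ (l : List ℕ), ∀ j ∈ l, j ≤ l.foldr max 0 := by
    intro l
    induction l with
    | nil => intro j hj; simp at hj
    | cons a l ih =>
      intro j hj
      simp only [List.foldr_cons]
      rcases List.mem_cons.1 hj with rfl | h
      · exact le_max_left _ _
      · exact (ih j h).trans (le_max_right _ _)
  have h1 : M ≤ Nat.pair n M := Nat.right_le_pair n M
  refine ⟨Nat.pair n M, by omega, by rw [Nat.unpair_pair], fun j hj => ?_, fun j hj => ?_⟩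
  · have := hle e j hj
    omega
  · have := hle r j hj
    omega

lemma xi_congr {D : Set Gm} (hD : Clo D) (𝒵 : Set (Set Gm)) {Z Z' : ℕ → Ix → ℕ → ℕ} {m : ℕ}
    (h : Z m = Z' m) : xi hD 𝒵 Z m = xi hD 𝒵 Z' m := by
  unfold xi
  rw [h]

theorem tv (e : ℕ → ℕ) : TV (cutD_clo d.c) d.C_sub ∅ (d.Ze e) := by
  intro φ ρ x hex
  obtain ⟨a, ha⟩ := hex
  have hrep : ∀ m, ∃ k, (ρ m).1 = ((d.s k).2 : Gm) := fun m => (ρ m).2
  choose kr hkr using hrep
  set N := max φ.vb φ.sb with hN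
  have hpar : ∀ m < N, mkD d.c (parR d.s (lst kr N) m) = incl d.C_sub (ρ m) := by
    intro m hm
    apply gM_ext
    rw [mkD_val (d.parR_bd _ _), d.parR_lst kr hm]
    exact (hkr m).symm
  obtain ⟨n, hn⟩ := fW_surj (φ, lst e N, lst kr N, x)
  obtain ⟨k, hk0, hk1, hk2, hk3⟩ := exists_stage n (lst e N) (lst kr N)
  have hrw := d.rw k hk0
  rw [hk1, hn] at hrw
  have hans : AnsW d.c (parZ d.s (lst e N)) φ (parR d.s (lst kr N)) x (d.s k).2 := hrw hk2 hk3
  have hconv : ∀ (b : Ix → ℕ) (b' : cutD d.c), mkD d.c b = b' →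
      (SatM d.c (parZ d.s (lst e N)) φ (Function.update (parR d.s (lst kr N)) x b) ↔
      φ.Sat (MM d.c) (xi (cutD_clo d.c) ∅ (d.Ze e))
        (Function.update (fun m => incl d.C_sub (ρ m)) x b')) := by
    intro b b' hb
    unfold SatM
    refine Fml.sat_congr (MM d.c) φ ?_ ?_
    · intro m hm
      rcases eq_or_ne m x with rfl | hne
      · rw [Function.update_self, Function.update_self]
        exact hb
      · rw [Function.update_of_ne hne, Function.update_of_ne hne]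
        exact hpar m (by omega)
    · intro m hm
      exact xi_congr _ _ (d.parZ_lst e (by omega))
  obtain ⟨b, hb1, hb2⟩ := exists_rep a
  have h1 := hans ⟨b, hb1, (hconv b a hb2.symm).2 ha⟩
  refine ⟨⟨((d.s k).2 : Gm), k, rfl⟩, ?_⟩
  refine (hconv (d.s k).2 _ ?_).1 h1
  apply gM_ext
  rw [mkD_val (d.bd k)]
  rfl

lemma C_clo : Clo d.C := by
  have hne : ((d.s 0).2 : Gm) ∈ d.C := ⟨0, rfl⟩
  have htv := d.tv id
  constructor
  · obtain ⟨a, ha⟩ := htv (.eq (.var 0) .zero) (fun _ => ⟨_, hne⟩) 0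
      ⟨⟨0, (cutD_clo d.c).zero⟩, by simp [Fml.Sat, Trm.val]⟩
    have h1 : Function.update (fun _ => incl d.C_sub ⟨_, hne⟩) 0 (incl d.C_sub a) 0 =
      (MM d.c).zero := ha
    rw [Function.update_self] at h1
    have h2 : a.1 = 0 := congrArg Subtype.val h1
    rw [← h2]
    exact a.2
  · obtain ⟨a, ha⟩ := htv (.eq (.var 0) .one) (fun _ => ⟨_, hne⟩) 0
      ⟨⟨1, (cutD_clo d.c).one⟩, by simp [Fml.Sat, Trm.val]⟩
    have h1 : Function.update (fun _ => incl d.C_sub ⟨_, hne⟩) 0 (incl d.C_sub a) 0 =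
      (MM d.c).one := ha
    rw [Function.update_self] at h1
    have h2 : a.1 = 1 := congrArg Subtype.val h1
    rw [← h2]
    exact a.2
  · intro x hx y hy
    obtain ⟨a, ha⟩ := htv (.eq (.var 2) (.add (.var 0) (.var 1)))
      (fun m => if m = 0 then ⟨x, hx⟩ else ⟨y, hy⟩) 2
      ⟨⟨x + y, (cutD_clo d.c).add _ (d.C_sub _ hx) _ (d.C_sub _ hy)⟩, by
        simp [Fml.Sat, Trm.val, incl]⟩
    simp [Fml.Sat, Trm.val, incl] at ha
    rw [← ha]
    exact a.2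
  · intro x hx y hy
    obtain ⟨a, ha⟩ := htv (.eq (.var 2) (.mul (.var 0) (.var 1)))
      (fun m => if m = 0 then ⟨x, hx⟩ else ⟨y, hy⟩) 2
      ⟨⟨x * y, (cutD_clo d.c).mul _ (d.C_sub _ hx) _ (d.C_sub _ hy)⟩, by
        simp [Fml.Sat, Trm.val, incl]⟩
    simp [Fml.Sat, Trm.val, incl] at ha
    rw [← ha]
    exact a.2

/-- The family of sets. -/
def 𝒵 : Set (Set Gm) := {B | ∃ j, B = zs (d.s j).1}

/-- The countable model. -/
noncomputable abbrev CM : L2Model := gM d.C_clo d.𝒵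

theorem elem' (e : ℕ → ℕ) (φ : Fml) (ρ : ℕ → d.C) :
    φ.Sat d.CM (xi d.C_clo d.𝒵 (d.Ze e)) ρ ↔
      φ.Sat (MM d.c) (xi (cutD_clo d.c) ∅ (d.Ze e)) (fun m => incl d.C_sub (ρ m)) :=
  elem d.C_clo (cutD_clo d.c) d.C_sub d.𝒵 ∅ (d.Ze e) (d.tv e) φ ρ

lemma exists_cols {Ξ : ℕ → Set d.CM.M} (h : ∀ k, Ξ k ∈ d.CM.S) :
    ∃ e : ℕ → ℕ, Ξ = xi d.C_clo d.𝒵 (d.Ze e) := by
  have h1 : ∀ k, ∃ j, Ξ k = {x : d.C | x.1 ∈ zs (d.s j).1} := by
    intro k
    obtain ⟨B, ⟨j, rfl⟩, hB⟩ := h k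
    exact ⟨j, hB⟩
  choose e he using h1
  exact ⟨e, funext he⟩

lemma mem_S (j : ℕ) : {x : d.C | x.1 ∈ zs (d.s j).1} ∈ d.CM.S := ⟨_, ⟨j, rfl⟩, rfl⟩

end Data

end Run7.h231
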