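import Pool.Agent.Run7.h231.Fin1

/-! The base theory and stable Ramsey's theorem in the countable model. -/

namespace Run7.h231

open Filter

lemma germ_rep (g : Gm) : ∃ f : Ix → ℕ, g = (f : Gm) :=
  Filter.Germ.inductionOn g (fun f => ⟨f, rfl⟩)

section basic

variable {D : Set Gm} (hD : Clo D) (𝒵 : Set (Set Gm))

lemma ax_succ_ne_zero (m : (gM hD 𝒵).M) :
    (gM hD 𝒵).add m (gM hD 𝒵).one ≠ (gM hD 𝒵).zero := by
  intro h
  have h1 : m.1 + 1 = 0 := congrArg Subtype.val h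
  obtain ⟨f, hf⟩ := germ_rep m.1
  rw [hf] at h1
  have h2 : ((fun i => f i + 1 : Ix → ℕ) : Gm) = ((fun _ => 0 : Ix → ℕ) : Gm) := h1
  obtain ⟨i, hi⟩ := (Filter.Germ.coe_eq.1 h2).exists
  simp at hi

lemma ax_succ_inj (m n : (gM hD 𝒵).M)
    (h : (gM hD 𝒵).add m (gM hD 𝒵).one = (gM hD 𝒵).add n (gM hD 𝒵).one) : m = n := by
  have h1 : m.1 + 1 = n.1 + 1 := congrArg Subtype.val h
  obtain ⟨f, hf⟩ := germ_rep m.1
  obtain ⟨g, hg⟩ := germ_rep n.1
  apply Subtype.ext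
  rw [hf, hg] at h1 ⊢
  have h2 : ((fun i => f i + 1 : Ix → ℕ) : Gm) = ((fun i => g i + 1 : Ix → ℕ) : Gm) := h1
  apply Filter.Germ.coe_eq.2
  filter_upwards [Filter.Germ.coe_eq.1 h2] with i hi
  omega

lemma ax_lt_succ (m n : (gM hD 𝒵).M) :
    (gM hD 𝒵).lt m ((gM hD 𝒵).add n (gM hD 𝒵).one) ↔ (gM hD 𝒵).lt m n ∨ m = n := by
  obtain ⟨f, hf⟩ := germ_rep m.1
  obtain ⟨g, hg⟩ := germ_rep n.1
  have h1 : (gM hD 𝒵).lt m ((gM hD 𝒵).add n (gM hD 𝒵).one) ↔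
      (f : Gm) < ((fun i => g i + 1 : Ix → ℕ) : Gm) := by
    show m.1 < n.1 + 1 ↔ _
    rw [hf, hg]
    exact Iff.rfl
  have h2 : (gM hD 𝒵).lt m n ↔ (f : Gm) < (g : Gm) := by
    show m.1 < n.1 ↔ _
    rw [hf, hg]
  have h3 : m = n ↔ (f : Gm) = (g : Gm) := by
    rw [← hf, ← hg]
    exact Subtype.ext_iff
  rw [h1, h2, h3, Filter.Germ.coe_lt, Filter.Germ.coe_lt, Filter.Germ.coe_eq]
  show _ ↔ (∀ᶠ i in (U : Filter Ix), f i < g i) ∨ (∀ᶠ i in (U : Filter Ix), f i = g i)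
  rw [← Ultrafilter.eventually_or]
  apply eventually_congr
  refine Eventually.of_forall fun i => ?_
  omega

lemma ax_not_lt_zero (m : (gM hD 𝒵).M) : ¬ (gM hD 𝒵).lt m (gM hD 𝒵).zero := by
  intro h
  obtain ⟨f, hf⟩ := germ_rep m.1
  have h1 : (f : Gm) < ((fun _ => 0 : Ix → ℕ) : Gm) := by
    rw [← hf]
    exact h
  obtain ⟨i, hi⟩ := (Filter.Germ.coe_lt.1 h1).exists
  simp at hi

end basic

namespace Data

variable (d : Data)

lemma sat2_ev {φ : Fml} (hφ : φ.Bounded) (e kr : ℕ → ℕ) {N : ℕ} (h1 : φ.vb ≤ N) (h2 : φ.sb ≤ N)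
    (ρ : ℕ → cutD d.c) (hρ : ∀ m < N, mkD d.c (parR d.s (lst kr N) m) = ρ m)
    {y w : Ix → ℕ} (hy : d.c.Bd y) (hw : d.c.Bd w) :
    φ.Sat2 (MM d.c) (xi (cutD_clo d.c) ∅ (d.Ze e)) ρ (mkD d.c y) (mkD d.c w) ↔
      Ev' (parZ d.s (lst e N)) φ (parF d.s (lst kr N)) y w := by
  let rr : ℕ → Ix → ℕ := fun m i => rh (parF d.s (lst kr N) i) (y i) (w i) m
  have hrr : ∀ m, d.c.Bd (rr m) := fun m => rh_bd (d.parF_bd _) hy hw (fun f => f m)
  have h3 := los (c := d.c) ∅ (parZ d.s (lst e N)) φ hφ (fun m => mkD d.c (rr m)) rr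
    (fun m => mkD_val (hrr m))
  refine Iff.trans ?_ h3
  unfold Fml.Sat2
  refine Fml.sat_congr (MM d.c) φ ?_ ?_
  · intro m hm
    rcases eq_or_ne m 1 with rfl | hne1
    · rw [Function.update_self]
      congr 1
    · rw [Function.update_of_ne hne1]
      rcases eq_or_ne m 0 with rfl | hne0
      · rw [Function.update_self]
        congr 1
      · rw [Function.update_of_ne hne0, ← hρ m (by omega)]
        congr 1
        funext i
        show _ = rh _ _ _ m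
        unfold rh
        rw [Function.update_of_ne hne1, Function.update_of_ne hne0]
        exact (d.parF_getD _ _ _).symm
  · intro m hm
    exact xi_congr _ _ (d.parZ_lst e (by omega)).symm

lemma ex_ev {φ : Fml} (hφ : φ.Bounded) (e kr : ℕ → ℕ) {N : ℕ} (h1 : φ.vb ≤ N) (h2 : φ.sb ≤ N)
    (ρ : ℕ → cutD d.c) (hρ : ∀ m < N, mkD d.c (parR d.s (lst kr N) m) = ρ m)
    {y : Ix → ℕ} (hy : d.c.Bd y) :
    (∃ x, φ.Sat2 (MM d.c) (xi (cutD_clo d.c) ∅ (d.Ze e)) ρ (mkD d.c y) x) ↔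
      ∃ w, d.c.Bd w ∧ Ev' (parZ d.s (lst e N)) φ (parF d.s (lst kr N)) y w := by
  constructor
  · rintro ⟨x, hx⟩
    obtain ⟨w, hw, rfl⟩ := exists_rep x
    exact ⟨w, hw, (d.sat2_ev hφ e kr h1 h2 ρ hρ hy hw).1 hx⟩
  · rintro ⟨w, hw, hx⟩
    exact ⟨mkD d.c w, (d.sat2_ev hφ e kr h1 h2 ρ hρ hy hw).2 hx⟩

lemma all_ev {φ : Fml} (hφ : φ.Bounded) (e kr : ℕ → ℕ) {N : ℕ} (h1 : φ.vb ≤ N) (h2 : φ.sb ≤ N)
    (ρ : ℕ → cutD d.c) (hρ : ∀ m < N, mkD d.c (parR d.s (lst kr N) m) = ρ m)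
    {y : Ix → ℕ} (hy : d.c.Bd y) :
    (∀ x, φ.Sat2 (MM d.c) (xi (cutD_clo d.c) ∅ (d.Ze e)) ρ (mkD d.c y) x) ↔
      ∀ w, d.c.Bd w → Ev' (parZ d.s (lst e N)) φ (parF d.s (lst kr N)) y w := by
  constructor
  · intro h w hw
    exact (d.sat2_ev hφ e kr h1 h2 ρ hρ hy hw).1 (h _)
  · intro h x
    obtain ⟨w, hw, rfl⟩ := exists_rep x
    exact (d.sat2_ev hφ e kr h1 h2 ρ hρ hy hw).2 (h w hw)

lemma ex_transfer (e : ℕ → ℕ) (φ : Fml) (ρ : ℕ → d.C) (n : d.C) :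
    (∃ x, φ.Sat2 d.CM (xi d.C_clo d.𝒵 (d.Ze e)) ρ n x) ↔
      ∃ x, φ.Sat2 (MM d.c) (xi (cutD_clo d.c) ∅ (d.Ze e)) (fun m => incl d.C_sub (ρ m))
        (incl d.C_sub n) x := by
  have h := d.elem' e (Fml.ex 1 φ) (Function.update ρ 0 n)
  rw [Fml.sat_ex, incl_upd, Fml.sat_ex] at h
  exact h

lemma exists_params (ρ : ℕ → d.C) : ∃ kr : ℕ → ℕ, ∀ N, ∀ m < N,
    mkD d.c (parR d.s (lst kr N) m) = incl d.C_sub (ρ m) := by
  have hrep : ∀ m, ∃ k, (ρ m).1 = ((d.s k).2 : Gm) := fun m => (ρ m).2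
  choose kr hkr using hrep
  refine ⟨kr, fun N m hm => ?_⟩
  apply gM_ext
  rw [mkD_val (d.parR_bd _ _), d.parR_lst kr hm]
  exact (hkr m).symm

theorem cm_induction (φ : Fml) (hφ : φ.Bounded) (Ξ : ℕ → Set d.CM.M) (hΞ : ∀ k, Ξ k ∈ d.CM.S)
    (ρ : ℕ → d.CM.M) (h0 : ∃ x, φ.Sat2 d.CM Ξ ρ d.CM.zero x)
    (hs : ∀ n, (∃ x, φ.Sat2 d.CM Ξ ρ n x) → ∃ x, φ.Sat2 d.CM Ξ ρ (d.CM.add n d.CM.one) x) :
    ∀ n, ∃ x, φ.Sat2 d.CM Ξ ρ n x := by
  obtain ⟨e, rfl⟩ := d.exists_cols hΞ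
  obtain ⟨kr, hkr⟩ := d.exists_params ρ
  by_contra hcon
  push Not at hcon
  obtain ⟨n, hn⟩ := hcon
  have hn' : ¬ ∃ x, φ.Sat2 d.CM (xi d.C_clo d.𝒵 (d.Ze e)) ρ n x := by
    rintro ⟨x, hx⟩
    exact hn x hx
  rw [ex_transfer] at hn' h0
  rw [← Fml.sat_stepF, elem', Fml.sat_stepF] at hs
  set N := max φ.vb φ.sb with hN
  obtain ⟨nf, hnf, hnf'⟩ := exists_rep (incl d.C_sub n)
  have hz : incl d.C_sub d.CM.zero = mkD d.c (fun _ => 0) := by
    apply gM_ext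
    rw [mkD_val (Cut.bd_const 0)]
    rfl
  rw [hnf', ex_ev d hφ e kr (N := N) (le_max_left _ _) (le_max_right _ _) _ (hkr N) hnf] at hn'
  rw [hz, ex_ev d hφ e kr (N := N) (le_max_left _ _) (le_max_right _ _) _ (hkr N)
    (Cut.bd_const 0)] at h0
  obtain ⟨k, hk0, _, hk2, _⟩ := exists_stage 0 (lst e N) []
  obtain ⟨y, hy, h1, h2⟩ := sig_step d.S (fun j => (d.s j).1) k (d.good k) hk0 φ hφ (lst e N) hk2
    (parF d.s (lst kr N)) (d.parF_bd _) nf hnf h0 hn'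
  have h3 := hs (mkD d.c y) ((ex_ev d hφ e kr (N := N) (le_max_left _ _) (le_max_right _ _) _
    (hkr N) hy).2 h1)
  rw [MM_one, MM_add hy (Cut.bd_const 1)] at h3
  exact h2 ((ex_ev d hφ e kr (N := N) (le_max_left _ _) (le_max_right _ _) _
    (hkr N) (bd_add hy (Cut.bd_const 1))).1 h3)

theorem cm_comprehension (φ ψ : Fml) (hφ : φ.Bounded) (hψ : ψ.Bounded) (Ξ : ℕ → Set d.CM.M)
    (hΞ : ∀ k, Ξ k ∈ d.CM.S) (ρ : ℕ → d.CM.M)
    (h : ∀ n, (∃ x, φ.Sat2 d.CM Ξ ρ n x) ↔ ∀ x, ψ.Sat2 d.CM Ξ ρ n x) :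
    ∃ Z ∈ d.CM.S, ∀ n, n ∈ Z ↔ ∃ x, φ.Sat2 d.CM Ξ ρ n x := by
  obtain ⟨e, rfl⟩ := d.exists_cols hΞ
  obtain ⟨kr, hkr⟩ := d.exists_params ρ
  rw [← Fml.sat_caF, elem', Fml.sat_caF] at h
  set N := max (max φ.vb φ.sb) (max ψ.vb ψ.sb) with hN
  obtain ⟨n, hn⟩ := fS_surj (.inl (φ, ψ, lst e N, lst kr N))
  obtain ⟨k, hk0, hk1, hk2, hk3⟩ := exists_stage n (lst e N) (lst kr N)
  have hrs := d.rs k hk0
  rw [hk1, hn] at hrs
  have hans : AnsCA d.c (parZ d.s (lst e N)) φ ψ (parF d.s (lst kr N)) (d.s k).1 := hrs hk2 hk3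
  have hans' := hans hφ hψ (by
    intro y hy
    have h1 := h (mkD d.c y)
    rw [ex_ev d hφ e kr (N := N) (by omega) (by omega) _ (hkr N) hy,
      all_ev d hψ e kr (N := N) (by omega) (by omega) _ (hkr N) hy] at h1
    exact h1)
  refine ⟨_, d.mem_S k, fun m => ?_⟩
  rw [ex_transfer]
  obtain ⟨mf, hmf, hmf'⟩ := exists_rep (incl d.C_sub m)
  rw [hmf', ex_ev d hφ e kr (N := N) (by omega) (by omega) _ (hkr N) hmf, ← hans' mf hmf,
    ← mkD_mem hmf, ← hmf']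
  exact Iff.rfl

theorem cm_rca0 : RCA0 d.CM where
  succ_ne_zero := ax_succ_ne_zero _ _
  succ_inj := ax_succ_inj _ _
  add_zero m := Subtype.ext (add_zero m.1)
  add_succ m n := Subtype.ext (add_assoc m.1 n.1 1).symm
  mul_zero m := Subtype.ext (mul_zero m.1)
  mul_succ m n := Subtype.ext (by
    show m.1 * (n.1 + 1) = m.1 * n.1 + m.1
    rw [mul_add, mul_one])
  not_lt_zero := ax_not_lt_zero _ _
  lt_succ := ax_lt_succ _ _
  sets_nonempty := ⟨_, d.mem_S 0⟩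
  sigma_induction := d.cm_induction
  delta_comprehension := d.cm_comprehension

theorem cm_srt22 : d.CM.SRT22 := by
  intro F hF hst
  obtain ⟨B, ⟨j, rfl⟩, rfl⟩ := hF
  have hst1 : d.CM.Stable (xi d.C_clo d.𝒵 (d.Ze (fun _ => j)) 0) := hst
  rw [← Fml.sat_stableF d.CM _ (fun _ => d.CM.zero), elem', Fml.sat_stableF] at hst1
  obtain ⟨n, hn⟩ := fS_surj (.inr j)
  obtain ⟨k, hk0, hk1, hk2, _⟩ := exists_stage n [j] []
  have hrs := d.rs k hk0
  rw [hk1, hn] at hrs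
  have hans : AnsSRT d.c (d.s j).1 (d.s k).1 := hrs (hk2 j (by simp))
  obtain ⟨hunb, side, hside⟩ := hans (by
    intro a ha
    obtain ⟨z, hz⟩ := hst1 (mkD d.c a)
    obtain ⟨zf, hzf, rfl⟩ := exists_rep z
    have key : ∀ y, d.c.Bd y → ((MM d.c).pair (mkD d.c a) (mkD d.c y) ∈
        xi (cutD_clo d.c) ∅ (d.Ze (fun _ => j)) 0 ↔
        ∀ᶠ i in (U : Filter Ix), (d.s j).1 i (prc (a i) (y i)) = 1) := by
      intro y hy
      rw [MM_pair ha hy]
      exact mkD_mem (bd_prc ha hy)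
    rcases hz with hz | hz
    · refine ⟨zf, hzf, true, fun y hy hlt => ?_⟩
      have h1 := hz (mkD d.c y) ((MM_lt ha hy).2 (hlt.mono fun i hi => hi.1))
        ((MM_lt hzf hy).2 (hlt.mono fun i hi => hi.2))
      rw [key y hy] at h1
      filter_upwards [h1] with i hi
      simp [hi]
    · refine ⟨zf, hzf, false, fun y hy hlt => ?_⟩
      have h1 := hz (mkD d.c y) ((MM_lt ha hy).2 (hlt.mono fun i hi => hi.1))
        ((MM_lt hzf hy).2 (hlt.mono fun i hi => hi.2))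
      rw [key y hy, ← Ultrafilter.eventually_not] at h1
      filter_upwards [h1] with i hi
      simp [hi])
  refine ⟨_, d.mem_S k, ?_, ?_⟩
  · have h1 : (MM d.c).Inf (xi (cutD_clo d.c) ∅ (d.Ze (fun _ => k)) 1) := by
      intro m
      obtain ⟨mf, hmf, rfl⟩ := exists_rep m
      obtain ⟨y, hy, hy'⟩ := hunb (fun i => mf i + 1) (bd_add hmf (Cut.bd_const 1))
      refine ⟨mkD d.c y, (mkD_mem hy).2 (hy'.mono fun i hi => hi.2), (MM_lt hmf hy).2 ?_⟩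
      exact hy'.mono fun i hi => hi.1
    rw [← Fml.sat_infF (MM d.c) _ (fun _ => incl d.C_sub d.CM.zero),
      ← elem' d (fun _ => k) Fml.infF (fun _ => d.CM.zero), Fml.sat_infF] at h1
    exact h1
  · have h1 : (MM d.c).Homog (xi (cutD_clo d.c) ∅ (d.Ze (fun m => if m = 0 then j else k)) 0)
        (xi (cutD_clo d.c) ∅ (d.Ze (fun m => if m = 0 then j else k)) 1) := by
      have key : ∀ x y : (MM d.c).M,
          x ∈ xi (cutD_clo d.c) ∅ (d.Ze (fun m => if m = 0 then j else k)) 1 →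
          y ∈ xi (cutD_clo d.c) ∅ (d.Ze (fun m => if m = 0 then j else k)) 1 →
          (MM d.c).lt x y → ((MM d.c).pair x y ∈
            xi (cutD_clo d.c) ∅ (d.Ze (fun m => if m = 0 then j else k)) 0 ↔ side = true) := by
        intro x y hx hy hxy
        obtain ⟨xf, hxf, rfl⟩ := exists_rep x
        obtain ⟨yf, hyf, rfl⟩ := exists_rep y
        have hx' : ∀ᶠ i in (U : Filter Ix), (d.s k).1 i (xf i) = 1 := (mkD_mem hxf).1 hx
        have hy' : ∀ᶠ i in (U : Filter Ix), (d.s k).1 i (yf i) = 1 := (mkD_mem hyf).1 hy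
        rw [MM_lt hxf hyf] at hxy
        rw [MM_pair hxf hyf]
        have h2 : (mkD d.c (fun i => prc (xf i) (yf i)) ∈
            xi (cutD_clo d.c) ∅ (d.Ze (fun m => if m = 0 then j else k)) 0) ↔
            ∀ᶠ i in (U : Filter Ix), (d.s j).1 i (prc (xf i) (yf i)) = 1 :=
          mkD_mem (bd_prc hxf hyf)
        rw [h2]
        have h3 : ∀ᶠ i in (U : Filter Ix),
            ((d.s j).1 i (prc (xf i) (yf i)) = 1 ↔ side = true) := by
          filter_upwards [hx', hy', hxy] with i h4 h5 h6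
          exact hside i _ _ h6 h4 h5
        constructor
        · intro h4
          obtain ⟨i, h5, h6⟩ := (h3.and h4).exists
          exact h5.1 h6
        · intro h4
          filter_upwards [h3] with i h5
          exact h5.2 h4
      cases hside' : side with
      | true =>
        left
        intro x hx y hy hxy
        exact (key x y hx hy hxy).2 hside'
      | false =>
        right
        intro x hx y hy hxy h2
        have := (key x y hx hy hxy).1 h2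
        rw [hside'] at this
        exact absurd this (by simp)
    rw [← Fml.sat_homogF (MM d.c) _ (fun _ => incl d.C_sub d.CM.zero),
      ← elem' d (fun m => if m = 0 then j else k) Fml.homogF (fun _ => d.CM.zero),
      Fml.sat_homogF] at h1
    exact h1

end Data

end Run7.h231
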