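import Pool.Agent.Run7.h231.Delta

/-! The step which adds a subset of `A` or of its complement. -/

namespace Run7.h231

open Filter

/-- The search for an element of the last column beyond `p`. -/
def ctrFn : SigFn where
  P := ℕ
  cP := inferInstance
  u p _ r x := ∃ z, p ≤ z ∧ z < r ∧ (Nat.unpair (x z)).2 = 1
  loc p y r x x' h := by
    rintro ⟨z, h1, h2, h3⟩
    exact ⟨z, h1, h2, by rw [← h z h2]; exact h3⟩

noncomputable def ctrPr : Pr := ⟨ctrFn.P × ℕ, inferInstance, sig ctrFn⟩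

lemma down_ind {P : ℕ → Prop} {m : ℕ} (hm : P m) (step : ∀ k < m, P (k+1) → P k) :
    ∀ k ≤ m, P k := by
  intro k hk
  obtain ⟨j, rfl⟩ := Nat.exists_eq_add_of_le hk
  clear hk
  induction j generalizing k with
  | zero => exact hm
  | succ j ih =>
    apply step k (by omega)
    apply ih (k+1)
    · have : k + 1 + j = k + (j+1) := by omega
      rw [this]
      exact hm
    · intro k' hk'
      exact step k' (by omega)

lemma exists_chain_dep {α : ℕ → Type*} (R : ∀ n, α n → α (n+1) → Prop) (a0 : α 0)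
    (h : ∀ n a, ∃ a', R n a a') : ∃ s : ∀ n, α n, s 0 = a0 ∧ ∀ n, R n (s n) (s (n+1)) := by
  choose f hf using h
  exact ⟨fun n => Nat.rec a0 (fun n a => f n a) n, rfl, fun n => hf n _⟩

structure Stg (W : World) (X : Ix → ℕ → ℕ) (G : ℕ → PQ ℕ) (n : ℕ) where
  q : Ix → (shp G n).Q
  F : Ix → Kd (shp G n) → Finset ℕ
  h : Ix → ℕ → (shp G n).I
  m : Ix → ℕ
  hq : W.c.Bd q
  hF : W.c.Bd F
  hm : W.c.Bd m
  hC : ∀ t, W.c.Bd t → ∀ᶠ i in (U : Filter Ix), (shp G n).C (W.B i) (q i) (t i) (X i) (h i)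
  ham : ∀ᶠ i in (U : Filter Ix), W.c.a n i ≤ m i
  hFm : ∀ᶠ i in (U : Filter Ix), ∀ k, ∀ y ∈ F i k, y < m i

structure Lnk (W : World) (X : Ix → ℕ → ℕ) (G : ℕ → PQ ℕ) (A : Ix → ℕ → Bool) (n : ℕ)
    (s : Stg W X G n) (s' : Stg W X G (n+1)) where
  d : Ix → ℕ
  b : Ix → ℕ
  π : Ix → Leaf (Kd (shp G n)) (G n).S
  l : Ix → Fin (vv (shp G n) (G n) + 1) → ℕ
  hb : W.c.Bd b
  hπ : W.c.Bd π
  hmb : ∀ᶠ i in (U : Filter Ix), s.m i ≤ b i
  hthr : ∀ᶠ i in (U : Filter Ix), (G n).thr (W.c.a n i) ≤ b i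
  hinv : ∀ᶠ i in (U : Filter Ix), InvL (shp G n) (G n) (W.B i) (W.c.a n i)
    (tab (fun y => (s.h i y, A i y)) (s.m i)) (s.F i) (π i) (b i) (X i)
    (Lab (W.T i) (b i) (d i))
  hext : ∀ᶠ i in (U : Filter Ix), ExtL (fun y => (s.h i y, A i y)) (π i).1
  hl : ∀ᶠ i in (U : Filter Ix), Function.Injective (l i)
  hq' : ∀ i, s'.q i = (s.q i, W.c.a n i, π i, b i, l i)
  hF' : ∀ i k, s'.F i k = (π i).2.1 ((parent (shp G n) (G n) k.1).1, k.2)
  hbm : ∀ᶠ i in (U : Filter Ix), b i ≤ s'.m i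

lemma InvL.lt_len {Sh : Shape} {G : PQ ℕ} {B p : ℕ} {κ0 : List (Kd Sh)}
    {F0 : Kd Sh → Finset ℕ} {π : Leaf (Kd Sh) G.S} {t : ℕ} {x : ℕ → ℕ} {Λ : ℕ → ℕ → Prop}
    (h : InvL Sh G B p κ0 F0 π t x Λ) (k : Kd Sh) : ∀ y ∈ π.2.1 k, y < π.1.length := by
  intro y hy
  rcases Nat.lt_or_ge y κ0.length with h1 | h1
  · exact h1.trans_le h.1
  · exact lt_of_get (h.2.2.2.2.1 k y hy h1)

lemma badl_anti {Sh : Shape} {G : PQ ℕ} {B : ℕ} {q : Sh.Q} {p : ℕ} {π : Leaf (Kd Sh) G.S}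
    {b t t' : ℕ} {x : ℕ → ℕ} (h : t ≤ t') {κ : ℕ → Kd Sh} {l : ℕ}
    (h1 : Sh.C B q t' x (fun y => (κ y).1) ∧ ¬ Acc Sh G B p π b t' x κ l) :
    Sh.C B q t x (fun y => (κ y).1) ∧ ¬ Acc Sh G B p π b t x κ l :=
  ⟨Sh.anti _ _ _ _ _ _ _ _ h (fun _ _ => rfl) (fun _ _ => rfl) h1.1,
    fun h2 => h1.2 (Acc.mono h (fun _ _ => rfl) (fun _ _ => rfl) h2)⟩

theorem exists_lnk (W : World) (L : ℕ → Pr) (X : Ix → ℕ → ℕ) (hX : Good W L X)
    (A : Ix → ℕ → Bool) (n : ℕ) (hL : ∃ m, L m = deltaPr (gam L) n)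
    (s : Stg W X (gam L) n) : ∃ s' : Stg W X (gam L) (n+1),
      Nonempty (Lnk W X (gam L) A n s s') := by
  classical
  set Sh := shp (gam L) n with hSh
  set G := gam L n with hG
  let κ0 : Ix → List (Kd Sh) := fun i => tab (fun y => (s.h i y, A i y)) (s.m i)
  have hκ0 : W.c.Bd κ0 := by
    refine Cut.bd_of_finite (fun m : ℕ => {κ : List (Kd Sh) | κ.length = m}) ?_ s.hm ?_
    · intro m
      exact List.finite_length_eq _ _
    · exact Eventually.of_forall fun i => tab_length _ _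
  have hqq : W.c.Bd (fun i => (s.q i, W.c.a n i, κ0 i, s.F i)) :=
    Cut.bd_prod s.hq (Cut.bd_prod (Cut.bd_a n) (Cut.bd_prod hκ0 s.hF))
  obtain ⟨d, S, b, hS, hb, hI, hact⟩ := hX.proc' hL _ hqq
  let S' : Ix → Multiset (Leaf (Kd Sh) G.S) := S
  have hS' : W.c.Bd S' := hS
  -- the leaf
  have hleaf : ∀ᶠ i in (U : Filter Ix), ∃ π : Leaf (Kd Sh) G.S,
      π ∈ S' i ∧ ExtL (fun y => (s.h i y, A i y)) π.1 := by
    filter_upwards [hI, s.hC b hb] with i h1 h2
    obtain ⟨π, h3, h4⟩ := h1.2.2 (fun y => (s.h i y, A i y)) ⟨fun y k hk => ((tab_get _ _ _ _).1 hk).2, h2⟩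
    exact ⟨π, h3, h4⟩
  obtain ⟨π, hπ⟩ := hleaf.choice
  have hπbd : W.c.Bd π := by
    refine Cut.bd_of_finite (fun S : Multiset (Leaf (Kd Sh) G.S) => {e | e ∈ S}) ?_ hS' ?_
    · intro S
      exact Multiset.finite_toSet S
    · filter_upwards [hπ] with i h1
      exact h1.1
  have hthr : ∀ᶠ i in (U : Filter Ix), s.m i ≤ b i ∧ G.thr (W.c.a n i) ≤ b i := by
    filter_upwards [hI] with i h1
    have h2 : max (κ0 i).length (G.thr (W.c.a n i)) ≤ b i := h1.1
    have h3 : (κ0 i).length = s.m i := tab_length _ _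
    omega
  have hInv : ∀ᶠ i in (U : Filter Ix), InvL Sh G (W.B i) (W.c.a n i) (κ0 i) (s.F i) (π i) (b i)
      (X i) (Lab (W.T i) (b i) (d i)) := by
    filter_upwards [hI, hπ] with i h1 h2
    exact h1.2.1 _ h2.1
  -- the labels and the new colouring
  have hsat : ∀ k, ∀ᶠ i in (U : Filter Ix), ∃ lk : (Fin (vv Sh G + 1) → ℕ) ×
      (Fin (vv Sh G + 1) → ℕ → Kd Sh), ∀ k' ≤ k, Function.Injective lk.1 ∧ ∀ j, lk.1 j < W.B i ∧
        ExtL (lk.2 j) (π i).1 ∧
        Sh.C (W.B i) (s.q i) (max (b i) (W.c.a k' i)) (X i) (fun y => (lk.2 j y).1) ∧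
        ¬ Acc Sh G (W.B i) (W.c.a n i) (π i) (b i) (max (b i) (W.c.a k' i)) (X i) (lk.2 j) (lk.1 j) := by
    intro k
    have hbd : W.c.Bd (fun i => max (b i) (W.c.a k i)) :=
      Cut.bd_map₂ (fun x y : ℕ => max x y) hb (Cut.bd_a k)
    filter_upwards [hact _ hbd, hπ] with i h1 h2
    have h3 := bagAct_none (h1 (le_max_left _ _)) _ h2.1
    have h4 : vv Sh G < (badl Sh G (W.B i) (s.q i) (W.c.a n i) (π i) (b i)
        (max (b i) (W.c.a k i)) (X i)).card := by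
      by_contra hcon
      have h5 : (deltaBag Sh G).act (W.B i) (s.q i, W.c.a n i, κ0 i, s.F i) (π i) (b i)
        (max (b i) (W.c.a k i)) (X i) = some (badl Sh G (W.B i) (s.q i) (W.c.a n i) (π i) (b i)
        (max (b i) (W.c.a k i)) (X i)) := if_pos (not_lt.1 hcon)
      rw [h5] at h3
      simp at h3
    obtain ⟨sub, hsub, hcard⟩ := Finset.exists_subset_card_eq (show vv Sh G + 1 ≤ _ from h4)
    let lf : Fin (vv Sh G + 1) → ℕ := fun j => (sub.equivFin.symm (Fin.cast hcard.symm j)).1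
    have hlf : ∀ j, lf j ∈ sub := fun j => (sub.equivFin.symm (Fin.cast hcard.symm j)).2
    have hlinj : Function.Injective lf := by
      intro j j' hjj
      have h6 := Subtype.ext hjj
      have h7 := sub.equivFin.symm.injective h6
      exact Fin.cast_injective _ h7
    have hex : ∀ j, ∃ κ : ℕ → Kd Sh, ExtL κ (π i).1 ∧
        Sh.C (W.B i) (s.q i) (max (b i) (W.c.a k i)) (X i) (fun y => (κ y).1) ∧
        ¬ Acc Sh G (W.B i) (W.c.a n i) (π i) (b i) (max (b i) (W.c.a k i)) (X i) κ (lf j) := by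
      intro j
      have h6 := hsub (hlf j)
      unfold badl at h6
      rw [Finset.mem_filter] at h6
      have h7 := h6.2
      unfold GoodL at h7
      push Not at h7
      exact h7
    choose κ hκ using hex
    refine ⟨(lf, κ), fun k' hk' => ⟨hlinj, fun j => ⟨?_, (hκ j).1, ?_⟩⟩⟩
    · have h6 := hsub (hlf j)
      unfold badl at h6
      rw [Finset.mem_filter, Finset.mem_range] at h6
      exact h6.1
    · refine badl_anti ?_ (hκ j).2
      have := W.c.mono' hk' i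
      omega
  obtain ⟨lk, hlk⟩ := saturate _ hsat
  have hlbd : W.c.Bd (fun i => (lk i).1) := by
    refine Cut.bd_of_finite (n := W.c.a 0) (fun N : ℕ => {l : Fin (vv Sh G + 1) → ℕ | ∀ j, l j < N})
      ?_ (Cut.bd_a 0) ?_
    · intro N
      exact Set.Finite.pi' (fun _ => Set.finite_Iio N)
    · filter_upwards [hlk 0] with i h1 j
      have h2 := (h1.2 j).1
      have h3 := W.K_le i
      have h4 : W.B i ≤ (W.B i)^(W.J i) := Nat.le_self_pow (W.pos i).ne' _
      omega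
  have hκlen : ∀ᶠ i in (U : Filter Ix), (π i).1.length ≤ b i := by
    filter_upwards [hInv, hthr] with i h1 h2
    have h3 := h1.2.1
    have h4 : (κ0 i).length = s.m i := tab_length _ _
    omega
  let s' : Stg W X (gam L) (n+1) :=
    { q := fun i => (s.q i, W.c.a n i, π i, b i, (lk i).1)
      F := fun i k => (π i).2.1 ((parent Sh G k.1).1, k.2)
      h := fun i y j => (lk i).2 j y
      m := fun i => max (b i) (W.c.a (n+1) i)
      hq := Cut.bd_prod s.hq (Cut.bd_prod (Cut.bd_a n) (Cut.bd_prod hπbd (Cut.bd_prod hb hlbd)))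
      hF := Cut.bd_map (fun (p : Leaf (Kd Sh) G.S) (k : Kd (nextShape Sh G)) =>
        p.2.1 ((parent Sh G k.1).1, k.2)) hπbd
      hm := Cut.bd_map₂ (fun x y : ℕ => max x y) hb (Cut.bd_a (n+1))
      hC := by
        intro t ht
        obtain ⟨k, hk⟩ := Cut.bd_nat.1 ht
        filter_upwards [hk, hlk k] with i h1 h2 j
        obtain ⟨h3, h4, h5⟩ := h2.2 j
        refine ⟨fun y _ k hk => h4 y k hk, ?_⟩
        exact badl_anti (by omega) h5
      ham := Eventually.of_forall fun i => le_max_right _ _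
      hFm := by
        filter_upwards [hInv, hκlen] with i h1 h2 k y hy
        have := h1.lt_len _ y hy
        omega }
  refine ⟨s', ⟨⟨d, b, π, fun i => (lk i).1, hb, hπbd, hthr.mono fun i h => h.1,
    hthr.mono fun i h => h.2, hInv, hπ.mono fun i h => h.2, (hlk 0).mono fun i h => h.1,
    fun i => rfl, fun i k => rfl, Eventually.of_forall fun i => le_max_left _ _⟩⟩⟩

end Run7.h231
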