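import Pool.Agent.Run7.h231.GStep

/-! The main theorem on adding a subset of `A` or of its complement. -/

namespace Run7.h231

open Filter

lemma step_down {Sh : Shape} {G : PQ ℕ} {B p b t : ℕ} {q : Sh.Q} {π : Leaf (Kd Sh) G.S}
    {l : Fin (vv Sh G + 1) → ℕ} {x : ℕ → ℕ} {h : ℕ → (nextShape Sh G).I}
    (hC : (nextShape Sh G).C B (q, p, π, b, l) t x h) {κ0 : List (Kd Sh)}
    {F0 : Kd Sh → Finset ℕ} {t0 : ℕ} {Λ : ℕ → ℕ → Prop}
    (hI : InvL Sh G B p κ0 F0 π t0 x Λ) (ν' : (nextShape Sh G).I) (g : ℕ → Prop) (i₀ : Bool)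
    (m' : ℕ) (h1 : ∀ y, g y → m' ≤ y → y < t → h y = ν')
    (h2 : ∀ y < m', g y → y ∈ π.2.1 ((parent Sh G ν').1, i₀)) :
    ∃ h' : ℕ → Sh.I, Sh.C B q t x h' ∧
      ∀ y, g y → κ0.length ≤ y → y < t → h' y = (parent Sh G ν').1 := by
  obtain ⟨j, hj⟩ := parent_exists Sh G ν'
  obtain ⟨h3, h4, _⟩ := hC j
  refine ⟨fun y => (h y j).1, h4, fun y hy h5 h6 => ?_⟩
  rcases Nat.lt_or_ge y m' with h7 | h7
  · have h8 := h2 y h7 hy
    have h9 := hI.2.2.2.2.1 _ y h8 h5
    have h10 := h3 y h6 _ h9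
    have h11 : (h y j).1 = ((parent Sh G ν').1, i₀).1 := congrArg Prod.fst h10
    exact h11
  · show (h y j).1 = _
    rw [h1 y hy h7 h6, ← hj]

lemma exists_path (G : ℕ → PQ ℕ) : ∀ (m : ℕ) (ν : (shp G m).I), ∃ p : ∀ n, (shp G n).I,
    p m = ν ∧ ∀ n < m, (parent (shp G n) (G n) (p (n+1))).1 = p n := by
  intro m
  induction m with
  | zero =>
    intro ν
    refine ⟨fun n => match n with
      | 0 => ν
      | n+1 => default, rfl, fun n hn => by omega⟩
  | succ m ih =>
    intro ν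
    obtain ⟨p', hp1, hp2⟩ := ih (parent (shp G m) (G m) ν).1
    refine ⟨Function.update p' (m+1) ν, Function.update_self _ _ _, fun n hn => ?_⟩
    rcases Nat.lt_or_ge n m with h1 | h1
    · rw [Function.update_of_ne (by omega), Function.update_of_ne (by omega)]
      exact hp2 n h1
    · obtain rfl : n = m := by omega
      rw [Function.update_self, Function.update_of_ne (by omega)]
      exact hp1.symm

theorem exists_stages (W : World) (L : ℕ → Pr) (X : Ix → ℕ → ℕ) (hX : Good W L X)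
    (A : Ix → ℕ → Bool) (hΔ : ∀ n, ∃ m, L m = deltaPr (gam L) n) :
    ∃ s : ∀ n, Stg W X (gam L) n, (∀ n, Nonempty (Lnk W X (gam L) A n (s n) (s (n+1)))) ∧
      ∀ i k, (s 0).F i k = ∅ := by
  let s0 : Stg W X (gam L) 0 :=
    { q := fun _ => ()
      F := fun _ _ => ∅
      h := fun _ _ => ()
      m := W.c.a 0
      hq := Cut.bd_const ()
      hF := Cut.bd_const _
      hm := Cut.bd_a 0
      hC := fun t ht => Eventually.of_forall fun i => trivial
      ham := Eventually.of_forall fun i => le_rfl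
      hFm := Eventually.of_forall fun i k y hy => absurd hy (Finset.notMem_empty y) }
  obtain ⟨s, h0, hs⟩ := exists_chain_dep (α := fun n => Stg W X (gam L) n)
    (fun n s s' => Nonempty (Lnk W X (gam L) A n s s')) s0
    (fun n s => exists_lnk W L X hX A n (hΔ n) s)
  exact ⟨s, hs, fun i k => by rw [h0]⟩

section

variable {W : World} {L : ℕ → Pr} {X : Ix → ℕ → ℕ} {A : Ix → ℕ → Bool}
  (s : ∀ n, Stg W X (gam L) n) (lnk : ∀ n, Lnk W X (gam L) A n (s n) (s (n+1)))

include lnk

lemma len_le_b (n : ℕ) : ∀ᶠ i in (U : Filter Ix), ((lnk n).π i).1.length ≤ (lnk n).b i := by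
  filter_upwards [(lnk n).hinv, (lnk n).hmb] with i h1 h2
  have h3 := h1.2.1
  rw [tab_length] at h3
  omega

lemma m_mono (n m : ℕ) (h : n ≤ m) : ∀ᶠ i in (U : Filter Ix), (s n).m i ≤ (s m).m i := by
  induction h with
  | refl => exact Eventually.of_forall fun i => le_rfl
  | step h ih =>
    filter_upwards [ih, (lnk _).hmb, (lnk _).hbm] with i h1 h2 h3
    exact h1.trans (h2.trans h3)

lemma F_side (h0 : ∀ i k, (s 0).F i k = ∅) (n : ℕ) :
    ∀ᶠ i in (U : Filter Ix), ∀ k, ∀ y ∈ (s n).F i k, A i y = k.2 := by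
  induction n with
  | zero =>
    refine Eventually.of_forall fun i k y hy => ?_
    rw [h0] at hy
    exact absurd hy (Finset.notMem_empty y)
  | succ n ih =>
    filter_upwards [ih, (lnk n).hinv, (lnk n).hext] with i h1 h2 h3 k y hy
    rw [(lnk n).hF'] at hy
    rcases Nat.lt_or_ge y ((s n).m i) with h4 | h4
    · have h5 := (h2.2.2.2.1 _ y (by rw [tab_length]; exact h4)).1 hy
      exact h1 _ y h5
    · have h5 := h2.2.2.2.2.1 _ y hy (by rw [tab_length]; exact h4)
      have h6 := h3 y _ h5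
      simp only [Prod.mk.injEq] at h6
      exact h6.2

/-- Non-dead parts. -/
def ND (n : ℕ) (ν' : (shp (gam L) (n+1)).I) : Prop :=
  ∀ k, n = k + 1 → ∀ᶠ i in (U : Filter Ix),
    ∃ y ∈ ((lnk n).π i).2.1 (parent (shp (gam L) n) (gam L n) ν'), W.c.a k i ≤ y

lemma nd_of_path (hctr : L 0 = ctrPr) (N : ℕ) (p : ∀ n, (shp (gam L) n).I)
    (hp : ∀ n < N + 1, (parent (shp (gam L) n) (gam L n) (p (n+1))).1 = p n)
    (hN : ∀ᶠ i in (U : Filter Ix), (s (N+1)).h i ((s (N+1)).m i) = p (N+1)) :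
    ∀ n ≤ N, ND s lnk n (p (n+1)) := by
  classical
  intro n hn k hk
  have hdown : ∀ k ≤ N + 1, ∀ᶠ i in (U : Filter Ix), ∃ h : ℕ → (shp (gam L) k).I,
      (shp (gam L) k).C (W.B i) ((s k).q i) ((s (N+1)).m i + 1) (X i) h ∧
        h ((s (N+1)).m i) = p k := by
    apply down_ind
    · have hbd : W.c.Bd (fun i => (s (N+1)).m i + 1) := Cut.bd_map (fun x : ℕ => x + 1) (s (N+1)).hm
      filter_upwards [(s (N+1)).hC _ hbd, hN] with i h1 h2
      exact ⟨(s (N+1)).h i, h1, h2⟩
    · intro k hk ih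
      filter_upwards [ih] with i h1
      obtain ⟨h, h2, h3⟩ := h1
      rw [(lnk k).hq'] at h2
      obtain ⟨j, hj⟩ := parent_exists (shp (gam L) k) (gam L k) (p (k+1))
      refine ⟨fun y => (h y j).1, (h2 j).2.1, ?_⟩
      show (h _ j).1 = _
      rw [h3, ← hp k hk, ← hj]
  have hsub : Sub (gam L n) (L 0).proc := gam_sub L (Nat.zero_le n)
  have hsub' : Sub (gam L n) ctrPr.proc := by
    rw [hctr] at hsub
    exact hsub
  obtain ⟨comp, hcomp⟩ := hsub'
  have hgrow := W.c.grow (fun m => enc ((m, 1) : ctrFn.P × ℕ)) k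
  filter_upwards [hdown (n+1) (by omega), (lnk n).hinv, (lnk n).hl, len_le_b s lnk n,
    (lnk n).hbm, m_mono s lnk (n+1) (N+1) (by omega), hgrow, (s (N+1)).ham] with i h1 h2 h3 h4 h5 h6 h7 h8
  obtain ⟨h, hC, hh⟩ := h1
  rw [(lnk n).hq'] at hC
  set K := parent (shp (gam L) n) (gam L n) (p (n+1)) with hK
  set x := (s (N+1)).m i with hx
  have hlt := h2.lt_len K
  have hnone := majority (shp (gam L) n) (gam L n) (t₁ := x + 1) hC h3 (p (n+1))
    (insert x (((lnk n).π i).2.1 K)) (by omega) le_rfl ?_ ?_ ?_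
  rotate_left
  · intro y hy
    rcases Finset.mem_insert.1 hy with rfl | h9
    · omega
    · have := hlt y h9
      omega
  · intro y hy
    rw [Finset.mem_insert]
    constructor
    · rintro (rfl | h9)
      · omega
      · exact h9
    · exact Or.inr
  · intro y hy hle
    rcases Finset.mem_insert.1 hy with rfl | h9
    · exact hh
    · have := hlt y h9
      omega
  have hinv := h2.2.2.2.2.2 K
  have henc : enc ((W.c.a k i, 1) : ctrFn.P × ℕ) ≤ W.c.a n i := by
    rw [hk]
    exact (h7 _ le_rfl).le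
  obtain ⟨_, hc2⟩ := hcomp (W.B i) (W.c.a n i) (((lnk n).π i).2.2 K) (W.c.a k i, 1) henc
  obtain ⟨hc3, hc4⟩ := hc2 _ _ _ hinv
  have hc5 := sig_act_none (hc4 _ _ _ hnone) hc3
  have hax : W.c.a k i ≤ x := (W.c.mono' (by omega) i).trans h8
  have hc6 := hc5 0 (by simp) ⟨x + 1, le_rfl, x, hax, by omega, by
    simp [join, ind]⟩
  obtain ⟨_, r, hr, z, hz1, hz2, hz3⟩ := hc3.1 0 hc6
  refine ⟨z, ?_, hz1⟩
  unfold join ind at hz3
  simp only [Nat.unpair_pair] at hz3
  by_contra hcon
  rw [if_neg hcon] at hz3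
  omega

end

theorem gstep (W : World) (L : ℕ → Pr) (X : Ix → ℕ → ℕ) (hX : Good W L X)
    (A : Ix → ℕ → Bool) (hΔ : ∀ n, ∃ m, L m = deltaPr (gam L) n) (hctr : L 0 = ctrPr) :
    ∃ (side : Bool) (g : Ix → ℕ → ℕ),
      (∀ t, W.c.Bd t → ∀ᶠ i in (U : Filter Ix), ∀ y < t i, g i y = 1 → A i y = side) ∧
      (∀ t, W.c.Bd t → ∃ y, W.c.Bd y ∧ ∀ᶠ i in (U : Filter Ix), t i ≤ y i ∧ g i (y i) = 1) ∧
      Good W L (fun i => join (X i) (g i)) := by
  classical
  obtain ⟨s, hs, h0⟩ := exists_stages W L X hX A hΔ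
  have lnk : ∀ n, Lnk W X (gam L) A n (s n) (s (n+1)) := fun n => (hs n).some
  -- the path
  have hpath : ∀ N : ℕ, ∃ p : ∀ n, (shp (gam L) n).I,
      (∀ n < N + 1, (parent (shp (gam L) n) (gam L n) (p (n+1))).1 = p n) ∧
      ∀ n ≤ N, ND s lnk n (p (n+1)) := by
    intro N
    obtain ⟨ν, hν⟩ := ultra_const U (fun i => (s (N+1)).h i ((s (N+1)).m i))
    obtain ⟨p, hp1, hp2⟩ := exists_path (gam L) (N+1) ν
    refine ⟨p, hp2, nd_of_path s lnk hctr N p hp2 ?_⟩
    rw [hp1]
    exact hν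
  choose pp hpp1 hpp2 using hpath
  have hlim : ∀ n, ∃ ν : (shp (gam L) n).I, ∀ᶠ N in (hyperfilter ℕ : Filter ℕ), pp N n = ν :=
    fun n => ultra_const (hyperfilter ℕ) (fun N => pp N n)
  choose ν hν using hlim
  have hge : ∀ M : ℕ, ∀ᶠ N in (hyperfilter ℕ : Filter ℕ), M ≤ N := by
    intro M
    have h1 : (hyperfilter ℕ : Filter ℕ) ≤ atTop := by
      rw [← Nat.cofinite_eq_atTop]
      exact hyperfilter_le_cofinite
    exact h1 (eventually_ge_atTop M)
  have hν1 : ∀ n, (parent (shp (gam L) n) (gam L n) (ν (n+1))).1 = ν n := by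
    intro n
    obtain ⟨N, h1, h2, h3⟩ := ((hν n).and ((hν (n+1)).and (hge n))).exists
    rw [← h1, ← h2]
    exact hpp1 N n (by omega)
  have hν2 : ∀ n, ND s lnk n (ν (n+1)) := by
    intro n
    obtain ⟨N, h2, h3⟩ := ((hν (n+1)).and (hge n)).exists
    rw [← h2]
    exact hpp2 N n h3
  obtain ⟨i₀, hi₀⟩ := ultra_const (hyperfilter ℕ)
    (fun n => (parent (shp (gam L) n) (gam L n) (ν (n+1))).2)
  have hinf : ∀ M, ∃ n ≥ M, parent (shp (gam L) n) (gam L n) (ν (n+1)) = (ν n, i₀) := by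
    intro M
    obtain ⟨n, h1, h2⟩ := (hi₀.and (hge M)).exists
    exact ⟨n, h2, Prod.ext (hν1 n) h1⟩
  have hFstep : ∀ n i, (s (n+1)).F i (ν (n+1), i₀) = ((lnk n).π i).2.1 (ν n, i₀) := by
    intro n i
    rw [(lnk n).hF']
    simp only [hν1]
  -- coherence
  have hcoh : ∀ n m, n ≤ m → ∀ᶠ i in (U : Filter Ix), ∀ y < (s n).m i,
      (y ∈ (s m).F i (ν m, i₀) ↔ y ∈ (s n).F i (ν n, i₀)) := by
    intro n m hnm
    induction hnm with
    | refl => exact Eventually.of_forall fun i y _ => Iff.rfl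
    | @step m h ih =>
      filter_upwards [ih, (lnk m).hinv, m_mono s lnk n m h] with i h1 h2 h3 y hy
      rw [hFstep, ← h1 y hy]
      exact h2.2.2.2.1 _ y (by rw [tab_length]; omega)
  -- the internal set
  obtain ⟨g, hg⟩ := saturate (α := ℕ → ℕ)
    (fun m i g => ∀ y < (s m).m i, g y = ind ((s m).F i (ν m, i₀)) y) (by
      intro k
      have h1 : ∀ᶠ i in (U : Filter Ix), ∀ j : Fin (k+1), ∀ y < (s j).m i,
          (y ∈ (s k).F i (ν k, i₀) ↔ y ∈ (s j).F i (ν j, i₀)) := by
        rw [eventually_all]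
        intro j
        exact hcoh j k (by omega)
      filter_upwards [h1] with i h2
      refine ⟨ind ((s k).F i (ν k, i₀)), fun j hj y hy => ?_⟩
      have h3 := h2 ⟨j, by omega⟩ y hy
      unfold ind
      by_cases h4 : y ∈ (s k).F i (ν k, i₀)
      · rw [if_pos h4, if_pos (h3.1 h4)]
      · rw [if_neg h4, if_neg (fun h5 => h4 (h3.2 h5))])
  have hg1 : ∀ m, ∀ᶠ i in (U : Filter Ix), ∀ y < (s m).m i,
      (g i y = 1 ↔ y ∈ (s m).F i (ν m, i₀)) := by
    intro m
    filter_upwards [hg m] with i h1 y hy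
    rw [h1 y hy]
    unfold ind
    split_ifs with h2
    · simp [h2]
    · simp [h2]
  refine ⟨i₀, g, ?_, ?_, ?_⟩
  · intro t ht
    obtain ⟨k, hk⟩ := Cut.bd_nat.1 ht
    filter_upwards [hk, hg1 k, (s k).ham, F_side s lnk h0 k] with i h1 h2 h3 h4 y hy hgy
    exact h4 _ y ((h2 y (by omega)).1 hgy)
  · intro t ht
    obtain ⟨k, hk⟩ := Cut.bd_nat.1 ht
    obtain ⟨n, hn, hpar⟩ := hinf (k+1)
    obtain ⟨n', rfl⟩ : ∃ n', n = n' + 1 := ⟨n - 1, by omega⟩
    have h1 := hν2 (n'+1) n' rfl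
    rw [hpar] at h1
    obtain ⟨y, hy⟩ := h1.choice
    refine ⟨y, ?_, ?_⟩
    · refine Cut.bd_le (s (n'+1+1)).hm ?_
      filter_upwards [hy, (s (n'+1+1)).hFm] with i h2 h3
      have h4 := h2.1
      rw [← hFstep] at h4
      exact (h3 _ _ h4).le
    · filter_upwards [hy, hk, hg1 (n'+1+1), (s (n'+1+1)).hFm] with i h2 h3 h4 h5
      have h6 := h2.1
      rw [← hFstep] at h6
      refine ⟨h3.trans ((W.c.mono' (by omega) i).trans h2.2), ?_⟩
      exact (h4 _ (h5 _ _ h6)).2 h6
  · intro n₀ e he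
    obtain ⟨k, hk⟩ := Cut.bd_nat.1 he
    obtain ⟨n, hn, hpar⟩ := hinf (max n₀ k)
    refine ⟨n, by omega, W.c.a n, Cut.bd_a n, ?_, ?_⟩
    · filter_upwards [hk] with i h1
      exact h1.trans (W.c.mono' (by omega) i)
    · refine ⟨(lnk n).d, fun i => ((lnk n).π i).2.2 (ν n, i₀), (lnk n).b,
        Cut.bd_map (fun p : Leaf (Kd (shp (gam L) n)) (gam L n).S => p.2.2 (ν n, i₀)) (lnk n).hπ,
        (lnk n).hb, ?_, ?_⟩
      · filter_upwards [(lnk n).hthr, (lnk n).hinv, hg (n+1), (lnk n).hbm, len_le_b s lnk n] with i h1 h2 h3 h4 h5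
        refine ⟨h1, ?_⟩
        refine (gam L n).inv_mono _ _ _ _ _ _ _ _ _ (min_le_left _ _) ?_ (fun _ _ h => h)
          (h2.2.2.2.2.2 (ν n, i₀))
        intro y hy
        unfold join
        rw [h3 y (by omega), hFstep]
      · intro t ht
        obtain ⟨k', hk'⟩ := Cut.bd_nat.1 ht
        set M := max k' (n+1) with hM
        have hadm : ∀ k ≤ M, ∀ᶠ i in (U : Filter Ix), ∃ h : ℕ → (shp (gam L) k).I,
            (shp (gam L) k).C (W.B i) ((s k).q i) (t i) (X i) h ∧
              ∀ y, g i y = 1 → (s k).m i ≤ y → y < t i → h y = ν k := by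
          apply down_ind
          · filter_upwards [(s M).hC t ht, hk', (s M).ham] with i h1 h2 h3
            refine ⟨(s M).h i, h1, fun y hy h4 h5 => ?_⟩
            have h6 : W.c.a k' i ≤ W.c.a M i := W.c.mono' (le_max_left _ _) i
            omega
          · intro k hk ih
            filter_upwards [ih, (lnk k).hinv, hg1 (k+1)] with i h1 h2 h3
            obtain ⟨h, h4, h5⟩ := h1
            rw [(lnk k).hq'] at h4
            obtain ⟨h', h6, h7⟩ := step_down h4 h2 (ν (k+1)) (fun y => g i y = 1) i₀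
              ((s (k+1)).m i) h5 (fun y hy hgy => by
                rw [hν1, ← hFstep]
                exact (h3 y hy).1 hgy)
            refine ⟨h', h6, fun y hy h8 h9 => ?_⟩
            rw [h7 y hy (by rw [tab_length]; exact h8) h9]
            exact hν1 k
        filter_upwards [hadm (n+1) (le_max_right _ _), (lnk n).hinv, (lnk n).hl,
          hg1 (n+1), hg M, (s M).ham, hk', (lnk n).hbm, len_le_b s lnk n,
          (lnk n).hmb] with i h1 h2 h3 h4 h4' h4a h4b h5 h6 h7 h8
        obtain ⟨h, hC, hh⟩ := h1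
        rw [(lnk n).hq'] at hC
        have hlt := h2.lt_len (ν n, i₀)
        have hnone := majority (shp (gam L) n) (gam L n) (t₁ := t i) hC h3 (ν (n+1))
          ((Finset.range (t i)).filter (fun y => g i y = 1)) h8 le_rfl ?_ ?_ ?_
        rotate_left
        · intro y hy
          rw [Finset.mem_filter, Finset.mem_range] at hy
          exact hy.1
        · intro y hy
          rw [Finset.mem_filter, Finset.mem_range, hpar, h4 y (by omega), hFstep]
          constructor
          · exact fun h => h.2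
          · exact fun h => ⟨by omega, h⟩
        · intro y hy hle
          rw [Finset.mem_filter, Finset.mem_range] at hy
          apply hh y hy.2 ?_ hy.1
          by_contra hcon
          have h9 := (h4 y (by omega)).1 hy.2
          rw [hFstep] at h9
          have := hlt y h9
          omega
        rw [hpar] at hnone
        rw [← hnone]
        apply (gam L n).act_local
        intro y hy
        have h9 : W.c.a k' i ≤ W.c.a M i := W.c.mono' (le_max_left _ _) i
        have h10 := h4' y (by omega)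
        have h11 : g i y = ind ((Finset.range (t i)).filter (fun y => g i y = 1)) y := by
          by_cases h12 : g i y = 1
          · exact h12.trans (if_pos (Finset.mem_filter.2 ⟨Finset.mem_range.2 hy, h12⟩)).symm
          · have h13 : g i y = 0 := by
              unfold ind at h10
              split_ifs at h10 with h14
              · exact absurd h10 h12
              · exact h10
            have h15 : y ∉ (Finset.range (t i)).filter (fun y => g i y = 1) := by
              intro h16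
              exact h12 (Finset.mem_filter.1 h16).2
            exact h13.trans (if_neg h15).symm
        show Nat.pair (X i y) (g i y) = Nat.pair (X i y) _
        rw [← h11]

end Run7.h231
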