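import Pool.Agent.Run7.h231.Syn

/-! Formulas expressing the notions of the statement. -/

namespace Run7.h231

open Filter

namespace Fml

def imp (φ ψ : Fml) : Fml := .neg (.and φ (.neg ψ))
def or (φ ψ : Fml) : Fml := .neg (.and (.neg φ) (.neg ψ))
def iff (φ ψ : Fml) : Fml := .and (imp φ ψ) (imp ψ φ)
def ex (x : ℕ) (φ : Fml) : Fml := .neg (.all x (.neg φ))

variable (𝓜 : L2Model) (Ξ : ℕ → Set 𝓜.M)

lemma sat_imp (φ ψ : Fml) (ρ : ℕ → 𝓜.M) :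
    (imp φ ψ).Sat 𝓜 Ξ ρ ↔ (φ.Sat 𝓜 Ξ ρ → ψ.Sat 𝓜 Ξ ρ) := by
  simp only [imp, Fml.Sat]
  tauto

lemma sat_or (φ ψ : Fml) (ρ : ℕ → 𝓜.M) :
    (or φ ψ).Sat 𝓜 Ξ ρ ↔ (φ.Sat 𝓜 Ξ ρ ∨ ψ.Sat 𝓜 Ξ ρ) := by
  simp only [or, Fml.Sat]
  tauto

lemma sat_iff (φ ψ : Fml) (ρ : ℕ → 𝓜.M) :
    (iff φ ψ).Sat 𝓜 Ξ ρ ↔ (φ.Sat 𝓜 Ξ ρ ↔ ψ.Sat 𝓜 Ξ ρ) := by
  simp only [iff, Fml.Sat, sat_imp]
  tauto

lemma sat_ex (x : ℕ) (φ : Fml) (ρ : ℕ → 𝓜.M) :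
    (ex x φ).Sat 𝓜 Ξ ρ ↔ ∃ a, φ.Sat 𝓜 Ξ (Function.update ρ x a) := by
  simp only [ex, Fml.Sat]
  push Not
  rfl

/-- Hypothesis of comprehension. -/
def caF (φ ψ : Fml) : Fml := .all 0 (iff (ex 1 φ) (.all 1 ψ))

lemma sat_caF (φ ψ : Fml) (ρ : ℕ → 𝓜.M) : (caF φ ψ).Sat 𝓜 Ξ ρ ↔
    ∀ n, (∃ x, φ.Sat2 𝓜 Ξ ρ n x) ↔ ∀ x, ψ.Sat2 𝓜 Ξ ρ n x := by
  simp only [caF, Fml.Sat, sat_iff, sat_ex, Fml.Sat2]

/-- The induction step. -/
def stepF (φ : Fml) : Fml :=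
  .all 0 (imp (ex 1 φ) (.all (φ.vb + 2) (imp (.eq (.var (φ.vb + 2)) (.add (.var 0) .one))
    (.all 0 (imp (.eq (.var 0) (.var (φ.vb + 2))) (ex 1 φ))))))

lemma sat_stepF (φ : Fml) (ρ : ℕ → 𝓜.M) : (stepF φ).Sat 𝓜 Ξ ρ ↔
    ∀ n, (∃ x, φ.Sat2 𝓜 Ξ ρ n x) → ∃ x, φ.Sat2 𝓜 Ξ ρ (𝓜.add n 𝓜.one) x := by
  have key : ∀ (n b a x : 𝓜.M), φ.Sat 𝓜 Ξ (Function.update (Function.update
      (Function.update (Function.update ρ 0 n) (φ.vb + 2) b) 0 a) 1 x) ↔ φ.Sat2 𝓜 Ξ ρ a x := by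
    intro n b a x
    unfold Fml.Sat2
    apply φ.sat_congr 𝓜 _ (fun _ _ => rfl)
    apply upd_agree
    intro m hm
    rcases eq_or_ne m 0 with rfl | hne
    · simp
    · rw [Function.update_of_ne hne, Function.update_of_ne hne, Function.update_of_ne (by omega),
        Function.update_of_ne hne]
  simp only [stepF, Fml.Sat, sat_imp, sat_ex, key, Trm.val]
  apply forall_congr'
  intro n
  have h1 : (∃ a, φ.Sat 𝓜 Ξ (Function.update (Function.update ρ 0 n) 1 a)) ↔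
      ∃ x, φ.Sat2 𝓜 Ξ ρ n x := Iff.rfl
  rw [h1]
  apply imp_congr_right
  intro _
  have h2 : ∀ b : 𝓜.M, Function.update (Function.update ρ 0 n) (φ.vb + 2) b (φ.vb + 2) = b := by
    intro b
    simp
  have h3 : ∀ b : 𝓜.M, Function.update (Function.update ρ 0 n) (φ.vb + 2) b 0 = n := by
    intro b
    rw [Function.update_of_ne (by omega)]
    simp
  have h4 : ∀ b a : 𝓜.M, Function.update (Function.update (Function.update ρ 0 n) (φ.vb + 2) b) 0 a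
      (φ.vb + 2) = b := by
    intro b a
    rw [Function.update_of_ne (by omega)]
    simp
  simp only [h2, h3, h4, Function.update_self]
  constructor
  · intro h
    exact h _ rfl _ rfl
  · intro h b hb a ha
    subst ha
    subst hb
    exact h

def pr (s t : Trm) : Trm := .add (.mul (.add s t) (.add s t)) s

def stableF : Fml := .all 0 (ex 1 (or
  (.all 2 (imp (.lt (.var 0) (.var 2)) (imp (.lt (.var 1) (.var 2)) (.mem (pr (.var 0) (.var 2)) 0))))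
  (.all 2 (imp (.lt (.var 0) (.var 2)) (imp (.lt (.var 1) (.var 2))
    (.neg (.mem (pr (.var 0) (.var 2)) 0)))))))

lemma sat_stableF (ρ : ℕ → 𝓜.M) : stableF.Sat 𝓜 Ξ ρ ↔ 𝓜.Stable (Ξ 0) := by
  simp [stableF, Fml.Sat, sat_imp, sat_ex, sat_or, Trm.val, pr, L2Model.Stable, L2Model.pair,
    Function.update_apply]

def infF : Fml := .all 0 (ex 1 (.and (.mem (.var 1) 1) (.lt (.var 0) (.var 1))))

lemma sat_infF (ρ : ℕ → 𝓜.M) : infF.Sat 𝓜 Ξ ρ ↔ 𝓜.Inf (Ξ 1) := by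
  simp [infF, Fml.Sat, sat_ex, Trm.val, L2Model.Inf, Function.update_apply]

def homogF : Fml := or
  (.all 0 (imp (.mem (.var 0) 1) (.all 1 (imp (.mem (.var 1) 1) (imp (.lt (.var 0) (.var 1))
    (.mem (pr (.var 0) (.var 1)) 0))))))
  (.all 0 (imp (.mem (.var 0) 1) (.all 1 (imp (.mem (.var 1) 1) (imp (.lt (.var 0) (.var 1))
    (.neg (.mem (pr (.var 0) (.var 1)) 0)))))))

lemma sat_homogF (ρ : ℕ → 𝓜.M) : homogF.Sat 𝓜 Ξ ρ ↔ 𝓜.Homog (Ξ 0) (Ξ 1) := by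
  simp [homogF, Fml.Sat, sat_imp, sat_or, Trm.val, pr, L2Model.Homog, L2Model.pair,
    Function.update_apply]

/-- `Entry a b i r`, with a bound variable `q`. -/
def entF (a b i r q : ℕ) : Fml :=
  .and (.lt (.var r) (.add .one (.mul (.add (.var i) .one) (.var b))))
    (ex q (.eq (.var a) (.add (.mul (.var q) (.add .one (.mul (.add (.var i) .one) (.var b))))
      (.var r))))

lemma sat_entF (a b i r q : ℕ) (h1 : a ≠ q) (h2 : b ≠ q) (h3 : i ≠ q) (h4 : r ≠ q) (ρ : ℕ → 𝓜.M) :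
    (entF a b i r q).Sat 𝓜 Ξ ρ ↔ 𝓜.Entry (ρ a) (ρ b) (ρ i) (ρ r) := by
  simp only [entF, Fml.Sat, sat_ex, Trm.val, L2Model.Entry, Function.update_self,
    Function.update_of_ne h1, Function.update_of_ne h2, Function.update_of_ne h3,
    Function.update_of_ne h4]

def codT (n a b : Trm) : Trm := pr n (pr a b)

/-- `InfTree k T`: `k` is the value of variable `0`, `T` is the set variable `0`. -/
def treeF : Fml :=
  .and (.all 1 (imp (.mem (.var 1) 0) (ex 2 (ex 3 (ex 4 (.and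
      (.eq (.var 1) (codT (.var 2) (.var 3) (.var 4)))
      (.all 5 (imp (.lt (.var 5) (.var 2)) (ex 6 (.and (.lt (.var 6) (.var 0))
        (entF 3 4 5 6 7)))))))))))
  (.and (.all 1 (.all 2 (.all 3 (.all 4 (.all 5 (.all 6 (imp
      (.mem (codT (.var 1) (.var 2) (.var 3)) 0)
      (imp (or (.lt (.var 4) (.var 1)) (.eq (.var 4) (.var 1)))
      (imp (.all 7 (imp (.lt (.var 7) (.var 4)) (.all 8 (imp (entF 2 3 7 8 9) (entF 5 6 7 8 9)))))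
      (.mem (codT (.var 4) (.var 5) (.var 6)) 0))))))))))
  (.all 1 (ex 2 (ex 3 (.mem (codT (.var 1) (.var 2) (.var 3)) 0)))))

lemma sat_treeF (ρ : ℕ → 𝓜.M) : treeF.Sat 𝓜 Ξ ρ ↔ 𝓜.InfTree (ρ 0) (Ξ 0) := by
  have h : 𝓜.InfTree (ρ 0) (Ξ 0) ↔ ((∀ c ∈ Ξ 0, ∃ n a b, c = 𝓜.code n a b ∧
    ∀ i, 𝓜.lt i n → ∃ r, 𝓜.lt r (ρ 0) ∧ 𝓜.Entry a b i r) ∧
    ((∀ n a b n' a' b', 𝓜.code n a b ∈ Ξ 0 → (𝓜.lt n' n ∨ n' = n) →
    (∀ i, 𝓜.lt i n' → ∀ r, 𝓜.Entry a b i r → 𝓜.Entry a' b' i r) → 𝓜.code n' a' b' ∈ Ξ 0) ∧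
    ∀ n, ∃ a b, 𝓜.code n a b ∈ Ξ 0)) :=
    ⟨fun h => ⟨h.1, h.2, h.3⟩, fun h => ⟨h.1, h.2.1, h.2.2⟩⟩
  rw [h]
  simp [treeF, Fml.Sat, sat_imp, sat_ex, sat_or, sat_entF, Trm.val, pr, codT, L2Model.code,
    L2Model.pair, Function.update_apply]

/-- `HomogTree k T H`: `k` is the value of variable `0`, `T` and `H` are the set variables `0`
and `1`. -/
def htF : Fml :=
  ex 1 (.and (.lt (.var 1) (.var 0)) (.all 2 (ex 3 (ex 4 (.and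
    (.mem (codT (.var 2) (.var 3) (.var 4)) 0)
    (.all 5 (imp (.mem (.var 5) 1) (imp (.lt (.var 5) (.var 2)) (entF 3 4 5 1 6)))))))))

lemma sat_htF (ρ : ℕ → 𝓜.M) : htF.Sat 𝓜 Ξ ρ ↔ 𝓜.HomogTree (ρ 0) (Ξ 0) (Ξ 1) := by
  simp [htF, Fml.Sat, sat_imp, sat_ex, sat_entF, Trm.val, pr, codT, L2Model.code,
    L2Model.pair, L2Model.HomogTree, Function.update_apply]

end Fml

end Run7.h231
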