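import Pool.Agent.Run7.h231.Srt
import Pool.Agent.Run7.h231.Lib

/-! The dovetailed construction of the second-order part and of the constants. -/

namespace Run7.h231

open Filter

lemma hist_choice {α : Type*} [Inhabited α] (P : ℕ → (ℕ → α) → Prop)
    (R : ℕ → (ℕ → α) → α → Prop) (hP0 : ∀ s, P 0 s)
    (Ploc : ∀ k s s', (∀ j < k, s j = s' j) → P k s → P k s')
    (Rloc : ∀ k s s' a, (∀ j < k, s j = s' j) → R k s a → R k s' a)
    (step : ∀ k s, P k s → ∃ a, R k s a ∧ P (k+1) (Function.update s k a)) :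
    ∃ s : ℕ → α, ∀ k, P k s ∧ R k s (s k) := by
  choose f hf1 hf2 using step
  let F : ∀ k, {s : ℕ → α // P k s} := fun k => Nat.rec ⟨fun _ => default, hP0 _⟩
    (fun k Fk => ⟨Function.update Fk.1 k (f k Fk.1 Fk.2), hf2 k Fk.1 Fk.2⟩) k
  have hF : ∀ k, (F (k+1)).1 = Function.update (F k).1 k (f k (F k).1 (F k).2) := fun k => rfl
  let s : ℕ → α := fun k => (F (k+1)).1 k
  have hs : ∀ k j, j < k → (F k).1 j = s j := by
    intro k
    induction k with
    | zero => intro j hj; omega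
    | succ k ih =>
      intro j hj
      rcases Nat.lt_or_ge j k with h1 | h1
      · rw [hF, Function.update_of_ne (by omega)]
        exact ih j h1
      · obtain rfl : j = k := by omega
        rfl
  refine ⟨s, fun k => ⟨Ploc k _ _ (hs k) (F k).2, ?_⟩⟩
  have h1 : s k = f k (F k).1 (F k).2 := by
    show (F (k+1)).1 k = _
    rw [hF, Function.update_self]
  rw [h1]
  exact Rloc k _ _ _ (hs k) (hf1 k (F k).1 (F k).2)

open Classical in
noncomputable def mkD (c : Cut) (x : Ix → ℕ) : cutD c :=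
  if h : c.Bd x then ⟨(x : Gm), coe_mem_cutD.2 h⟩ else ⟨0, (cutD_clo c).zero⟩

lemma mkD_val {c : Cut} {x : Ix → ℕ} (h : c.Bd x) : (mkD c x).1 = (x : Gm) := by
  unfold mkD
  rw [dif_pos h]

/-- The full model on the cut. -/
noncomputable abbrev MM (c : Cut) : L2Model := gM (cutD_clo c) ∅

/-- Truth in the full model. -/
def SatM (c : Cut) (Z : ℕ → Ix → ℕ → ℕ) (φ : Fml) (ρ : ℕ → Ix → ℕ) : Prop :=
  φ.Sat (MM c) (xi (cutD_clo c) ∅ Z) (fun m => mkD c (ρ m))

/-- Evaluation of bounded formulas. -/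
def Ev' (Z : ℕ → Ix → ℕ → ℕ) (φ : Fml) (p : Ix → List ℕ) (y w : Ix → ℕ) : Prop :=
  ∀ᶠ i in (U : Filter Ix), φ.sn (xn Z i) (rh (p i) (y i) (w i))

def AnsCA (c : Cut) (Z : ℕ → Ix → ℕ → ℕ) (φ ψ : Fml) (p : Ix → List ℕ) (Zn : Ix → ℕ → ℕ) : Prop :=
  φ.Bounded → ψ.Bounded →
    (∀ y, c.Bd y → ((∃ w, c.Bd w ∧ Ev' Z φ p y w) ↔ ∀ w, c.Bd w → Ev' Z ψ p y w)) →
    ∀ y, c.Bd y → ((∀ᶠ i in (U : Filter Ix), Zn i (y i) = 1) ↔ ∃ w, c.Bd w ∧ Ev' Z φ p y w)

def AnsSRT (c : Cut) (F : Ix → ℕ → ℕ) (Zn : Ix → ℕ → ℕ) : Prop :=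
  (∀ a, c.Bd a → ∃ z, c.Bd z ∧ ∃ v : Bool, ∀ y, c.Bd y →
      (∀ᶠ i in (U : Filter Ix), a i < y i ∧ z i < y i) →
      ∀ᶠ i in (U : Filter Ix), (F i (prc (a i) (y i)) = 1 ↔ v = true)) →
  (∀ t, c.Bd t → ∃ y, c.Bd y ∧ ∀ᶠ i in (U : Filter Ix), t i ≤ y i ∧ Zn i (y i) = 1) ∧
      ∃ side : Bool, ∀ i x y, x < y → Zn i x = 1 → Zn i y = 1 → (F i (prc x y) = 1 ↔ side = true)

def AnsW (c : Cut) (Z : ℕ → Ix → ℕ → ℕ) (φ : Fml) (ρ : ℕ → Ix → ℕ) (x : ℕ) (a : Ix → ℕ) : Prop :=
  (∃ b, c.Bd b ∧ SatM c Z φ (Function.update ρ x b)) → SatM c Z φ (Function.update ρ x a)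

open Classical in
/-- The column of the tree. -/
noncomputable def Tcol (S : Setting) : Ix → ℕ → ℕ :=
  fun i y => if Tt (S.W.B i) (S.W.J i) (S.W.T i) y then 1 else 0

abbrev Item : Type := (Ix → ℕ → ℕ) × (Ix → ℕ)

abbrev STask : Type := (Fml × Fml × List ℕ × List ℕ) ⊕ ℕ

abbrev WTask : Type := Fml × List ℕ × List ℕ × ℕ

instance : Inhabited Fml := ⟨.eq .zero .zero⟩

noncomputable def fS : ℕ → STask := (exists_surjective_nat STask).choose

lemma fS_surj : Function.Surjective fS := (exists_surjective_nat STask).choose_spec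

noncomputable def fW : ℕ → WTask := (exists_surjective_nat WTask).choose

lemma fW_surj : Function.Surjective fW := (exists_surjective_nat WTask).choose_spec

/-- Parameters. -/
def parF (s : ℕ → Item) (r : List ℕ) : Ix → List ℕ := fun i => r.map (fun m => (s m).2 i)

def parR (s : ℕ → Item) (r : List ℕ) : ℕ → Ix → ℕ :=
  fun m => (r.map (fun m => (s m).2)).getD m (fun _ => 0)

def parZ (s : ℕ → Item) (e : List ℕ) : ℕ → Ix → ℕ → ℕ := fun m => (s (e.getD m 0)).1

def RS (c : Cut) (k : ℕ) (s : ℕ → Item) (Zn : Ix → ℕ → ℕ) : STask → Prop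
  | .inl (φ, ψ, e, r) => (∀ j ∈ e, j < k) → (∀ j ∈ r, j < k) →
      AnsCA c (parZ s e) φ ψ (parF s r) Zn
  | .inr j => j < k → AnsSRT c (s j).1 Zn

def RW (c : Cut) (k : ℕ) (s : ℕ → Item) (a : Ix → ℕ) : WTask → Prop
  | (φ, e, r, x) => (∀ j ∈ e, j < k) → (∀ j ∈ r, j < k) →
      AnsW c (parZ s e) φ (parR s r) x a

lemma parF_congr {s s' : ℕ → Item} {k : ℕ} (h : ∀ j < k, s j = s' j) {r : List ℕ}
    (hr : ∀ j ∈ r, j < k) : parF s r = parF s' r := by
  funext i
  unfold parF
  apply List.map_congr_left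
  intro m hm
  rw [h m (hr m hm)]

lemma parR_congr {s s' : ℕ → Item} {k : ℕ} (h : ∀ j < k, s j = s' j) {r : List ℕ}
    (hr : ∀ j ∈ r, j < k) : parR s r = parR s' r := by
  funext m
  unfold parR
  have : r.map (fun m => (s m).2) = r.map (fun m => (s' m).2) := by
    apply List.map_congr_left
    intro m hm
    rw [h m (hr m hm)]
  rw [this]

lemma parZ_congr {s s' : ℕ → Item} {k : ℕ} (hk : 0 < k) (h : ∀ j < k, s j = s' j) {e : List ℕ}
    (he : ∀ j ∈ e, j < k) : parZ s e = parZ s' e := by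
  funext m
  unfold parZ
  rw [h]
  rw [List.getD_eq_getElem?_getD]
  rcases h1 : e[m]? with _ | v
  · simpa using hk
  · simp only [Option.getD_some]
    exact he v (List.mem_of_getElem? h1)

/-- Existence of the sets and constants. -/
theorem exists_items (S : Setting) : ∃ s : ℕ → Item,
    (∀ k, Good S.W S.L (XX S.W (fun j => (s j).1) k)) ∧
    (∀ k, S.W.c.Bd (s k).2) ∧
    (s 0).1 = Tcol S ∧ (s 0).2 = (fun i => S.W.B i ^ S.W.J i) ∧
    (∀ k, 0 < k → RS S.W.c k s (s k).1 (fS (Nat.unpair k).1)) ∧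
    (∀ k, 0 < k → RW S.W.c k s (s k).2 (fW (Nat.unpair k).1)) := by
  classical
  obtain ⟨s, hs⟩ := hist_choice (α := Item)
    (fun k s => Good S.W S.L (XX S.W (fun j => (s j).1) k) ∧ ∀ j < k, S.W.c.Bd (s j).2)
    (fun k s a => S.W.c.Bd a.2 ∧ (k = 0 → a.1 = Tcol S ∧ a.2 = (fun i => S.W.B i ^ S.W.J i)) ∧
      (0 < k → RS S.W.c k s a.1 (fS (Nat.unpair k).1)) ∧
      (0 < k → RW S.W.c k s a.2 (fW (Nat.unpair k).1)))
    (fun s => ⟨S.good, fun j hj => by omega⟩)
    (by
      intro k s s' h hP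
      refine ⟨?_, fun j hj => by rw [← h j hj]; exact hP.2 j hj⟩
      rw [← XX_congr S.W (Z := fun j => (s j).1) (Z' := fun j => (s' j).1)
        (fun j hj => by rw [h j hj])]
      exact hP.1)
    (by
      intro k s s' a h hR
      refine ⟨hR.1, hR.2.1, fun hk => ?_, fun hk => ?_⟩
      · have h1 := hR.2.2.1 hk
        rcases hf : fS (Nat.unpair k).1 with ⟨φ, ψ, e, r⟩ | j
        · rw [hf] at h1
          intro he hr
          have h2 := h1 he hr
          rw [parZ_congr hk h he, parF_congr h hr] at h2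
          exact h2
        · rw [hf] at h1
          intro hj
          have h2 := h1 hj
          rw [h j hj] at h2
          exact h2
      · have h1 := hR.2.2.2 hk
        rcases hf : fW (Nat.unpair k).1 with ⟨φ, e, r, x⟩
        rw [hf] at h1
        intro he hr
        have h2 := h1 he hr
        rw [parZ_congr hk h he, parR_congr h hr] at h2
        exact h2)
    (by
      intro k s hP
      obtain ⟨hG, hB⟩ := hP
      -- it is enough to find the two components
      have hred : (∃ (Zn : Ix → ℕ → ℕ) (a : Ix → ℕ),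
          Good S.W S.L (fun i => join (XX S.W (fun j => (s j).1) k i) (Zn i)) ∧
          S.W.c.Bd a ∧ (k = 0 → Zn = Tcol S ∧ a = (fun i => S.W.B i ^ S.W.J i)) ∧
          (0 < k → RS S.W.c k s Zn (fS (Nat.unpair k).1)) ∧
          (0 < k → RW S.W.c k s a (fW (Nat.unpair k).1))) → ∃ a : Item,
          (S.W.c.Bd a.2 ∧ (k = 0 → a.1 = Tcol S ∧ a.2 = (fun i => S.W.B i ^ S.W.J i)) ∧
          (0 < k → RS S.W.c k s a.1 (fS (Nat.unpair k).1)) ∧
          (0 < k → RW S.W.c k s a.2 (fW (Nat.unpair k).1))) ∧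
          (Good S.W S.L (XX S.W (fun j => (Function.update s k a j).1) (k+1)) ∧
            ∀ j < k+1, S.W.c.Bd (Function.update s k a j).2) := by
        rintro ⟨Zn, a, h1, h2, h3, h4, h5⟩
        refine ⟨(Zn, a), ⟨h2, h3, h4, h5⟩, ?_, ?_⟩
        · have h6 : XX S.W (fun j => (Function.update s k (Zn, a) j).1) (k+1) =
              fun i => join (XX S.W (fun j => (s j).1) k i) (Zn i) := by
            simp only [XX, Function.update_self]
            rw [XX_congr S.W (Z' := fun j => (s j).1)]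
            intro j hj
            rw [Function.update_of_ne (by omega)]
          rw [h6]
          exact h1
        · intro j hj
          rcases Nat.lt_or_ge j k with h6 | h6
          · rw [Function.update_of_ne (by omega)]
            exact hB j h6
          · obtain rfl : j = k := by omega
            rw [Function.update_self]
            exact h2
      apply hred
      rcases Nat.eq_zero_or_pos k with rfl | hk
      · refine ⟨Tcol S, fun i => S.W.B i ^ S.W.J i, tT_step S, ?_, fun _ => ⟨rfl, rfl⟩,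
          fun h => by omega, fun h => by omega⟩
        exact Cut.bd_le (Cut.bd_a 0) (Eventually.of_forall S.W.K_le)
      · have hA : ∃ a : Ix → ℕ, S.W.c.Bd a ∧ RW S.W.c k s a (fW (Nat.unpair k).1) := by
          rcases hf : fW (Nat.unpair k).1 with ⟨φ, e, r, x⟩
          by_cases hex : ∃ b, S.W.c.Bd b ∧
              SatM S.W.c (parZ s e) φ (Function.update (parR s r) x b)
          · obtain ⟨b, hb1, hb2⟩ := hex
            exact ⟨b, hb1, fun _ _ _ => hb2⟩
          · exact ⟨fun _ => 0, Cut.bd_const 0, fun _ _ h => absurd h hex⟩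
        have hZ : ∃ Zn : Ix → ℕ → ℕ,
            Good S.W S.L (fun i => join (XX S.W (fun j => (s j).1) k i) (Zn i)) ∧
            RS S.W.c k s Zn (fS (Nat.unpair k).1) := by
          have htriv : ∃ Zn : Ix → ℕ → ℕ,
              Good S.W S.L (fun i => join (XX S.W (fun j => (s j).1) k i) (Zn i)) := by
            obtain ⟨Zn, h1, _⟩ := ca_step S (fun j => (s j).1) k hG hk (.eq .zero .one)
              (.eq .zero .one) trivial trivial [] (by simp) (fun _ => []) (Cut.bd_const _) (by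
                intro y hy
                have h2 : ∀ w, ¬ Ev (fun j => (s j).1) [] (.eq .zero .one) (fun _ => []) y w := by
                  intro w h3
                  obtain ⟨i, hi⟩ := h3.exists
                  simp [Fml.sn, Trm.vn] at hi
                constructor
                · rintro ⟨w, _, h3⟩
                  exact absurd h3 (h2 w)
                · intro h3
                  exact absurd (h3 _ (Cut.bd_const 0)) (h2 _))
            exact ⟨Zn, h1⟩
          rcases hf : fS (Nat.unpair k).1 with ⟨φ, ψ, e, r⟩ | j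
          · by_cases happ : (∀ j ∈ e, j < k) ∧ (∀ j ∈ r, j < k) ∧ φ.Bounded ∧ ψ.Bounded ∧
              (∀ y, S.W.c.Bd y → ((∃ w, S.W.c.Bd w ∧ Ev' (parZ s e) φ (parF s r) y w) ↔
                ∀ w, S.W.c.Bd w → Ev' (parZ s e) ψ (parF s r) y w))
            · obtain ⟨he, hr, hφ, hψ, hyp⟩ := happ
              have hp : S.W.c.Bd (parF s r) := by
                clear hf hyp
                induction r with
                | nil => exact Cut.bd_const _
                | cons m r ih =>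
                  have h1 := ih (fun j hj => hr j (List.mem_cons_of_mem _ hj))
                  have h2 := hB m (hr m List.mem_cons_self)
                  exact Cut.bd_map₂ (fun (a : ℕ) (l : List ℕ) => a :: l) h2 h1
              obtain ⟨Zn, h1, h2⟩ := ca_step S (fun j => (s j).1) k hG hk φ ψ hφ hψ e he
                (parF s r) hp hyp
              exact ⟨Zn, h1, fun _ _ _ _ _ => h2⟩
            · obtain ⟨Zn, h1⟩ := htriv
              refine ⟨Zn, h1, fun he hr hφ hψ hyp => ?_⟩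
              exact absurd ⟨he, hr, hφ, hψ, hyp⟩ happ
          · by_cases happ : j < k ∧ (∀ a, S.W.c.Bd a → ∃ z, S.W.c.Bd z ∧ ∃ v : Bool,
              ∀ y, S.W.c.Bd y → (∀ᶠ i in (U : Filter Ix), a i < y i ∧ z i < y i) →
              ∀ᶠ i in (U : Filter Ix), ((s j).1 i (prc (a i) (y i)) = 1 ↔ v = true))
            · obtain ⟨Zn, h1, h2⟩ := srt_step S (fun j => (s j).1) k j happ.1 hG happ.2
              exact ⟨Zn, h1, fun _ _ => h2⟩
            · obtain ⟨Zn, h1⟩ := htriv
              exact ⟨Zn, h1, fun hj hyp => absurd ⟨hj, hyp⟩ happ⟩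
        obtain ⟨a, ha1, ha2⟩ := hA
        obtain ⟨Zn, hZ1, hZ2⟩ := hZ
        exact ⟨Zn, a, hZ1, ha1, fun h => by omega, fun _ => hZ2, fun _ => ha2⟩)
  refine ⟨s, fun k => (hs k).1.1, fun k => (hs k).2.1, ((hs 0).2.2.1 rfl).1, ((hs 0).2.2.1 rfl).2,
    fun k hk => (hs k).2.2.2.1 hk, fun k hk => (hs k).2.2.2.2 hk⟩

end Run7.h231
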