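import Pool.Agent.Run7.h231.GStep2

/-! Consequences of meeting the base processes; pulled oracles. -/

namespace Run7.h231

open Filter

noncomputable def pullPr (u : PullFn) (G : ℕ → PQ ℕ) (n : ℕ) : Pr :=
  ⟨u.P × ℕ, inferInstance, pull u (G n)⟩

theorem good_pull {W : World} {L : ℕ → Pr} {X : Ix → ℕ → ℕ} (hX : Good W L X) (u : PullFn)
    (p : Ix → u.P) (hp : W.c.Bd p) (hu : ∀ n, ∃ m, L m = pullPr u (gam L) n)
    (htot : ∀ m, W.c.Bd m → ∃ r, W.c.Bd r ∧ ∀ᶠ i in (U : Filter Ix),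
      ∀ y < m i, u.Dec (p i) (r i) (X i) y) :
    Good W L (fun i => u.fin (p i) (X i)) := by
  intro n e he
  refine ⟨n, le_rfl, e, he, Eventually.of_forall fun i => le_rfl, ?_⟩
  obtain ⟨d, s, b, hs, hb, hI, hact⟩ := hX.proc' (hu n) (fun i => (p i, e i)) (Cut.bd_prod hp he)
  refine ⟨d, s, b, hs, hb, ?_, ?_⟩
  · filter_upwards [hI] with i h1
    refine ⟨h1.1, ?_⟩
    refine (gam L n).inv_mono _ _ _ _ _ _ _ _ _ u.len_le ?_ (fun _ _ h => h) h1.2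
    intro y hy
    exact (u.fin_eq (u.dec_len hy)).symm
  · intro t ht
    obtain ⟨r, hr, hr'⟩ := htot t ht
    have hbd : W.c.Bd (fun i => max (t i) (r i)) := Cut.bd_map₂ (fun x y : ℕ => max x y) ht hr
    filter_upwards [hact _ hbd, hr'] with i h1 h2 h3
    have hdec : ∀ y < t i, u.Dec (p i) (max (t i) (r i)) (X i) y := fun y hy =>
      u.dec_mono (le_max_right _ _) (fun _ _ => rfl) (h2 y hy)
    have h4 := pull_act_none (h1 (h3.trans (le_max_left _ _))) (t i) h3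
      (u.le_len (le_max_left _ _) hdec)
    rw [← h4]
    apply (gam L n).act_local
    intro y hy
    exact u.fin_eq (hdec y hy)

lemma unif {c : Cut} (D : Ix → ℕ → ℕ → Prop) (hmono : ∀ i y r r', r ≤ r' → D i y r → D i y r')
    (h : ∀ y, c.Bd y → ∃ r, c.Bd r ∧ ∀ᶠ i in (U : Filter Ix), D i (y i) (r i)) :
    ∀ m, c.Bd m → ∃ r, c.Bd r ∧ ∀ᶠ i in (U : Filter Ix), ∀ y < m i, D i y (r i) := by
  intro m hm
  by_contra hcon
  have h1 : ∀ k, ∀ᶠ i in (U : Filter Ix), ∃ y, y < m i ∧ ¬ D i y (c.a k i) := by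
    intro k
    have h2 : ¬ ∀ᶠ i in (U : Filter Ix), ∀ y < m i, D i y (c.a k i) := fun h3 =>
      hcon ⟨c.a k, Cut.bd_a k, h3⟩
    rw [← Ultrafilter.eventually_not] at h2
    filter_upwards [h2] with i h3
    by_contra h4
    apply h3
    intro y hy
    by_contra h5
    exact h4 ⟨y, hy, h5⟩
  obtain ⟨y, hy⟩ := saturate (fun k i y => y < m i ∧ ¬ D i y (c.a k i)) (by
    intro k
    filter_upwards [h1 k] with i h2
    obtain ⟨y, h3, h4⟩ := h2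
    exact ⟨y, fun j hj => ⟨h3, fun h5 => h4 (hmono i y _ _ (c.mono' hj i) h5)⟩⟩)
  have hybd : c.Bd y := Cut.bd_le hm (by
    filter_upwards [hy 0] with i h2
    exact h2.1.le)
  obtain ⟨r, hr, hr'⟩ := h y hybd
  obtain ⟨k, hk⟩ := Cut.bd_nat.1 hr
  obtain ⟨i, h2, h3, h4⟩ := (hr'.and (hk.and (hy k))).exists
  exact h4.2 (hmono i _ _ _ h3 h2)

theorem sig_spec {W : World} {u : SigFn} {q : Ix → u.P × ℕ} {X : Ix → ℕ → ℕ}
    (h : PP W (sig u) q X) : ∃ (D : Ix → Finset ℕ) (b : Ix → ℕ), W.c.Bd D ∧ W.c.Bd b ∧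
      (∀ᶠ i in (U : Filter Ix), ∀ y ∈ D i, y < (q i).2 ∧ u.Hit (q i).1 y (b i) (X i)) ∧
      ∀ t, W.c.Bd t → ∀ᶠ i in (U : Filter Ix), ∀ y < (q i).2,
        u.Hit (q i).1 y (t i) (X i) → y ∈ D i := by
  obtain ⟨d, s, b, hs, hb, hI, hact⟩ := h
  refine ⟨fun i => (s i).1, b, Cut.bd_map (fun p : Finset ℕ × ℕ => p.1) hs, hb, ?_, ?_⟩
  · filter_upwards [hI] with i h1
    exact h1.2.1
  · intro t ht
    have hbd : W.c.Bd (fun i => max (b i) (t i)) := Cut.bd_map₂ (fun x y : ℕ => max x y) hb ht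
    filter_upwards [hact _ hbd, hI] with i h1 h2 y hy hh
    exact sig_act_none (h1 (le_max_left _ _)) h2.2 y hy
      (u.hit_mono (le_max_right _ _) (fun _ _ => rfl) hh)

theorem avoid_spec {W : World} {β : ℕ → Prop} {X : Ix → ℕ → ℕ}
    (h : PP W (avoid β) (fun _ => ()) X)
    (hunb : ∀ t, W.c.Bd t → ∃ y, W.c.Bd y ∧ ∀ᶠ i in (U : Filter Ix), t i ≤ y i ∧ β (X i (y i))) :
    ∃ (d y y' l l' b : Ix → ℕ), W.c.Bd b ∧ ∀ᶠ i in (U : Filter Ix), y i < b i ∧ y' i < b i ∧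
      β (X i (y i)) ∧ β (X i (y' i)) ∧ Lab (W.T i) (b i) (d i) (y i) (l i) ∧
      Lab (W.T i) (b i) (d i) (y' i) (l' i) ∧ l i ≠ l' i := by
  obtain ⟨d, s, b, hs, hb, hI, hact⟩ := h
  obtain ⟨y, hy, hy'⟩ := hunb b hb
  have hbd : W.c.Bd (fun i => y i + 1) := Cut.bd_map (fun x : ℕ => x + 1) hy
  refine ⟨d, fun i => (s i).2.1.1, fun i => (s i).2.2.1, fun i => (s i).2.1.2,
    fun i => (s i).2.2.2, b, hb, ?_⟩
  filter_upwards [hI, hy', hact _ hbd] with i h1 h2 h3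
  have h4 := h3 (by omega)
  have h5 : (s i).1 = 0 := by
    by_contra hcon
    have h6 : (s i).1 ≤ 2 := h1.2.1
    exact avoid_act_none h4 (by omega) (y i) h2.1 (by omega) h2.2
  obtain ⟨h6, h7, h8, h9, h10, h11, h12⟩ := h1.2.2.2 h5
  exact ⟨h6, h9, h7, h10, h8, h11, h12.symm⟩

end Run7.h231
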