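import Pool.Agent.Run7.h231.Basic

/-! Processes and their combinators. -/

namespace Run7.h231

open Filter

/-- A process with parameters in `Q`. -/
structure PQ (Q : Type) where
  S : Type
  cS : Countable S
  v : ℕ
  thr : Q → ℕ
  init : Q → S
  act : ℕ → Q → S → ℕ → ℕ → (ℕ → ℕ) → Option (Finset ℕ)
  next : ℕ → Q → S → ℕ → ℕ → (ℕ → ℕ) → ℕ → S
  rel : S → S → Prop
  wf : WellFounded rel
  Inv : ℕ → Q → S → ℕ → (ℕ → ℕ) → (ℕ → ℕ → Prop) → Prop
  act_local : ∀ B q s b t x x', (∀ y < t, x y = x' y) → act B q s b t x = act B q s b t x'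
  act_card : ∀ B q s b t x V, act B q s b t x = some V → V.card ≤ v
  dec : ∀ B q s b t x V l, act B q s b t x = some V → l < B → l ∉ V →
    rel (next B q s b t x l) s
  inv_init : ∀ B q t x Λ, Inv B q (init q) t x Λ
  inv_mono : ∀ B q s t t' x x' (Λ Λ' : ℕ → ℕ → Prop), t ≤ t' → (∀ y < t, x y = x' y) →
    (∀ y l, Λ y l → Λ' y l) → Inv B q s t x Λ → Inv B q s t' x' Λ'
  inv_next : ∀ B q s t₀ b t x Λ V l, t₀ ≤ b → thr q ≤ b → b ≤ t → Inv B q s t₀ x Λ →
    act B q s b t x = some V → l < B → l ∉ V → (∀ y, b ≤ y → y < t → Λ y l) →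
    Inv B q (next B q s b t x l) t x Λ

attribute [instance] PQ.cS

/-- Parallel composition. -/
def par {Q : Type} (A A' : PQ Q) : PQ Q where
  S := A.S × A'.S
  cS := inferInstance
  v := max A.v A'.v
  thr q := max (A.thr q) (A'.thr q)
  init q := (A.init q, A'.init q)
  act B q s b t x := if (A.act B q s.1 b t x).isSome = true then A.act B q s.1 b t x
    else A'.act B q s.2 b t x
  next B q s b t x l := if (A.act B q s.1 b t x).isSome = true then (A.next B q s.1 b t x l, s.2)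
    else (s.1, A'.next B q s.2 b t x l)
  rel := Prod.GameAdd A.rel A'.rel
  wf := A.wf.prod_gameAdd A'.wf
  Inv B q s t x Λ := A.Inv B q s.1 t x Λ ∧ A'.Inv B q s.2 t x Λ
  act_local B q s b t x x' h := by
    rw [A.act_local B q s.1 b t x x' h, A'.act_local B q s.2 b t x x' h]
  act_card B q s b t x V h := by
    split_ifs at h with h1
    · exact (A.act_card B q s.1 b t x V h).trans (le_max_left _ _)
    · exact (A'.act_card B q s.2 b t x V h).trans (le_max_right _ _)
  dec B q s b t x V l h hl hV := by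
    split_ifs at h with h1
    · rw [if_pos h1]
      exact Prod.GameAdd.fst (A.dec B q s.1 b t x V l h hl hV)
    · rw [if_neg h1]
      exact Prod.GameAdd.snd (A'.dec B q s.2 b t x V l h hl hV)
  inv_init B q t x Λ := ⟨A.inv_init B q t x Λ, A'.inv_init B q t x Λ⟩
  inv_mono B q s t t' x x' Λ Λ' h1 h2 h3 h4 :=
    ⟨A.inv_mono B q s.1 t t' x x' Λ Λ' h1 h2 h3 h4.1, A'.inv_mono B q s.2 t t' x x' Λ Λ' h1 h2 h3 h4.2⟩
  inv_next B q s t₀ b t x Λ V l h1 h2 h3 h4 h5 h6 h7 h8 := by
    split_ifs at h5 with h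
    · rw [if_pos h]
      refine ⟨A.inv_next B q s.1 t₀ b t x Λ V l h1 ((le_max_left _ _).trans h2) h3 h4.1 h5 h6 h7 h8, ?_⟩
      exact A'.inv_mono B q s.2 t₀ t x x Λ Λ (h1.trans h3) (fun _ _ => rfl) (fun _ _ h => h) h4.2
    · rw [if_neg h]
      refine ⟨?_, A'.inv_next B q s.2 t₀ b t x Λ V l h1 ((le_max_right _ _).trans h2) h3 h4.2 h5 h6 h7 h8⟩
      exact A.inv_mono B q s.1 t₀ t x x Λ Λ (h1.trans h3) (fun _ _ => rfl) (fun _ _ h => h) h4.1

lemma par_act_none {Q : Type} {A A' : PQ Q} {B q s b t x} (h : (par A A').act B q s b t x = none) :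
    A.act B q s.1 b t x = none ∧ A'.act B q s.2 b t x = none := by
  unfold par at h
  simp only at h
  split_ifs at h with h1
  · rw [h] at h1
    simp at h1
  · refine ⟨?_, h⟩
    simpa using h1

/-- Bags of elementary processes. -/
structure Bag (Q : Type) where
  E : Type
  cE : Countable E
  W : Type
  v : ℕ
  thr : Q → ℕ
  init : Q → Multiset E
  act : ℕ → Q → E → ℕ → ℕ → (ℕ → ℕ) → Option (Finset ℕ)
  next : ℕ → Q → E → ℕ → ℕ → (ℕ → ℕ) → ℕ → Multiset E
  rel : E → E → Prop
  wf : WellFounded rel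
  Inv : ℕ → Q → E → ℕ → (ℕ → ℕ) → (ℕ → ℕ → Prop) → Prop
  Valid : ℕ → Q → W → ℕ → (ℕ → ℕ) → Prop
  Fits : E → W → Prop
  act_local : ∀ B q e b t x x', (∀ y < t, x y = x' y) → act B q e b t x = act B q e b t x'
  act_card : ∀ B q e b t x V, act B q e b t x = some V → V.card ≤ v
  dec : ∀ B q e b t x V l, act B q e b t x = some V → l < B → l ∉ V →
    ∀ e' ∈ next B q e b t x l, rel e' e
  inv_init : ∀ B q t x Λ, ∀ e ∈ init q, Inv B q e t x Λ
  fits_init : ∀ B q w t x, Valid B q w t x → ∃ e ∈ init q, Fits e w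
  inv_mono : ∀ B q e t t' x x' (Λ Λ' : ℕ → ℕ → Prop), t ≤ t' → (∀ y < t, x y = x' y) →
    (∀ y l, Λ y l → Λ' y l) → Inv B q e t x Λ → Inv B q e t' x' Λ'
  valid_anti : ∀ B q w t t' x x', t ≤ t' → (∀ y < t, x y = x' y) →
    Valid B q w t' x' → Valid B q w t x
  inv_next : ∀ B q e t₀ b t x Λ V l, t₀ ≤ b → thr q ≤ b → b ≤ t → Inv B q e t₀ x Λ →
    act B q e b t x = some V → l < B → l ∉ V → (∀ y, b ≤ y → y < t → Λ y l) →
    ∀ e' ∈ next B q e b t x l, Inv B q e' t x Λ
  fits_next : ∀ B q e t₀ b t x Λ V l, t₀ ≤ b → thr q ≤ b → b ≤ t → Inv B q e t₀ x Λ →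
    act B q e b t x = some V → l < B → l ∉ V →
    ∀ w, Fits e w → Valid B q w t x → ∃ e' ∈ next B q e b t x l, Fits e' w

attribute [instance] Bag.cE

open Classical in
/-- Choice of an acting element. -/
noncomputable def bagAct {E : Type} (S : Multiset E) (f : E → Option (Finset ℕ)) :
    Option (Finset ℕ) :=
  if h : ∃ e, e ∈ S ∧ (f e).isSome = true then f h.choose else none

open Classical in
noncomputable def bagNext {E : Type} (S : Multiset E) (f : E → Option (Finset ℕ))
    (g : E → Multiset E) : Multiset E :=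
  if h : ∃ e, e ∈ S ∧ (f e).isSome = true then S.erase h.choose + g h.choose else S

lemma bagAct_some {E : Type} {S : Multiset E} {f : E → Option (Finset ℕ)} {V : Finset ℕ}
    (h : bagAct S f = some V) : ∃ e ∈ S, f e = some V ∧
      ∀ g : E → Multiset E, ∃ R : Multiset E, S = e ::ₘ R ∧ bagNext S f g = R + g e := by
  classical
  unfold bagAct at h
  split_ifs at h with h1
  refine ⟨h1.choose, h1.choose_spec.1, h, fun g => ⟨S.erase h1.choose, ?_, ?_⟩⟩
  · exact (Multiset.cons_erase h1.choose_spec.1).symm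
  · unfold bagNext
    rw [dif_pos h1]

lemma bagAct_none {E : Type} {S : Multiset E} {f : E → Option (Finset ℕ)}
    (h : bagAct S f = none) : ∀ e ∈ S, f e = none := by
  classical
  unfold bagAct at h
  intro e he
  split_ifs at h with h1
  · have := h1.choose_spec.2
    rw [h] at this
    simp at this
  · by_contra hcon
    exact h1 ⟨e, he, Option.isSome_iff_ne_none.2 hcon⟩

/-- The process of a bag. -/
noncomputable def Bag.toPQ {Q : Type} (A : Bag Q) : PQ Q where
  S := Multiset A.E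
  cS := Quotient.countable
  v := A.v
  thr := A.thr
  init := A.init
  act B q S b t x := bagAct S (fun e => A.act B q e b t x)
  next B q S b t x l := bagNext S (fun e => A.act B q e b t x) (fun e => A.next B q e b t x l)
  rel := Relation.CutExpand A.rel
  wf := A.wf.cutExpand
  Inv B q S t x Λ := (∀ e ∈ S, A.Inv B q e t x Λ) ∧
    ∀ w, A.Valid B q w t x → ∃ e ∈ S, A.Fits e w
  act_local B q S b t x x' h := by
    have : (fun e => A.act B q e b t x) = fun e => A.act B q e b t x' :=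
      funext fun e => A.act_local B q e b t x x' h
    rw [this]
  act_card B q S b t x V h := by
    obtain ⟨e, _, he, _⟩ := bagAct_some h
    exact A.act_card _ _ _ _ _ _ _ he
  dec B q S b t x V l h hl hV := by
    obtain ⟨e, _, he, hg⟩ := bagAct_some h
    obtain ⟨R, h1, h2⟩ := hg (fun e => A.next B q e b t x l)
    refine ⟨A.next B q e b t x l, e, A.dec _ _ _ _ _ _ _ _ he hl hV, ?_⟩
    rw [h2, h1, ← Multiset.singleton_add]
    abel
  inv_init B q t x Λ := ⟨A.inv_init B q t x Λ, fun w hw => A.fits_init B q w t x hw⟩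
  inv_mono B q S t t' x x' Λ Λ' h1 h2 h3 h4 := by
    refine ⟨fun e he => A.inv_mono B q e t t' x x' Λ Λ' h1 h2 h3 (h4.1 e he), fun w hw => ?_⟩
    exact h4.2 w (A.valid_anti B q w t t' x x' h1 h2 hw)
  inv_next B q S t₀ b t x Λ V l h1 h2 h3 h4 h5 h6 h7 h8 := by
    obtain ⟨e, heS, he, hg⟩ := bagAct_some h5
    obtain ⟨R, h9, h10⟩ := hg (fun e => A.next B q e b t x l)
    rw [h10]
    constructor
    · intro e' he'
      rcases Multiset.mem_add.1 he' with h | h
      · refine A.inv_mono B q e' t₀ t x x Λ Λ (h1.trans h3) (fun _ _ => rfl) (fun _ _ h => h) ?_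
        exact h4.1 e' (by rw [h9]; exact Multiset.mem_cons_of_mem h)
      · exact A.inv_next B q e t₀ b t x Λ V l h1 h2 h3 (h4.1 e heS) he h6 h7 h8 e' h
    · intro w hw
      obtain ⟨e', he', hf⟩ := h4.2 w (A.valid_anti B q w t₀ t x x (h1.trans h3) (fun _ _ => rfl) hw)
      rw [h9] at he'
      rcases Multiset.mem_cons.1 he' with h | h
      · subst h
        obtain ⟨e'', he'', hf'⟩ := A.fits_next B q e' t₀ b t x Λ V l h1 h2 h3 (h4.1 e' heS) he h6 h7 w hf hw
        exact ⟨e'', Multiset.mem_add.2 (Or.inr he''), hf'⟩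
      · exact ⟨e', Multiset.mem_add.2 (Or.inl h), hf⟩

/-- All parameters with code at most `c` simultaneously. -/
noncomputable def repBag {Q : Type} [Countable Q] (A : PQ Q) : Bag ℕ where
  E := Q × A.S
  cE := inferInstance
  W := Q
  v := A.v
  thr c := (finite_enc_le (α := Q) c).toFinset.sup A.thr
  init c := (finite_enc_le (α := Q) c).toFinset.val.map (fun q => (q, A.init q))
  act B _ e b t x := A.act B e.1 e.2 b t x
  next B _ e b t x l := {(e.1, A.next B e.1 e.2 b t x l)}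
  rel := InvImage A.rel Prod.snd
  wf := InvImage.wf _ A.wf
  Inv B c e t x Λ := enc e.1 ≤ c ∧ A.Inv B e.1 e.2 t x Λ
  Valid _ c q _ _ := enc q ≤ c
  Fits e q := e.1 = q
  act_local B q e b t x x' h := A.act_local B e.1 e.2 b t x x' h
  act_card B q e b t x V h := A.act_card B e.1 e.2 b t x V h
  dec B q e b t x V l h hl hV e' he' := by
    rw [Multiset.mem_singleton] at he'
    subst he'
    exact A.dec B e.1 e.2 b t x V l h hl hV
  inv_init B c t x Λ e he := by
    rw [Multiset.mem_map] at he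
    obtain ⟨q, hq, rfl⟩ := he
    refine ⟨?_, A.inv_init B q t x Λ⟩
    simpa using hq
  fits_init B c w t x hw := by
    refine ⟨(w, A.init w), ?_, rfl⟩
    rw [Multiset.mem_map]
    exact ⟨w, by simpa using hw, rfl⟩
  inv_mono B q e t t' x x' Λ Λ' h1 h2 h3 h4 :=
    ⟨h4.1, A.inv_mono B e.1 e.2 t t' x x' Λ Λ' h1 h2 h3 h4.2⟩
  valid_anti _ _ _ _ _ _ _ _ _ h := h
  inv_next B c e t₀ b t x Λ V l h1 h2 h3 h4 h5 h6 h7 h8 e' he' := by
    rw [Multiset.mem_singleton] at he'
    subst he'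
    refine ⟨h4.1, A.inv_next B e.1 e.2 t₀ b t x Λ V l h1 (le_trans ?_ h2) h3 h4.2 h5 h6 h7 h8⟩
    exact Finset.le_sup (f := A.thr) (by simpa using h4.1)
  fits_next B c e t₀ b t x Λ V l h1 h2 h3 h4 h5 h6 h7 w hw hv :=
    ⟨_, Multiset.mem_singleton_self _, hw⟩

noncomputable def rep {Q : Type} [Countable Q] (A : PQ Q) : PQ ℕ := (repBag A).toPQ

/-- `A` can be extracted from `G`. -/
def Sub {Q : Type} [Countable Q] (G : PQ ℕ) (A : PQ Q) : Prop :=
  ∃ comp : G.S → Q → A.S, ∀ B c s q, enc q ≤ c → A.thr q ≤ G.thr c ∧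
    ∀ t x Λ, G.Inv B c s t x Λ → A.Inv B q (comp s q) t x Λ ∧
      ∀ b t' x', G.act B c s b t' x' = none → A.act B q (comp s q) b t' x' = none

open Classical in
noncomputable def repComp {Q : Type} (A : PQ Q) (S : Multiset (Q × A.S)) (q : Q) : A.S :=
  if h : ∃ s, (q, s) ∈ S then h.choose else A.init q

lemma repComp_mem {Q : Type} (A : PQ Q) (S : Multiset (Q × A.S)) (q : Q)
    (h : ∃ s, (q, s) ∈ S) : (q, repComp A S q) ∈ S := by
  unfold repComp
  rw [dif_pos h]
  exact h.choose_spec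

lemma rep_sub {Q : Type} [Countable Q] (A : PQ Q) : Sub (rep A) A := by
  refine ⟨fun S q => repComp A S q, ?_⟩
  intro B c S q hq
  refine ⟨Finset.le_sup (f := A.thr) (by simpa using hq), ?_⟩
  intro t x Λ hI
  obtain ⟨e, he, heq⟩ := hI.2 q hq
  have hmem := repComp_mem A S q ⟨e.2, by
    have h1 : e.1 = q := heq
    rw [← h1]
    exact he⟩
  refine ⟨(hI.1 _ hmem).2, fun b t' x' hn => ?_⟩
  exact bagAct_none hn _ hmem

lemma par_sub_left {Q : Type} [Countable Q] {G G' : PQ ℕ} {A : PQ Q} (h : Sub G A) :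
    Sub (par G G') A := by
  obtain ⟨comp, hc⟩ := h
  refine ⟨fun s q => comp s.1 q, fun B c s q hq => ?_⟩
  obtain ⟨h1, h2⟩ := hc B c s.1 q hq
  refine ⟨h1.trans (le_max_left _ _), fun t x Λ hI => ?_⟩
  obtain ⟨h3, h4⟩ := h2 t x Λ hI.1
  exact ⟨h3, fun b t' x' hn => h4 b t' x' (par_act_none hn).1⟩

lemma par_sub_right {Q : Type} [Countable Q] {G G' : PQ ℕ} {A : PQ Q} (h : Sub G' A) :
    Sub (par G G') A := by
  obtain ⟨comp, hc⟩ := h
  refine ⟨fun s q => comp s.2 q, fun B c s q hq => ?_⟩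
  obtain ⟨h1, h2⟩ := hc B c s.2 q hq
  refine ⟨h1.trans (le_max_right _ _), fun t x Λ hI => ?_⟩
  obtain ⟨h3, h4⟩ := h2 t x Λ hI.2
  exact ⟨h3, fun b t' x' hn => h4 b t' x' (par_act_none hn).2⟩

/-- Bundled processes. -/
structure Pr where
  Q : Type
  cQ : Countable Q
  proc : PQ Q

attribute [instance] Pr.cQ

noncomputable def Pr.rep (A : Pr) : PQ ℕ := Run7.h231.rep A.proc

/-- The first `n+1` processes in parallel. -/
noncomputable def gam (L : ℕ → Pr) : ℕ → PQ ℕ
  | 0 => (L 0).rep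
  | n+1 => par (L (n+1)).rep (gam L n)

lemma gam_sub (L : ℕ → Pr) {m n : ℕ} (h : m ≤ n) : Sub (gam L n) (L m).proc := by
  induction n with
  | zero =>
    obtain rfl : m = 0 := by omega
    exact rep_sub _
  | succ n ih =>
    rcases Nat.lt_or_ge m (n+1) with h1 | h1
    · exact par_sub_right (ih (by omega))
    · obtain rfl : m = n+1 := by omega
      exact par_sub_left (rep_sub _)

lemma gam_congr {L L' : ℕ → Pr} {n : ℕ} (h : ∀ j ≤ n, L j = L' j) : gam L n = gam L' n := by
  induction n with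
  | zero => simp only [gam]; rw [h 0 le_rfl]
  | succ n ih =>
    simp only [gam]
    rw [h (n+1) le_rfl, ih (fun j hj => h j (by omega))]

/-- Closing a sequence of processes under countably many operations. -/
lemma exists_closed (dummy : Pr) (op : ℕ → (ℕ → Pr) → ℕ → Pr)
    (hloc : ∀ k L L' n, (∀ j ≤ n, L j = L' j) → op k L n = op k L' n) :
    ∃ L : ℕ → Pr, L 0 = dummy ∧ ∀ k n, ∃ m, L m = op k L n := by
  let F : ℕ → (ℕ → Pr) := fun m => Nat.rec (fun _ => dummy)
    (fun m Fm => Function.update Fm (m+1) (op (Nat.unpair m).1 Fm (Nat.unpair m).2)) m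
  have hF : ∀ m, F (m+1) = Function.update (F m) (m+1) (op (Nat.unpair m).1 (F m) (Nat.unpair m).2) :=
    fun m => rfl
  have hst : ∀ m j, j ≤ m → F m j = F j j := by
    intro m
    induction m with
    | zero =>
      intro j hj
      obtain rfl : j = 0 := by omega
      rfl
    | succ m ih =>
      intro j hj
      rcases Nat.lt_or_ge j (m+1) with h1 | h1
      · rw [hF, Function.update_of_ne (by omega)]
        exact ih j (by omega)
      · obtain rfl : j = m+1 := by omega
        rfl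
  refine ⟨fun m => F m m, rfl, fun k n => ⟨Nat.pair k n + 1, ?_⟩⟩
  simp only [hF, Function.update_self, Nat.unpair_pair]
  apply hloc
  intro j hj
  have : n ≤ Nat.pair k n := Nat.right_le_pair k n
  exact hst _ j (by omega)

end Run7.h231
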