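import Pool.Agent.Run7.h231.Steps

/-! Homogeneous sets for stable colourings. -/

namespace Run7.h231

open Filter

lemma thin_prop {k j : ℕ} {side : Bool} {x : ℕ → ℕ} {n : ℕ} : ∀ y ∈ thin k j side x n,
    (Nat.unpair (x y)).2 = 1 ∧ ∀ a ∈ thin k j side x n, a < y →
      (fc k j (fun z => (Nat.unpair (x z)).1) a y ↔ side = true) := by
  classical
  induction n with
  | zero => intro y hy; simp [thin] at hy
  | succ n ih =>
    intro y hy
    have hsub : ∀ y ∈ thin k j side x n, y < n := thin_sub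
    simp only [thin] at hy ⊢
    split_ifs at hy ⊢ with h
    · rcases Finset.mem_insert.1 hy with rfl | h1
      · refine ⟨h.1, fun a ha hlt => ?_⟩
        rcases Finset.mem_insert.1 ha with rfl | h2
        · omega
        · exact h.2 a h2
      · refine ⟨(ih y h1).1, fun a ha hlt => ?_⟩
        rcases Finset.mem_insert.1 ha with rfl | h2
        · have := hsub y h1
          omega
        · exact (ih y h1).2 a h2 hlt
    · exact ih y hy

theorem srt_step (S : Setting) (Z : ℕ → Ix → ℕ → ℕ) (k j : ℕ) (hj : j < k)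
    (hG : Good S.W S.L (XX S.W Z k))
    (hst : ∀ a, S.W.c.Bd a → ∃ z, S.W.c.Bd z ∧ ∃ v : Bool, ∀ y, S.W.c.Bd y →
      (∀ᶠ i in (U : Filter Ix), a i < y i ∧ z i < y i) →
      ∀ᶠ i in (U : Filter Ix), (Z j i (prc (a i) (y i)) = 1 ↔ v = true)) :
    ∃ Zn : Ix → ℕ → ℕ, Good S.W S.L (fun i => join (XX S.W Z k i) (Zn i)) ∧
      (∀ t, S.W.c.Bd t → ∃ y, S.W.c.Bd y ∧ ∀ᶠ i in (U : Filter Ix), t i ≤ y i ∧ Zn i (y i) = 1) ∧
      ∃ side : Bool, ∀ i x y, x < y → Zn i x = 1 → Zn i y = 1 →
        (Z j i (prc x y) = 1 ↔ side = true) := by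
  classical
  have hm : ∀ k' : ℕ, ∃ m, S.W.c.Bd m ∧ (∀ᶠ i in (U : Filter Ix), S.W.c.a k' i ≤ m i) ∧
      ∀ t, S.W.c.Bd t → ∀ᶠ i in (U : Filter Ix), ∀ x < S.W.c.a k' i, ∀ y, m i ≤ y → y < t i →
        (Z j i (prc x y) = 1 ↔ Z j i (prc x (m i)) = 1) :=
    fun k' => unif_stab S Z k j hj hG hst (S.W.c.a k') (Cut.bd_a k')
  choose m hmb hma hm using hm
  obtain ⟨A, hA⟩ := saturate (α := ℕ → Bool)
    (fun k' i A => ∀ x < S.W.c.a k' i, (A x = true ↔ Z j i (prc x (m k' i)) = 1)) (by
      intro k1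
      have h1 : ∀ᶠ i in (U : Filter Ix), ∀ k2 : Fin (k1+1), ∀ x < S.W.c.a k2 i,
          (Z j i (prc x (m k1 i)) = 1 ↔ Z j i (prc x (m k2 i)) = 1) := by
        rw [eventually_all]
        intro k2
        have hbd : S.W.c.Bd (fun i => max (m k1 i) (m k2 i) + 1) :=
          Cut.bd_map₂ (fun a b : ℕ => max a b + 1) (hmb k1) (hmb k2)
        filter_upwards [hm k1 _ hbd, hm k2 _ hbd] with i h2 h3 x hx
        have hx' : x < S.W.c.a k1 i := hx.trans_le (S.W.c.mono' (by omega) i)
        have h4 := h2 x hx' (max (m k1 i) (m k2 i)) (le_max_left _ _) (Nat.lt_succ_self _)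
        have h5 := h3 x hx (max (m k1 i) (m k2 i)) (le_max_right _ _) (Nat.lt_succ_self _)
        exact h4.symm.trans h5
      filter_upwards [h1] with i h2
      refine ⟨fun x => decide (Z j i (prc x (m k1 i)) = 1), fun k2 hk2 x hx => ?_⟩
      rw [decide_eq_true_iff]
      exact h2 ⟨k2, by omega⟩ x hx)
  obtain ⟨side, g, hgA, hgu, hgG⟩ := gstep S.W S.L (XX S.W Z k) hG A
    (fun n => S.hL .delta n) S.hL0
  refine ⟨fun i y => if y ∈ thin k j side (join (XX S.W Z k i) (g i)) (y+1) then 1 else 0,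
    thin_step S (XX S.W Z k) g k j side hgG, ?_, side, ?_⟩
  · intro t ht
    obtain ⟨k', hk'⟩ := Cut.bd_nat.1 ht
    obtain ⟨y, hy, hy'⟩ := hgu (m k') (hmb k')
    have hyb : S.W.c.Bd (fun i => y i + 1) := Cut.bd_map (fun a : ℕ => a + 1) hy
    have hex : ∀ᶠ i in (U : Filter Ix), ∃ z, t i ≤ z ∧ z ≤ y i ∧
        z ∈ thin k j side (join (XX S.W Z k i) (g i)) (z+1) := by
      filter_upwards [hk', hy', hm k' _ hyb, hA k', hgA t ht, hma k'] with i h1 h2 h3 h4 h5 h6
      by_cases hz : ∃ z ∈ thin k j side (join (XX S.W Z k i) (g i)) (y i), t i ≤ z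
      · obtain ⟨z, hz1, hz2⟩ := hz
        have hz3 := thin_sub z hz1
        exact ⟨z, hz2, hz3.le, (thin_mono (show z + 1 ≤ y i from hz3) (Nat.lt_succ_self z)).1 hz1⟩
      · push Not at hz
        refine ⟨y i, by omega, le_rfl, ?_⟩
        simp only [thin]
        rw [if_pos]
        · exact Finset.mem_insert_self _ _
        · refine ⟨by simp [join, h2.2], fun a ha => ?_⟩
          have h7 := hz a ha
          have h8 := (thin_prop a ha).1
          simp only [join, Nat.unpair_pair] at h8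
          have h9 := h5 a h7 h8
          have h10 := h4 a (by omega)
          have h11 := h3 a (by omega) (y i) h2.1 (Nat.lt_succ_self _)
          unfold fc
          simp only [join, Nat.unpair_pair]
          rw [col_XX S.W Z hj, h11, ← h10, h9]
    obtain ⟨z, hz⟩ := hex.choice
    refine ⟨z, Cut.bd_le hy (hz.mono fun i hi => hi.2.1), ?_⟩
    filter_upwards [hz] with i h1
    refine ⟨h1.1, ?_⟩
    rw [if_pos h1.2.2]
  · intro i x y hxy hx hy
    have hx' : x ∈ thin k j side (join (XX S.W Z k i) (g i)) (x+1) := by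
      by_contra h
      simp only [if_neg h] at hx
      omega
    have hy' : y ∈ thin k j side (join (XX S.W Z k i) (g i)) (y+1) := by
      by_contra h
      simp only [if_neg h] at hy
      omega
    have h1 : x ∈ thin k j side (join (XX S.W Z k i) (g i)) (y+1) :=
      (thin_mono (show x + 1 ≤ y + 1 by omega) (Nat.lt_succ_self x)).2 hx'
    have h2 := (thin_prop y hy').2 x h1 hxy
    unfold fc at h2
    simp only [join, Nat.unpair_pair] at h2
    rw [col_XX S.W Z hj] at h2
    exact h2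

end Run7.h231
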