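import Pool.Agent.Run7.h231.Fam

/-! The single steps of the construction of the second-order part. -/

namespace Run7.h231

open Filter

lemma PullFn.fin_spec (u : PullFn) {p : u.P} {x : ℕ → ℕ} {y t : ℕ} (h : u.Dec p t x y) :
    ∃ r, r ≤ t ∧ u.u p y r x = some (u.fin p x y) := by
  classical
  obtain ⟨r, hr, h3⟩ := h
  have hx : ∃ r, (u.u p y r x).isSome = true := ⟨r, h3⟩
  refine ⟨Nat.find hx, (Nat.find_min' hx h3).trans hr, ?_⟩
  unfold PullFn.fin
  rw [dif_pos hx]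
  obtain ⟨v, hv⟩ := Option.isSome_iff_exists.1 (Nat.find_spec hx)
  rw [hv]
  rfl

lemma rh_bd {c : Cut} {p : Ix → List ℕ} {y w : Ix → ℕ} (hp : c.Bd p) (hy : c.Bd y) (hw : c.Bd w)
    (f : (ℕ → ℕ) → ℕ) : c.Bd (fun i => f (rh (p i) (y i) (w i))) :=
  Cut.bd_map (fun q : List ℕ × ℕ × ℕ => f (rh q.1 q.2.1 q.2.2))
    (Cut.bd_prod hp (Cut.bd_prod hy hw))

/-- The value of a bounded formula at bounded arguments. -/
def Ev (Z : ℕ → Ix → ℕ → ℕ) (e : List ℕ) (φ : Fml) (p : Ix → List ℕ) (y w : Ix → ℕ) : Prop :=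
  ∀ᶠ i in (U : Filter Ix), φ.sn (xn (fun m => Z (e.getD m 0)) i) (rh (p i) (y i) (w i))

lemma pCA_fin {k : ℕ} {φ ψ : Fml} {e : List ℕ} {p : List ℕ} {t : ℕ} {x : ℕ → ℕ} {y : ℕ}
    (h : (pCA k φ ψ e).Dec p t x y) :
    ((pCA k φ ψ e).fin p x y = Nat.pair (x y) 1 ∧
      ∃ w < t, φ.sn (xs k e x) (rh p y w)) ∨
    ((pCA k φ ψ e).fin p x y = Nat.pair (x y) 0 ∧
      ∃ w < t, ¬ ψ.sn (xs k e x) (rh p y w)) := by
  classical
  obtain ⟨r, hr, h1⟩ := (pCA k φ ψ e).fin_spec h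
  have h2 : (if y < r ∧ φ.Bounded ∧ ∃ w < r, φ.bd (rh p y w) ≤ r ∧ φ.sn (xs k e x) (rh p y w)
    then some (Nat.pair (x y) 1)
    else if y < r ∧ ψ.Bounded ∧ ∃ w < r, ψ.bd (rh p y w) ≤ r ∧ ¬ ψ.sn (xs k e x) (rh p y w)
    then some (Nat.pair (x y) 0) else none) = some ((pCA k φ ψ e).fin p x y) := h1
  split_ifs at h2 with h3 h4
  · left
    obtain ⟨_, _, w, h5, _, h6⟩ := h3
    exact ⟨(Option.some.inj h2).symm, w, by omega, h6⟩
  · right
    obtain ⟨_, _, w, h5, _, h6⟩ := h4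
    exact ⟨(Option.some.inj h2).symm, w, by omega, h6⟩

theorem ca_step (S : Setting) (Z : ℕ → Ix → ℕ → ℕ) (k : ℕ) (hG : Good S.W S.L (XX S.W Z k))
    (h0 : 0 < k) (φ ψ : Fml) (hφ : φ.Bounded) (hψ : ψ.Bounded) (e : List ℕ)
    (he : ∀ j ∈ e, j < k) (p : Ix → List ℕ) (hp : S.W.c.Bd p)
    (h : ∀ y, S.W.c.Bd y → ((∃ w, S.W.c.Bd w ∧ Ev Z e φ p y w) ↔
      ∀ w, S.W.c.Bd w → Ev Z e ψ p y w)) :
    ∃ Zn : Ix → ℕ → ℕ, Good S.W S.L (fun i => join (XX S.W Z k i) (Zn i)) ∧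
      ∀ y, S.W.c.Bd y → ((∀ᶠ i in (U : Filter Ix), Zn i (y i) = 1) ↔
        ∃ w, S.W.c.Bd w ∧ Ev Z e φ p y w) := by
  classical
  set X := XX S.W Z k with hX
  have hxs : ∀ i, xs k e (X i) = xn (fun m => Z (e.getD m 0)) i := fun i => xs_XX S.W Z h0 he i
  have key : ∀ y, S.W.c.Bd y → ∃ r, S.W.c.Bd r ∧
      (∀ᶠ i in (U : Filter Ix), (pCA k φ ψ e).Dec (p i) (r i) (X i) (y i)) := by
    intro y hy
    by_cases hex : ∃ w, S.W.c.Bd w ∧ Ev Z e φ p y w
    · obtain ⟨w, hw, h1⟩ := hex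
      refine ⟨fun i => max (y i + 1) (max (w i + 1) (φ.bd (rh (p i) (y i) (w i)))), ?_, ?_⟩
      · exact Cut.bd_map₂ (fun a b : ℕ => max (a + 1) b) hy
          (Cut.bd_map₂ (fun a b : ℕ => max (a + 1) b) hw (rh_bd hp hy hw φ.bd))
      · filter_upwards [h1] with i h2
        refine ⟨_, le_rfl, ?_⟩
        have h3 : y i < max (y i + 1) (max (w i + 1) (φ.bd (rh (p i) (y i) (w i)))) ∧
          φ.Bounded ∧ ∃ w' < max (y i + 1) (max (w i + 1) (φ.bd (rh (p i) (y i) (w i)))),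
            φ.bd (rh (p i) (y i) w') ≤ max (y i + 1) (max (w i + 1) (φ.bd (rh (p i) (y i) (w i)))) ∧
            φ.sn (xs k e (X i)) (rh (p i) (y i) w') :=
          ⟨by omega, hφ, w i, by omega, by omega, by rw [hxs]; exact h2⟩
        show (ite _ _ _ : Option ℕ).isSome = true
        rw [if_pos h3]
        rfl
    · have hex' : ¬ ∀ w, S.W.c.Bd w → Ev Z e ψ p y w := fun h1 => hex ((h y hy).2 h1)
      push Not at hex'
      obtain ⟨w, hw, h1⟩ := hex'
      unfold Ev at h1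
      rw [← Ultrafilter.eventually_not] at h1
      refine ⟨fun i => max (y i + 1) (max (w i + 1) (ψ.bd (rh (p i) (y i) (w i)))), ?_, ?_⟩
      · exact Cut.bd_map₂ (fun a b : ℕ => max (a + 1) b) hy
          (Cut.bd_map₂ (fun a b : ℕ => max (a + 1) b) hw (rh_bd hp hy hw ψ.bd))
      · filter_upwards [h1] with i h2
        refine ⟨_, le_rfl, ?_⟩
        have h3 : y i < max (y i + 1) (max (w i + 1) (ψ.bd (rh (p i) (y i) (w i)))) ∧
          ψ.Bounded ∧ ∃ w' < max (y i + 1) (max (w i + 1) (ψ.bd (rh (p i) (y i) (w i)))),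
            ψ.bd (rh (p i) (y i) w') ≤ max (y i + 1) (max (w i + 1) (ψ.bd (rh (p i) (y i) (w i)))) ∧
            ¬ ψ.sn (xs k e (X i)) (rh (p i) (y i) w') :=
          ⟨by omega, hψ, w i, by omega, by omega, by rw [hxs]; exact h2⟩
        show (ite _ _ (ite _ _ _) : Option ℕ).isSome = true
        rw [if_pos h3]
        split_ifs
        · rfl
        · rfl
  have htot := unif (c := S.W.c) (fun i y r => (pCA k φ ψ e).Dec (p i) r (X i) y)
    (fun i y r r' h1 h2 => (pCA k φ ψ e).dec_mono h1 (fun _ _ => rfl) h2) key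
  have hGp := good_pull hG (pCA k φ ψ e) p hp (fun n => S.hL (.puCA k φ ψ e) n) htot
  refine ⟨fun i y => (Nat.unpair ((pCA k φ ψ e).fin (p i) (X i) y)).2, ?_, ?_⟩
  · refine hGp.congr ?_
    intro t ht
    obtain ⟨r, hr, h1⟩ := htot t ht
    filter_upwards [h1] with i h2 y hy
    show _ = Nat.pair (X i y) _
    rcases pCA_fin (h2 y hy) with ⟨h3, _⟩ | ⟨h3, _⟩
    · simp only [h3, Nat.unpair_pair]
    · simp only [h3, Nat.unpair_pair]
  · intro y hy
    obtain ⟨r, hr, h1⟩ := key y hy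
    constructor
    · intro h2
      have h3 : ∀ᶠ i in (U : Filter Ix), ∃ w, w < r i ∧
          φ.sn (xn (fun m => Z (e.getD m 0)) i) (rh (p i) (y i) w) := by
        filter_upwards [h1, h2] with i h4 h5
        rcases pCA_fin h4 with ⟨h6, w, hw, h7⟩ | ⟨h6, _⟩
        · rw [hxs] at h7
          exact ⟨w, hw, h7⟩
        · simp only [h6, Nat.unpair_pair] at h5
          simp at h5
      obtain ⟨w, hw⟩ := h3.choice
      exact ⟨w, Cut.bd_le hr (hw.mono fun i hi => hi.1.le), hw.mono fun i hi => hi.2⟩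
    · intro h2
      by_contra hcon
      rw [← Ultrafilter.eventually_not] at hcon
      have h3 : ∀ᶠ i in (U : Filter Ix), ∃ w, w < r i ∧
          ¬ ψ.sn (xn (fun m => Z (e.getD m 0)) i) (rh (p i) (y i) w) := by
        filter_upwards [h1, hcon] with i h4 h5
        rcases pCA_fin h4 with ⟨h6, _⟩ | ⟨h6, w, hw, h7⟩
        · simp only [h6, Nat.unpair_pair] at h5
          simp at h5
        · rw [hxs] at h7
          exact ⟨w, hw, h7⟩
      obtain ⟨w, hw⟩ := h3.choice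
      have h4 := (h y hy).1 h2 w (Cut.bd_le hr (hw.mono fun i hi => hi.1.le))
      obtain ⟨i, h5, h6⟩ := (h4.and hw).exists
      exact h6.2 h5

theorem thin_step (S : Setting) (X : Ix → ℕ → ℕ) (g : Ix → ℕ → ℕ) (k j : ℕ) (side : Bool)
    (hG : Good S.W S.L (fun i => join (X i) (g i))) :
    Good S.W S.L (fun i => join (X i) (fun y => open Classical in
      if y ∈ thin k j side (join (X i) (g i)) (y+1) then 1 else 0)) := by
  classical
  set X' : Ix → ℕ → ℕ := fun i => join (X i) (g i) with hX'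
  set u := pThin k j with hu
  have hdec : ∀ i y t, prc (y+1) (y+1) < t → u.Dec side t (X' i) y := by
    intro i y t ht
    refine ⟨t, le_rfl, ?_⟩
    show (ite _ _ _ : Option ℕ).isSome = true
    rw [if_pos ht]
    rfl
  have hfin : ∀ i y, u.fin side (X' i) y = Nat.pair (X i y)
      (if y ∈ thin k j side (X' i) (y+1) then 1 else 0) := by
    intro i y
    obtain ⟨r, _, h1⟩ := u.fin_spec (hdec i y _ (Nat.lt_succ_self _))
    have h2 : (if prc (y+1) (y+1) < r then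
      some (Nat.pair (Nat.unpair (X' i y)).1 (if y ∈ thin k j side (X' i) (y+1) then 1 else 0))
        else none) = some (u.fin side (X' i) y) := h1
    split_ifs at h2 with h3 h4
    · rw [if_pos h4, ← Option.some.inj h2]
      simp [X', join]
    · rw [if_neg h4, ← Option.some.inj h2]
      simp [X', join]
  have hGp := good_pull hG u (fun _ => side) (Cut.bd_const side) (fun n => S.hL (.puThin k j) n) (by
    intro m hm
    refine ⟨fun i => prc (m i) (m i) + 1, Cut.bd_map (fun a : ℕ => prc a a + 1) hm, ?_⟩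
    refine Eventually.of_forall fun i y hy => hdec i y _ ?_
    exact Nat.lt_succ_of_le (prc_mono (show y + 1 ≤ m i from hy) (show y + 1 ≤ m i from hy)))
  refine hGp.congr ?_
  intro t ht
  refine Eventually.of_forall fun i y _ => ?_
  exact hfin i y

theorem tT_step (S : Setting) :
    Good S.W S.L (fun i => join (orc (S.W.T i)) (fun y => open Classical in
      if Tt (S.W.B i) (S.W.J i) (S.W.T i) y then 1 else 0)) := by
  classical
  have hdec : ∀ (p : ℕ × ℕ) (x : ℕ → ℕ) y t, y < t → pT.Dec p t x y := by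
    intro p x y t ht
    refine ⟨t, le_rfl, ?_⟩
    show (ite _ _ _ : Option ℕ).isSome = true
    rw [if_pos ht]
    rfl
  have hfin : ∀ i y, pT.fin (S.W.B i, S.W.J i) (orc (S.W.T i)) y = Nat.pair (orc (S.W.T i) y)
      (if Tt (S.W.B i) (S.W.J i) (S.W.T i) y then 1 else 0) := by
    intro i y
    obtain ⟨r, _, h1⟩ := pT.fin_spec (hdec (S.W.B i, S.W.J i) (orc (S.W.T i)) y _ (Nat.lt_succ_self _))
    have h2 : (if y < r then some (Nat.pair (orc (S.W.T i) y)
      (if Tt (S.W.B i) (S.W.J i) (fun s => dcd (orc (S.W.T i) s)) y then 1 else 0)) else none) =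
        some (pT.fin (S.W.B i, S.W.J i) (orc (S.W.T i)) y) := h1
    have h3 : (fun s => dcd (orc (S.W.T i) s)) = S.W.T i := funext fun s => dcd_orc _ s
    rw [h3] at h2
    split_ifs at h2 with h4 h5
    · rw [if_pos h5]
      exact (Option.some.inj h2).symm
    · rw [if_neg h5]
      exact (Option.some.inj h2).symm
  have hB : S.W.c.Bd (fun i => (S.W.B i, S.W.J i)) := by
    have h1 : S.W.c.Bd (fun i => S.W.B i ^ S.W.J i) :=
      Cut.bd_le (Cut.bd_a 0) (Eventually.of_forall S.W.K_le)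
    refine Cut.bd_prod (Cut.bd_le h1 (Eventually.of_forall fun i => ?_))
      (Cut.bd_le h1 (Eventually.of_forall fun i => ?_))
    · exact Nat.le_self_pow (S.W.pos i).ne' _
    · exact (Nat.lt_pow_self (S.W.two_le i)).le
  have hGp := good_pull S.good pT (fun i => (S.W.B i, S.W.J i)) hB (fun n => S.hL .puT n) (by
    intro m hm
    exact ⟨m, hm, Eventually.of_forall fun i y hy => hdec _ _ y _ hy⟩)
  refine hGp.congr ?_
  intro t ht
  refine Eventually.of_forall fun i y _ => ?_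
  exact hfin i y

/-- Least number principle for `Σ₁` formulas. -/
theorem sig_step (S : Setting) (Z : ℕ → Ix → ℕ → ℕ) (k : ℕ) (hG : Good S.W S.L (XX S.W Z k))
    (h0 : 0 < k) (φ : Fml) (hφ : φ.Bounded) (e : List ℕ)
    (he : ∀ j ∈ e, j < k) (p : Ix → List ℕ) (hp : S.W.c.Bd p)
    (n : Ix → ℕ) (hn : S.W.c.Bd n)
    (h1 : ∃ w, S.W.c.Bd w ∧ Ev Z e φ p (fun _ => 0) w)
    (h2 : ¬ ∃ w, S.W.c.Bd w ∧ Ev Z e φ p n w) :
    ∃ y, S.W.c.Bd y ∧ (∃ w, S.W.c.Bd w ∧ Ev Z e φ p y w) ∧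
      ¬ ∃ w, S.W.c.Bd w ∧ Ev Z e φ p (fun i => y i + 1) w := by
  classical
  set X := XX S.W Z k with hX
  have hxs : ∀ i, xs k e (X i) = xn (fun m => Z (e.getD m 0)) i := fun i => xs_XX S.W Z h0 he i
  obtain ⟨D, b, hD, hb, h3, h4⟩ := sig_spec (hG.proc' (S.hL (.sigF k φ e) 0)
    (fun i => (p i, n i + 1)) (Cut.bd_prod hp (Cut.bd_map (fun a : ℕ => a + 1) hn)))
  have hD1 : ∀ y, S.W.c.Bd y → (∀ᶠ i in (U : Filter Ix), y i ∈ D i) →
      ∃ w, S.W.c.Bd w ∧ Ev Z e φ p y w := by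
    intro y hy hyD
    have h5 : ∀ᶠ i in (U : Filter Ix), ∃ w, w < b i ∧
        φ.sn (xn (fun m => Z (e.getD m 0)) i) (rh (p i) (y i) w) := by
      filter_upwards [hyD, h3] with i h6 h7
      obtain ⟨_, r, hr, _, w, hw, _, h8⟩ := h7 _ h6
      rw [hxs] at h8
      exact ⟨w, by omega, h8⟩
    obtain ⟨w, hw⟩ := h5.choice
    exact ⟨w, Cut.bd_le hb (hw.mono fun i hi => hi.1.le), hw.mono fun i hi => hi.2⟩
  have hD2 : ∀ y, S.W.c.Bd y → (∀ᶠ i in (U : Filter Ix), y i ≤ n i) →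
      (∃ w, S.W.c.Bd w ∧ Ev Z e φ p y w) → ∀ᶠ i in (U : Filter Ix), y i ∈ D i := by
    intro y hy hyn hex
    obtain ⟨w, hw, h5⟩ := hex
    have hbd : S.W.c.Bd (fun i => max (w i + 1) (φ.bd (rh (p i) (y i) (w i)))) :=
      Cut.bd_map₂ (fun a b : ℕ => max (a + 1) b) hw (rh_bd hp hy hw φ.bd)
    filter_upwards [h4 _ hbd, hyn, h5] with i h6 h7 h8
    refine h6 (y i) (Nat.lt_succ_of_le h7) ⟨_, le_rfl, hφ, w i, ?_, ?_, ?_⟩
    · omega
    · exact le_max_right _ _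
    · rw [hxs]
      exact h8
  have hzero := hD2 _ (Cut.bd_const 0) (Eventually.of_forall fun i => Nat.zero_le _) h1
  have hnn : ∀ᶠ i in (U : Filter Ix), n i ∉ D i := by
    rw [Ultrafilter.eventually_not]
    intro h5
    exact h2 (hD1 n hn h5)
  have hex : ∀ᶠ i in (U : Filter Ix), ∃ y, y < n i ∧ y ∈ D i ∧ y + 1 ∉ D i := by
    filter_upwards [hzero, hnn] with i h5 h6
    by_contra hcon
    push Not at hcon
    have h7 : ∀ y ≤ n i, y ∈ D i := by
      intro y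
      induction y with
      | zero => intro _; exact h5
      | succ y ih =>
        intro hy
        exact hcon y (by omega) (ih (by omega))
    exact h6 (h7 _ le_rfl)
  obtain ⟨y, hy⟩ := hex.choice
  have hyb : S.W.c.Bd y := Cut.bd_le hn (hy.mono fun i hi => hi.1.le)
  refine ⟨y, hyb, hD1 y hyb (hy.mono fun i hi => hi.2.1), fun hcon => ?_⟩
  have h5 := hD2 (fun i => y i + 1) (Cut.bd_map (fun a : ℕ => a + 1) hyb)
    (hy.mono fun i hi => hi.1) hcon
  obtain ⟨i, h6, h7⟩ := (h5.and hy).exists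
  exact h7.2.2 h6

/-- Uniform stabilisation of stable colourings. -/
theorem unif_stab (S : Setting) (Z : ℕ → Ix → ℕ → ℕ) (k j : ℕ) (hj : j < k)
    (hG : Good S.W S.L (XX S.W Z k))
    (hst : ∀ a, S.W.c.Bd a → ∃ z, S.W.c.Bd z ∧ ∃ v : Bool, ∀ y, S.W.c.Bd y →
      (∀ᶠ i in (U : Filter Ix), a i < y i ∧ z i < y i) →
      ∀ᶠ i in (U : Filter Ix), (Z j i (prc (a i) (y i)) = 1 ↔ v = true))
    (a : Ix → ℕ) (ha : S.W.c.Bd a) :
    ∃ m, S.W.c.Bd m ∧ (∀ᶠ i in (U : Filter Ix), a i ≤ m i) ∧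
      ∀ t, S.W.c.Bd t → ∀ᶠ i in (U : Filter Ix), ∀ x < a i, ∀ y, m i ≤ y → y < t i →
        (Z j i (prc x y) = 1 ↔ Z j i (prc x (m i)) = 1) := by
  classical
  set X := XX S.W Z k with hX
  have hfc : ∀ i x y, fc k j (X i) x y ↔ Z j i (prc x y) = 1 := by
    intro i x y
    unfold fc
    rw [hX, col_XX S.W Z hj]
  obtain ⟨k0, hk0⟩ := Cut.bd_nat.1 ha
  have hD : ∀ k' : ℕ, ∃ (D : Ix → Finset ℕ) (b : Ix → ℕ), S.W.c.Bd D ∧ S.W.c.Bd b ∧
      (∀ᶠ i in (U : Filter Ix), ∀ y ∈ D i, y < a i ∧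
        (chgFn k j).Hit (S.W.c.a k' i) y (b i) (X i)) ∧
      ∀ t, S.W.c.Bd t → ∀ᶠ i in (U : Filter Ix), ∀ y < a i,
        (chgFn k j).Hit (S.W.c.a k' i) y (t i) (X i) → y ∈ D i := fun k' =>
    sig_spec (hG.proc' (S.hL (.chg k j) 0) (fun i => (S.W.c.a k' i, a i))
      (Cut.bd_prod (Cut.bd_a k') ha))
  choose D b hDb hb h1 h2 using hD
  by_cases hex : ∃ k' ≥ k0, ∀ᶠ i in (U : Filter Ix), D k' i = ∅
  · obtain ⟨k', hk', h3⟩ := hex
    refine ⟨S.W.c.a k', Cut.bd_a k', ?_, ?_⟩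
    · filter_upwards [hk0] with i h4
      exact h4.trans (S.W.c.mono' hk' i)
    · intro t ht
      have hbd : S.W.c.Bd (fun i => prc (a i) (t i) + 1) :=
        Cut.bd_map₂ (fun a b : ℕ => prc a b + 1) ha ht
      filter_upwards [h2 k' _ hbd, h3] with i h4 h5 x hx y hy1 hy2
      by_contra hcon
      have h6 : x ∈ D k' i := by
        apply h4 x hx
        refine ⟨_, le_rfl, y, hy1, ?_, ?_⟩
        · have := prc_mono hx.le hy2.le
          omega
        · rw [hfc, hfc]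
          exact hcon
      rw [h5] at h6
      exact absurd h6 (Finset.notMem_empty x)
  · exfalso
    have hne : ∀ k' ≥ k0, ∀ᶠ i in (U : Filter Ix), (D k' i).Nonempty := by
      intro k' hk'
      have h3 : ¬ ∀ᶠ i in (U : Filter Ix), D k' i = ∅ := fun h => hex ⟨k', hk', h⟩
      rw [← Ultrafilter.eventually_not] at h3
      filter_upwards [h3] with i h4
      exact Finset.nonempty_iff_ne_empty.2 h4
    have hdec : ∀ k' k'', k' ≤ k'' → ∀ᶠ i in (U : Filter Ix), ∀ x ∈ D k'' i, x ∈ D k' i := by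
      intro k' k'' hk
      filter_upwards [h1 k'', h2 k' _ (hb k'')] with i h3 h4 x hx
      obtain ⟨h5, r, hr, y, h6, h7, h8⟩ := h3 x hx
      apply h4 x h5
      have hle : S.W.c.a k' i ≤ S.W.c.a k'' i := S.W.c.mono' hk i
      by_cases h9 : fc k j (X i) x y ↔ fc k j (X i) x (S.W.c.a k' i)
      · refine ⟨r, hr, S.W.c.a k'' i, hle, (prc_mono le_rfl h6).trans_lt h7, fun h10 => ?_⟩
        exact h8 (h9.trans h10.symm)
      · exact ⟨r, hr, y, hle.trans h6, h7, h9⟩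
    obtain ⟨x, hx⟩ := saturate (fun k' i x => x ∈ D (k' + k0) i) (by
      intro k1
      have h3 : ∀ᶠ i in (U : Filter Ix), ∀ j : Fin (k1+1), ∀ x ∈ D (k1 + k0) i,
          x ∈ D (j + k0) i := by
        rw [eventually_all]
        intro j
        exact hdec _ _ (by omega)
      filter_upwards [h3, hne (k1 + k0) (by omega)] with i h4 h5
      obtain ⟨x, hx⟩ := h5
      exact ⟨x, fun j hj => h4 ⟨j, by omega⟩ x hx⟩)
    have hxa : ∀ᶠ i in (U : Filter Ix), x i < a i := by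
      filter_upwards [hx 0, h1 (0 + k0)] with i h3 h4
      exact (h4 _ h3).1
    have hxb : S.W.c.Bd x := Cut.bd_le ha (hxa.mono fun i hi => hi.le)
    obtain ⟨z, hz, v, hv⟩ := hst x hxb
    obtain ⟨k1, hk1⟩ := Cut.bd_nat' hz
    have h3 : ∀ᶠ i in (U : Filter Ix), ∃ y, S.W.c.a (k1 + k0) i ≤ y ∧ y < b (k1 + k0) i ∧
        ¬ (Z j i (prc (x i) y) = 1 ↔ Z j i (prc (x i) (S.W.c.a (k1 + k0) i)) = 1) := by
      filter_upwards [hx k1, h1 (k1 + k0)] with i h4 h5
      obtain ⟨_, r, hr, y, h6, h7, h8⟩ := h5 _ h4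
      refine ⟨y, h6, ?_, ?_⟩
      · have := le_prc_right (x i) y
        omega
      · rw [hfc, hfc] at h8
        exact h8
    obtain ⟨y, hy⟩ := h3.choice
    have hyb : S.W.c.Bd y := Cut.bd_le (hb (k1 + k0)) (hy.mono fun i hi => hi.2.1.le)
    have h4 := hv y hyb (by
      filter_upwards [hy, hk1, hk0, hxa] with i h5 h6 h7 h8
      have h9 : S.W.c.a k1 i ≤ S.W.c.a (k1 + k0) i := S.W.c.mono' (by omega) i
      have h10 : S.W.c.a k0 i ≤ S.W.c.a (k1 + k0) i := S.W.c.mono' (by omega) i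
      omega)
    have h5 := hv (S.W.c.a (k1 + k0)) (Cut.bd_a _) (by
      filter_upwards [hk1, hk0, hxa] with i h6 h7 h8
      have h9 : S.W.c.a k1 i ≤ S.W.c.a (k1 + k0) i := S.W.c.mono' (by omega) i
      have h10 : S.W.c.a k0 i ≤ S.W.c.a (k1 + k0) i := S.W.c.mono' (by omega) i
      omega)
    obtain ⟨i, h6, h7, h8⟩ := (h4.and (h5.and hy)).exists
    exact h8.2.2 (h6.trans h7.symm)

end Run7.h231
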