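import Pool.Agent.Run7.h231.Ops
import Pool.Agent.Run7.h231.Defs

/-! Formulas: variables, locality, transfer for bounded formulas, elementary submodels. -/

namespace Run7.h231

open Filter

/-- A bound for the number variables. -/
def Trm.vb : Trm → ℕ
  | .var n => n + 1
  | .zero => 0
  | .one => 0
  | .add s t => max s.vb t.vb
  | .mul s t => max s.vb t.vb

def Fml.vb : Fml → ℕ
  | .eq s t => max s.vb t.vb
  | .lt s t => max s.vb t.vb
  | .mem t _ => t.vb
  | .neg φ => φ.vb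
  | .and φ ψ => max φ.vb ψ.vb
  | .ball _ t φ => max t.vb φ.vb
  | .all _ φ => φ.vb

def Fml.sb : Fml → ℕ
  | .eq _ _ => 0
  | .lt _ _ => 0
  | .mem _ X => X + 1
  | .neg φ => φ.sb
  | .and φ ψ => max φ.sb ψ.sb
  | .ball _ _ φ => φ.sb
  | .all _ φ => φ.sb

lemma Trm.val_congr (𝓜 : L2Model) {ρ ρ' : ℕ → 𝓜.M} (t : Trm) (h : ∀ m < t.vb, ρ m = ρ' m) :
    t.val 𝓜 ρ = t.val 𝓜 ρ' := by
  induction t with
  | var n => exact h n (by simp [Trm.vb])
  | zero => rfl
  | one => rfl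
  | add s t ihs iht =>
    simp only [Trm.vb] at h
    simp only [Trm.val]
    rw [ihs (fun m hm => h m (by omega)), iht (fun m hm => h m (by omega))]
  | mul s t ihs iht =>
    simp only [Trm.vb] at h
    simp only [Trm.val]
    rw [ihs (fun m hm => h m (by omega)), iht (fun m hm => h m (by omega))]

lemma upd_agree {α : Type*} {ρ ρ' : ℕ → α} {v : ℕ} (h : ∀ m < v, ρ m = ρ' m) (x : ℕ) (a : α) :
    ∀ m < v, Function.update ρ x a m = Function.update ρ' x a m := by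
  intro m hm
  rcases eq_or_ne m x with rfl | hne
  · simp
  · rw [Function.update_of_ne hne, Function.update_of_ne hne]
    exact h m hm

lemma Fml.sat_congr (𝓜 : L2Model) {Ξ Ξ' : ℕ → Set 𝓜.M} (φ : Fml) {ρ ρ' : ℕ → 𝓜.M}
    (h : ∀ m < φ.vb, ρ m = ρ' m) (h' : ∀ m < φ.sb, Ξ m = Ξ' m) :
    φ.Sat 𝓜 Ξ ρ ↔ φ.Sat 𝓜 Ξ' ρ' := by
  induction φ generalizing ρ ρ' with
  | eq s t =>
    simp only [Fml.vb] at h
    simp only [Fml.Sat]
    rw [s.val_congr 𝓜 (fun m hm => h m (by omega)), t.val_congr 𝓜 (fun m hm => h m (by omega))]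
  | lt s t =>
    simp only [Fml.vb] at h
    simp only [Fml.Sat]
    rw [s.val_congr 𝓜 (fun m hm => h m (by omega)), t.val_congr 𝓜 (fun m hm => h m (by omega))]
  | mem t X =>
    simp only [Fml.vb] at h
    simp only [Fml.sb] at h'
    simp only [Fml.Sat]
    rw [t.val_congr 𝓜 h, h' X (by omega)]
  | neg φ ih =>
    simp only [Fml.Sat]
    rw [ih h h']
  | and φ ψ ih1 ih2 =>
    simp only [Fml.vb] at h
    simp only [Fml.sb] at h'
    simp only [Fml.Sat]
    rw [ih1 (fun m hm => h m (by omega)) (fun m hm => h' m (by omega)),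
      ih2 (fun m hm => h m (by omega)) (fun m hm => h' m (by omega))]
  | ball x t φ ih =>
    simp only [Fml.vb] at h
    simp only [Fml.sb] at h'
    simp only [Fml.Sat]
    rw [t.val_congr 𝓜 (fun m hm => h m (by omega))]
    apply forall_congr'
    intro a
    rw [ih (upd_agree (v := φ.vb) (fun m hm => h m (by omega)) x a) h']
  | all x φ ih =>
    simp only [Fml.vb] at h
    simp only [Fml.sb] at h'
    simp only [Fml.Sat]
    apply forall_congr'
    intro a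
    rw [ih (upd_agree h x a) h']

/-- Values of terms in the standard model. -/
def Trm.vn (ρ : ℕ → ℕ) : Trm → ℕ
  | .var n => ρ n
  | .zero => 0
  | .one => 1
  | .add s t => s.vn ρ + t.vn ρ
  | .mul s t => s.vn ρ * t.vn ρ

/-- Truth in the standard model. -/
def Fml.sn (Ξ : ℕ → ℕ → Prop) : Fml → (ℕ → ℕ) → Prop
  | .eq s t, ρ => s.vn ρ = t.vn ρ
  | .lt s t, ρ => s.vn ρ < t.vn ρ
  | .mem t X, ρ => Ξ X (t.vn ρ)
  | .neg φ, ρ => ¬ φ.sn Ξ ρ
  | .and φ ψ, ρ => φ.sn Ξ ρ ∧ ψ.sn Ξ ρ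
  | .ball x t φ, ρ => ∀ a, a < t.vn ρ → φ.sn Ξ (Function.update ρ x a)
  | .all x φ, ρ => ∀ a, φ.sn Ξ (Function.update ρ x a)

/-- All membership queries in the evaluation of a bounded formula are below this number. -/
def Fml.bd : Fml → (ℕ → ℕ) → ℕ
  | .eq _ _, _ => 0
  | .lt _ _, _ => 0
  | .mem t _, ρ => t.vn ρ + 1
  | .neg φ, ρ => φ.bd ρ
  | .and φ ψ, ρ => max (φ.bd ρ) (ψ.bd ρ)
  | .ball x t φ, ρ => (Finset.range (t.vn ρ)).sup (fun v => φ.bd (Function.update ρ x v))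
  | .all _ _, _ => 0

lemma Fml.bd_spec (φ : Fml) (hφ : φ.Bounded) {Ξ Ξ' : ℕ → ℕ → Prop} {ρ : ℕ → ℕ}
    (h : ∀ m, ∀ y < φ.bd ρ, Ξ m y ↔ Ξ' m y) : φ.sn Ξ ρ ↔ φ.sn Ξ' ρ := by
  induction φ generalizing ρ with
  | eq s t => exact Iff.rfl
  | lt s t => exact Iff.rfl
  | mem t X =>
    simp only [Fml.sn]
    exact h X _ (by simp [Fml.bd])
  | neg φ ih =>
    simp only [Fml.sn]
    rw [ih hφ h]
  | and φ ψ ih1 ih2 =>
    simp only [Fml.bd] at h
    simp only [Fml.sn]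
    rw [ih1 hφ.1 (fun m y hy => h m y (by omega)), ih2 hφ.2 (fun m y hy => h m y (by omega))]
  | ball x t φ ih =>
    simp only [Fml.sn]
    apply forall_congr'
    intro a
    apply imp_congr_right
    intro ha
    apply ih hφ
    intro m y hy
    apply h m y
    refine lt_of_lt_of_le hy ?_
    exact Finset.le_sup (f := fun v => φ.bd (Function.update ρ x v)) (Finset.mem_range.2 ha)
  | all x φ ih => exact hφ.elim

/-! ### Models inside the ultrapower -/

abbrev Gm : Type := Filter.Germ (U : Filter Ix) ℕ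

structure Clo (D : Set Gm) : Prop where
  zero : (0 : Gm) ∈ D
  one : (1 : Gm) ∈ D
  add : ∀ x ∈ D, ∀ y ∈ D, x + y ∈ D
  mul : ∀ x ∈ D, ∀ y ∈ D, x * y ∈ D

/-- The submodel with domain `D` and the family of traces of sets in `𝒵`. -/
noncomputable abbrev gM {D : Set Gm} (hD : Clo D) (𝒵 : Set (Set Gm)) : L2Model where
  M := D
  zero := ⟨0, hD.zero⟩
  one := ⟨1, hD.one⟩
  add x y := ⟨x.1 + y.1, hD.add _ x.2 _ y.2⟩
  mul x y := ⟨x.1 * y.1, hD.mul _ x.2 _ y.2⟩
  lt x y := x.1 < y.1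
  S := {A | ∃ B ∈ 𝒵, A = {x | x.1 ∈ B}}

/-- The set coded by an internal characteristic function. -/
def zs (Z : Ix → ℕ → ℕ) : Set Gm :=
  {g | ∃ x : Ix → ℕ, g = (x : Gm) ∧ ∀ᶠ i in (U : Filter Ix), Z i (x i) = 1}

lemma coe_mem_zs {Z : Ix → ℕ → ℕ} {x : Ix → ℕ} :
    (x : Gm) ∈ zs Z ↔ ∀ᶠ i in (U : Filter Ix), Z i (x i) = 1 := by
  constructor
  · rintro ⟨x', h1, h2⟩
    filter_upwards [Filter.Germ.coe_eq.1 h1, h2] with i h3 h4
    rw [h3]
    exact h4
  · intro h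
    exact ⟨x, rfl, h⟩

/-- The cut as a subset of the ultrapower. -/
def cutD (c : Cut) : Set Gm := {g | ∃ x : Ix → ℕ, g = (x : Gm) ∧ c.Bd x}

lemma coe_mem_cutD {c : Cut} {x : Ix → ℕ} : (x : Gm) ∈ cutD c ↔ c.Bd x := by
  constructor
  · rintro ⟨x', h1, h2⟩
    exact Cut.bd_congr h2 (Filter.Germ.coe_eq.1 h1)
  · intro h
    exact ⟨x, rfl, h⟩

lemma cutD_clo (c : Cut) : Clo (cutD c) where
  zero := (coe_mem_cutD (x := fun _ => 0)).2 (Cut.bd_const 0)
  one := (coe_mem_cutD (x := fun _ => 1)).2 (Cut.bd_const 1)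
  add := by
    rintro _ ⟨x, rfl, hx⟩ _ ⟨y, rfl, hy⟩
    exact (coe_mem_cutD (x := fun i => x i + y i)).2 (Cut.bd_map₂ (fun a b : ℕ => a + b) hx hy)
  mul := by
    rintro _ ⟨x, rfl, hx⟩ _ ⟨y, rfl, hy⟩
    exact (coe_mem_cutD (x := fun i => x i * y i)).2 (Cut.bd_map₂ (fun a b : ℕ => a * b) hx hy)

lemma gM_val {D : Set Gm} (hD : Clo D) (𝒵 : Set (Set Gm)) (t : Trm) (ρ : ℕ → D)
    (r : ℕ → Ix → ℕ) (hr : ∀ m, (ρ m).1 = (r m : Gm)) :
    (t.val (gM hD 𝒵) ρ : D).1 = ((fun i => t.vn (fun m => r m i) : Ix → ℕ) : Gm) := by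
  induction t with
  | var n => exact hr n
  | zero => rfl
  | one => rfl
  | add s t ihs iht =>
    show (s.val (gM hD 𝒵) ρ : D).1 + (t.val (gM hD 𝒵) ρ : D).1 = _
    rw [ihs, iht]
    rfl
  | mul s t ihs iht =>
    show (s.val (gM hD 𝒵) ρ : D).1 * (t.val (gM hD 𝒵) ρ : D).1 = _
    rw [ihs, iht]
    rfl

lemma bd_val {c : Cut} (t : Trm) (r : ℕ → Ix → ℕ) (hr : ∀ m, c.Bd (r m)) :
    c.Bd (fun i => (t.vn (fun m => r m i) : ℕ)) := by
  induction t with
  | var n => exact hr n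
  | zero => exact Cut.bd_const 0
  | one => exact Cut.bd_const 1
  | add s t ihs iht => exact Cut.bd_map₂ (fun a b : ℕ => a + b) ihs iht
  | mul s t ihs iht => exact Cut.bd_map₂ (fun a b : ℕ => a * b) ihs iht

/-- The set assignment given by internal sets. -/
def xi {D : Set Gm} (hD : Clo D) (𝒵 : Set (Set Gm)) (Z : ℕ → Ix → ℕ → ℕ) :
    ℕ → Set (gM hD 𝒵).M := fun m => {x | x.1 ∈ zs (Z m)}

/-- The set assignment at an index. -/
def xn (Z : ℕ → Ix → ℕ → ℕ) (i : Ix) : ℕ → ℕ → Prop := fun m y => Z m i y = 1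

/-- Transfer for bounded formulas in the cut. -/
theorem los {c : Cut} (𝒵 : Set (Set Gm)) (Z : ℕ → Ix → ℕ → ℕ) (φ : Fml) (hφ : φ.Bounded)
    (ρ : ℕ → cutD c) (r : ℕ → Ix → ℕ) (hr : ∀ m, (ρ m).1 = (r m : Gm)) :
    φ.Sat (gM (cutD_clo c) 𝒵) (xi _ 𝒵 Z) ρ ↔
      ∀ᶠ i in (U : Filter Ix), φ.sn (xn Z i) (fun m => r m i) := by
  induction φ generalizing ρ r with
  | eq s t =>
    have h1 : (s.val (gM (cutD_clo c) 𝒵) ρ : cutD c) = (t.val (gM (cutD_clo c) 𝒵) ρ : cutD c) ↔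
        (s.val (gM (cutD_clo c) 𝒵) ρ : cutD c).1 = (t.val (gM (cutD_clo c) 𝒵) ρ : cutD c).1 :=
      Subtype.ext_iff
    rw [gM_val (cutD_clo c) 𝒵 s ρ r hr, gM_val (cutD_clo c) 𝒵 t ρ r hr] at h1
    exact h1.trans Filter.Germ.coe_eq
  | lt s t =>
    have h1 : (gM (cutD_clo c) 𝒵).lt (s.val (gM (cutD_clo c) 𝒵) ρ) (t.val (gM (cutD_clo c) 𝒵) ρ) ↔
        (s.val (gM (cutD_clo c) 𝒵) ρ : cutD c).1 < (t.val (gM (cutD_clo c) 𝒵) ρ : cutD c).1 :=
      Iff.rfl
    rw [gM_val (cutD_clo c) 𝒵 s ρ r hr, gM_val (cutD_clo c) 𝒵 t ρ r hr] at h1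
    exact h1.trans Filter.Germ.coe_lt
  | mem t X =>
    have h1 : (Fml.mem t X).Sat (gM (cutD_clo c) 𝒵) (xi _ 𝒵 Z) ρ ↔
        (t.val (gM (cutD_clo c) 𝒵) ρ : cutD c).1 ∈ zs (Z X) := Iff.rfl
    rw [gM_val (cutD_clo c) 𝒵 t ρ r hr, coe_mem_zs] at h1
    exact h1
  | neg φ ih =>
    simp only [Fml.Sat, Fml.sn]
    rw [ih hφ ρ r hr, Ultrafilter.eventually_not]
  | and φ ψ ih1 ih2 =>
    simp only [Fml.Sat, Fml.sn]
    rw [ih1 hφ.1 ρ r hr, ih2 hφ.2 ρ r hr, eventually_and]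
  | ball x t φ ih =>
    have hupd : ∀ (a : cutD c) (x' : Ix → ℕ), a.1 = (x' : Gm) → ∀ m,
        (Function.update ρ x a m).1 = (Function.update r x x' m : Gm) := by
      intro a x' ha m
      rcases eq_or_ne m x with rfl | hne
      · simp [ha]
      · rw [Function.update_of_ne hne, Function.update_of_ne hne]
        exact hr m
    have hupd' : ∀ (x' : Ix → ℕ) (i : Ix), (fun m => Function.update r x x' m i) =
        Function.update (fun m => r m i) x (x' i) := by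
      intro x' i
      funext m
      rcases eq_or_ne m x with rfl | hne
      · simp
      · rw [Function.update_of_ne hne, Function.update_of_ne hne]
    constructor
    · intro h
      by_contra hcon
      have h1 : ∀ᶠ i in (U : Filter Ix), ∃ a : ℕ, a < t.vn (fun m => r m i) ∧
          ¬ φ.sn (xn Z i) (Function.update (fun m => r m i) x a) := by
        rw [← Ultrafilter.eventually_not] at hcon
        filter_upwards [hcon] with i h2
        by_contra h3
        apply h2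
        intro a ha
        by_contra h4
        exact h3 ⟨a, ha, h4⟩
      obtain ⟨x', hx'⟩ := h1.choice
      have hcbd : ∀ m, c.Bd (r m) := by
        intro m
        rw [← coe_mem_cutD, ← hr m]
        exact (ρ m).2
      have hbd : c.Bd x' := by
        refine Cut.bd_le (bd_val t r hcbd) ?_
        filter_upwards [hx'] with i h2
        exact le_of_lt h2.1
      have h2 := h ⟨(x' : Gm), coe_mem_cutD.2 hbd⟩ (by
        show (x' : Gm) < (t.val (gM (cutD_clo c) 𝒵) ρ : cutD c).1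
        rw [gM_val (cutD_clo c) 𝒵 t ρ r hr]
        refine Filter.Germ.coe_lt.2 ?_
        filter_upwards [hx'] with i h2
        exact h2.1)
      have h2' := (ih hφ _ (Function.update r x x') (hupd _ _ rfl)).1 h2
      obtain ⟨i, h3, h4⟩ := (h2'.and hx').exists
      rw [hupd'] at h3
      exact h4.2 h3
    · intro h a ha
      obtain ⟨x', hx'⟩ : ∃ x' : Ix → ℕ, a.1 = (x' : Gm) := by
        obtain ⟨x', h1, _⟩ := a.2
        exact ⟨x', h1⟩
      refine (ih hφ _ (Function.update r x x') (hupd _ _ hx')).2 ?_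
      have h1 : a.1 < (t.val (gM (cutD_clo c) 𝒵) ρ : cutD c).1 := ha
      rw [gM_val (cutD_clo c) 𝒵 t ρ r hr, hx', Filter.Germ.coe_lt] at h1
      filter_upwards [h, h1] with i h2 h3
      rw [hupd']
      exact h2 _ h3
  | all x φ ih => exact hφ.elim

def incl {C D : Set Gm} (h : ∀ x ∈ C, x ∈ D) (x : C) : D := ⟨x.1, h _ x.2⟩

lemma incl_upd {C D : Set Gm} (h : ∀ x ∈ C, x ∈ D) (ρ : ℕ → C) (x : ℕ) (a : C) :
    (fun m => incl h (Function.update ρ x a m)) = Function.update (fun m => incl h (ρ m)) x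
      (incl h a) := by
  funext m
  rcases eq_or_ne m x with rfl | hne
  · simp
  · rw [Function.update_of_ne hne]
    rw [Function.update_of_ne hne]

lemma gM_val_incl {C D : Set Gm} (hC : Clo C) (hD : Clo D) (hCD : ∀ x ∈ C, x ∈ D)
    (𝒵 𝒵' : Set (Set Gm)) (t : Trm) (ρ : ℕ → C) : (t.val (gM hC 𝒵) ρ : C).1 =
      (t.val (gM hD 𝒵') (fun m => incl hCD (ρ m)) : D).1 := by
  induction t with
  | var n => rfl
  | zero => rfl
  | one => rfl
  | add s t ihs iht =>
    show (s.val (gM hC 𝒵) ρ : C).1 + (t.val (gM hC 𝒵) ρ : C).1 = _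
    rw [ihs, iht]
    rfl
  | mul s t ihs iht =>
    show (s.val (gM hC 𝒵) ρ : C).1 * (t.val (gM hC 𝒵) ρ : C).1 = _
    rw [ihs, iht]
    rfl

/-- The Tarski-Vaught property. -/
def TV {C D : Set Gm} (hD : Clo D) (hCD : ∀ x ∈ C, x ∈ D) (𝒵 : Set (Set Gm))
    (Z : ℕ → Ix → ℕ → ℕ) : Prop :=
  ∀ (φ : Fml) (ρ : ℕ → C) (x : ℕ),
    (∃ a : D, φ.Sat (gM hD 𝒵) (xi hD 𝒵 Z) (Function.update (fun m => incl hCD (ρ m)) x a)) →
    ∃ a : C, φ.Sat (gM hD 𝒵) (xi hD 𝒵 Z)
      (Function.update (fun m => incl hCD (ρ m)) x (incl hCD a))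

lemma trm_fresh {𝓜 : L2Model} (t : Trm) (ρ : ℕ → 𝓜.M) (x : ℕ) (a : 𝓜.M) (h : t.vb ≤ x) :
    t.val 𝓜 (Function.update ρ x a) = t.val 𝓜 ρ := by
  apply Trm.val_congr
  intro m hm
  rw [Function.update_of_ne (by omega)]

/-- Elementarity from the Tarski-Vaught property. -/
theorem elem {C D : Set Gm} (hC : Clo C) (hD : Clo D) (hCD : ∀ x ∈ C, x ∈ D)
    (𝒵 𝒵' : Set (Set Gm)) (Z : ℕ → Ix → ℕ → ℕ) (hTV : TV hD hCD 𝒵' Z) (φ : Fml) (ρ : ℕ → C) :
    φ.Sat (gM hC 𝒵) (xi hC 𝒵 Z) ρ ↔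
      φ.Sat (gM hD 𝒵') (xi hD 𝒵' Z) (fun m => incl hCD (ρ m)) := by
  induction φ generalizing ρ with
  | eq s t =>
    have h1 : (s.val (gM hC 𝒵) ρ : C) = (t.val (gM hC 𝒵) ρ : C) ↔
        (s.val (gM hC 𝒵) ρ : C).1 = (t.val (gM hC 𝒵) ρ : C).1 := Subtype.ext_iff
    rw [gM_val_incl hC hD hCD 𝒵 𝒵', gM_val_incl hC hD hCD 𝒵 𝒵'] at h1
    exact h1.trans Subtype.ext_iff.symm
  | lt s t =>
    have h1 : (Fml.lt s t).Sat (gM hC 𝒵) (xi hC 𝒵 Z) ρ ↔
        (s.val (gM hC 𝒵) ρ : C).1 < (t.val (gM hC 𝒵) ρ : C).1 := Iff.rfl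
    rw [gM_val_incl hC hD hCD 𝒵 𝒵', gM_val_incl hC hD hCD 𝒵 𝒵'] at h1
    exact h1
  | mem t X =>
    have h1 : (Fml.mem t X).Sat (gM hC 𝒵) (xi hC 𝒵 Z) ρ ↔
        (t.val (gM hC 𝒵) ρ : C).1 ∈ zs (Z X) := Iff.rfl
    rw [gM_val_incl hC hD hCD 𝒵 𝒵'] at h1
    exact h1
  | neg φ ih =>
    simp only [Fml.Sat]
    rw [ih ρ]
  | and φ ψ ih1 ih2 =>
    simp only [Fml.Sat]
    rw [ih1 ρ, ih2 ρ]
  | ball x t φ ih =>
    simp only [Fml.Sat]
    constructor
    · intro h
      by_contra hcon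
      push Not at hcon
      obtain ⟨a, ha1, ha2⟩ := hcon
      -- a fresh variable for the value of the term
      let w := max (x+1) φ.vb
      let v : C := t.val (gM hC 𝒵) ρ
      have hv : v.1 = (t.val (gM hD 𝒵') (fun m => incl hCD (ρ m)) : D).1 :=
        gM_val_incl hC hD hCD 𝒵 𝒵' t ρ
      let ρ' : ℕ → C := Function.update ρ w v
      have hagree : ∀ b : D, ∀ m < φ.vb, Function.update (fun m => incl hCD (ρ' m)) x b m =
          Function.update (fun m => incl hCD (ρ m)) x b m := by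
        intro b
        apply upd_agree
        intro m hm
        show incl hCD (Function.update ρ w v m) = incl hCD (ρ m)
        rw [Function.update_of_ne (by simp only [w]; omega)]
      have hw : ∀ b : D, Function.update (fun m => incl hCD (ρ' m)) x b w = incl hCD v := by
        intro b
        rw [Function.update_of_ne (by simp only [w]; omega)]
        show incl hCD (Function.update ρ w v w) = incl hCD v
        rw [Function.update_self]
      obtain ⟨a', ha'1, ha'2⟩ := hTV (.and (.lt (.var x) (.var w)) (.neg φ)) ρ' x ⟨a, by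
        constructor
        · show (Function.update (fun m => incl hCD (ρ' m)) x a x).1 <
            (Function.update (fun m => incl hCD (ρ' m)) x a w).1
          rw [hw, Function.update_self]
          show a.1 < v.1
          rw [hv]
          exact ha1
        · show ¬ _
          rw [Fml.sat_congr (gM hD 𝒵') φ (hagree a) (fun _ _ => rfl)]
          exact ha2⟩
      have ha'3 : (Function.update (fun m => incl hCD (ρ' m)) x (incl hCD a') x).1 <
            (Function.update (fun m => incl hCD (ρ' m)) x (incl hCD a') w).1 := ha'1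
      rw [hw, Function.update_self] at ha'3
      apply ha'2
      rw [Fml.sat_congr (gM hD 𝒵') φ (hagree _) (fun _ _ => rfl), ← incl_upd]
      exact (ih _).1 (h a' ha'3)
    · intro h a ha
      have h1 : a.1 < (t.val (gM hC 𝒵) ρ : C).1 := ha
      rw [gM_val_incl hC hD hCD 𝒵 𝒵'] at h1
      refine (ih _).2 ?_
      rw [incl_upd]
      exact h (incl hCD a) h1
  | all x φ ih =>
    simp only [Fml.Sat]
    constructor
    · intro h
      by_contra hcon
      push Not at hcon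
      obtain ⟨a, ha⟩ := hTV (.neg φ) ρ x hcon
      rw [← incl_upd] at ha
      exact ha ((ih _).1 (h a))
    · intro h a
      refine (ih _).2 ?_
      rw [incl_upd]
      exact h _

end Run7.h231
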