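import Pool.Agent.Run7.h231.Base

/-! Labelling commands, generic labellings, and the existence of a generic labelling. -/

namespace Run7.h231

open Filter

/-- A command: digit, label, start of the labelled interval. -/
abbrev Cmd : Type := Option (ℕ × ℕ × ℕ)

def Lab (τ : ℕ → Cmd) (t d y l : ℕ) : Prop :=
  ∃ s < t, ∃ b, τ s = some (d, l, b) ∧ b ≤ y ∧ y < s

structure Legal (B J : ℕ) (τ : ℕ → Cmd) (t : ℕ) : Prop where
  bd : ∀ s < t, ∀ d l b, τ s = some (d, l, b) → d < J ∧ l < B ∧ b ≤ s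
  disj : ∀ s < t, ∀ s' < s, ∀ d l b l' b', τ s = some (d, l, b) → τ s' = some (d, l', b') →
    s' ≤ b

structure Ext (n : ℕ) (τ : ℕ → Cmd) (t : ℕ) (τ' : ℕ → Cmd) (t' : ℕ) : Prop where
  le : t ≤ t'
  eq : ∀ s < t, τ' s = τ s
  new : ∀ s, t ≤ s → s < t' → ∀ d l b, τ' s = some (d, l, b) → n ≤ d ∧ t ≤ b

noncomputable def orc (τ : ℕ → Cmd) (y : ℕ) : ℕ := enc (τ y)

lemma Lab.mono {τ τ' : ℕ → Cmd} {t t' d y l : ℕ} (h1 : t ≤ t') (h2 : ∀ s < t, τ' s = τ s)
    (h : Lab τ t d y l) : Lab τ' t' d y l := by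
  obtain ⟨s, hs, b, h3, h4, h5⟩ := h
  exact ⟨s, by omega, b, by rw [h2 s hs]; exact h3, h4, h5⟩

lemma Legal.lab_unique {B J : ℕ} {τ : ℕ → Cmd} {t d y l l' : ℕ} (hL : Legal B J τ t)
    (h : Lab τ t d y l) (h' : Lab τ t d y l') : l = l' := by
  obtain ⟨s, hs, b, h3, h4, h5⟩ := h
  obtain ⟨s', hs', b', h3', h4', h5'⟩ := h'
  rcases lt_trichotomy s s' with h6 | h6 | h6
  · have := hL.disj s' hs' s h6 d l' b' l b h3' h3
    omega
  · subst h6
    rw [h3] at h3'
    simp only [Option.some.injEq, Prod.mk.injEq] at h3'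
    exact h3'.2.1
  · have := hL.disj s hs s' h6 d l b l' b' h3 h3'
    omega

lemma Legal.mono {B J : ℕ} {τ : ℕ → Cmd} {t t' : ℕ} (h : Legal B J τ t) (h1 : t' ≤ t) :
    Legal B J τ t' :=
  ⟨fun s hs => h.bd s (by omega), fun s hs => h.disj s (by omega)⟩

lemma Ext.refl (n : ℕ) (τ : ℕ → Cmd) (t : ℕ) : Ext n τ t τ t :=
  ⟨le_rfl, fun _ _ => rfl, fun s h1 h2 => by omega⟩

lemma Ext.trans {n : ℕ} {τ τ' τ'' : ℕ → Cmd} {t t' t'' : ℕ} (h : Ext n τ t τ' t')
    (h' : Ext n τ' t' τ'' t'') : Ext n τ t τ'' t'' := by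
  have hle := h.le
  have hle' := h'.le
  refine ⟨by omega, fun s hs => ?_, fun s h1 h2 d l b h3 => ?_⟩
  · rw [h'.eq s (by omega), h.eq s hs]
  · rcases Nat.lt_or_ge s t' with h4 | h4
    · rw [h'.eq s h4] at h3
      exact h.new s h1 h4 d l b h3
    · obtain ⟨h5, h6⟩ := h'.new s h4 h2 d l b h3
      exact ⟨h5, by omega⟩

lemma Ext.weaken {m n : ℕ} {τ τ' : ℕ → Cmd} {t t' : ℕ} (hmn : m ≤ n) (h : Ext n τ t τ' t') :
    Ext m τ t τ' t' :=
  ⟨h.le, h.eq, fun s h1 h2 d l b h3 => ⟨hmn.trans (h.new s h1 h2 d l b h3).1,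
    (h.new s h1 h2 d l b h3).2⟩⟩

lemma block_aux (B J n : ℕ) (G : PQ ℕ) (hv : G.v < B) (hn : n < J) (q : ℕ) :
    ∀ s : G.S, ∀ (τ : ℕ → Cmd) (t : ℕ), Legal B J τ t → G.thr q ≤ t →
      G.Inv B q s t (orc τ) (Lab τ t n) →
      ∃ (τ' : ℕ → Cmd) (t' : ℕ) (s' : G.S), Legal B J τ' t' ∧ Ext n τ t τ' t' ∧
        G.Inv B q s' t' (orc τ') (Lab τ' t' n) ∧
        ∀ τ'' t'', Legal B J τ'' t'' → Ext (n+1) τ' t' τ'' t'' →
          G.act B q s' t' t'' (orc τ'') = none := by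
  intro s
  induction s using G.wf.induction with
  | _ s ih =>
  intro τ t hL hthr hI
  by_cases hex : ∃ τ'' t'', Legal B J τ'' t'' ∧ Ext (n+1) τ t τ'' t'' ∧
      G.act B q s t t'' (orc τ'') ≠ none
  · obtain ⟨τ'', t'', hL'', hE, hact⟩ := hex
    obtain ⟨V, hV⟩ := Option.ne_none_iff_exists'.1 hact
    have hcard := G.act_card _ _ _ _ _ _ _ hV
    obtain ⟨l, hl, hlV⟩ : ∃ l ∈ Finset.range B, l ∉ V := by
      apply Finset.exists_mem_notMem_of_card_lt_card
      rw [Finset.card_range]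
      omega
    rw [Finset.mem_range] at hl
    have hle := hE.le
    let τ₁ : ℕ → Cmd := Function.update τ'' t'' (some (n, l, t))
    have hτ₁ : ∀ s, s ≠ t'' → τ₁ s = τ'' s := fun s hs => Function.update_of_ne hs _ _
    have hτ₁' : τ₁ t'' = some (n, l, t) := Function.update_self _ _ _
    have hL₁ : Legal B J τ₁ (t''+1) := by
      constructor
      · intro s hs d l' b hsome
        rcases eq_or_ne s t'' with rfl | hne
        · rw [hτ₁'] at hsome
          simp only [Option.some.injEq, Prod.mk.injEq] at hsome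
          obtain ⟨rfl, rfl, rfl⟩ := hsome
          exact ⟨hn, hl, hle⟩
        · rw [hτ₁ s hne] at hsome
          exact hL''.bd s (by omega) d l' b hsome
      · intro s hs s' hs' d l₁ b₁ l₂ b₂ h1 h2
        rw [hτ₁ s' (by omega)] at h2
        rcases eq_or_ne s t'' with rfl | hne
        · rw [hτ₁'] at h1
          simp only [Option.some.injEq, Prod.mk.injEq] at h1
          obtain ⟨rfl, rfl, rfl⟩ := h1
          by_contra hcon
          have := (hE.new s' (by omega) hs' _ _ _ h2).1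
          omega
        · rw [hτ₁ s hne] at h1
          exact hL''.disj s (by omega) s' hs' d l₁ b₁ l₂ b₂ h1 h2
    have hE₁ : Ext n τ t τ₁ (t''+1) := by
      refine ⟨by omega, fun s hs => ?_, fun s h1 h2 d l' b h3 => ?_⟩
      · rw [hτ₁ s (by omega), hE.eq s hs]
      · rcases eq_or_ne s t'' with rfl | hne
        · rw [hτ₁'] at h3
          simp only [Option.some.injEq, Prod.mk.injEq] at h3
          obtain ⟨rfl, rfl, rfl⟩ := h3
          exact ⟨le_rfl, le_rfl⟩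
        · rw [hτ₁ s hne] at h3
          have := hE.new s h1 (by omega) d l' b h3
          exact ⟨by omega, this.2⟩
    have hact₁ : G.act B q s t t'' (orc τ₁) = some V := by
      rw [← hV]
      apply G.act_local
      intro y hy
      unfold orc
      rw [hτ₁ y (by omega)]
    have hI₁ : G.Inv B q s t (orc τ₁) (Lab τ₁ (t''+1) n) := by
      apply G.inv_mono B q s t t (orc τ) (orc τ₁) (Lab τ t n) _ le_rfl ?_ ?_ hI
      · intro y hy
        unfold orc
        rw [hE₁.eq y hy]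
      · intro y l' h
        exact h.mono (by omega) hE₁.eq
    have hI₂ := G.inv_next B q s t t t'' (orc τ₁) (Lab τ₁ (t''+1) n) V l le_rfl hthr hle hI₁
      hact₁ hl hlV (fun y h1 h2 => ⟨t'', by omega, t, hτ₁', h1, h2⟩)
    have hI₃ : G.Inv B q (G.next B q s t t'' (orc τ₁) l) (t''+1) (orc τ₁)
        (Lab τ₁ (t''+1) n) :=
      G.inv_mono B q _ _ _ _ _ _ _ (by omega) (fun _ _ => rfl) (fun _ _ h => h) hI₂
    obtain ⟨τ', t', s', h1, h2, h3, h4⟩ := ih _ (G.dec _ _ _ _ _ _ _ _ hact₁ hl hlV) τ₁ (t''+1)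
      hL₁ (by omega) hI₃
    exact ⟨τ', t', s', h1, hE₁.trans h2, h3, h4⟩
  · refine ⟨τ, t, s, hL, Ext.refl _ _ _, hI, fun τ'' t'' h1 h2 => ?_⟩
    by_contra hcon
    exact hex ⟨τ'', t'', h1, h2, hcon⟩

/-- Stopping a sequence of commands. -/
def stop (τ : ℕ → Cmd) (t : ℕ) (s : ℕ) : Cmd := if s < t then τ s else none

lemma stop_legal {B J : ℕ} {τ : ℕ → Cmd} {t : ℕ} (h : Legal B J τ t) (t' : ℕ) :
    Legal B J (stop τ t) t' := by
  constructor
  · intro s hs d l b h1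
    unfold stop at h1
    split_ifs at h1 with h2
    exact h.bd s h2 d l b h1
  · intro s hs s' hs' d l b l' b' h1 h2
    unfold stop at h1 h2
    split_ifs at h1 with h3
    rw [if_pos (by omega)] at h2
    exact h.disj s h3 s' hs' d l b l' b' h1 h2

lemma stop_ext (n : ℕ) (τ : ℕ → Cmd) (t t' : ℕ) (h : t ≤ t') : Ext n τ t (stop τ t) t' := by
  refine ⟨h, fun s hs => by simp [stop, hs], fun s h1 h2 d l b h3 => ?_⟩
  unfold stop at h3
  rw [if_neg (by omega)] at h3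
  simp at h3

lemma one_block (B J n : ℕ) (G : PQ ℕ) (hv : G.v < B) (hn : n < J) (τ : ℕ → Cmd) (t : ℕ)
    (hL : Legal B J τ t) (N : ℕ) :
    ∃ (τ' : ℕ → Cmd) (t' : ℕ), Legal B J τ' t' ∧ Ext n τ t τ' t' ∧ N ≤ t' ∧
      ∃ (s : G.S) (b : ℕ), b ≤ t' ∧ enc s ≤ t' ∧ G.thr t ≤ b ∧
        G.Inv B t s b (orc τ') (Lab τ' b n) ∧
        ∀ τ'' r, Legal B J τ'' r → Ext (n+1) τ' t' τ'' r → ∀ t₁, b ≤ t₁ → t₁ ≤ r →
          G.act B t s b t₁ (orc τ'') = none := by
  obtain ⟨τ₁, b, s, h1, h2, h3, h4⟩ := block_aux B J n G hv hn t (G.init t)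
    (stop τ t) (max t (G.thr t)) (stop_legal hL _) (le_max_right _ _) (G.inv_init _ _ _ _ _)
  have hle := h2.le
  refine ⟨stop τ₁ b, max (max b N) (enc s), stop_legal h1 _, ?_, by omega, s, b, by omega,
    by omega, by omega, ?_, ?_⟩
  · exact ((stop_ext n τ t _ (le_max_left _ _)).trans h2).trans (stop_ext n τ₁ b _ (by omega))
  · refine G.inv_mono B t s b b _ _ _ _ le_rfl ?_ ?_ h3
    · intro y hy
      simp [orc, stop, hy]
    · intro y l h
      exact h.mono le_rfl (fun s hs => by simp [stop, hs])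
  · intro τ'' r hL'' hE t₁ h5 h6
    apply h4 τ'' t₁ (hL''.mono h6)
    have hle' := hE.le
    refine ⟨h5, fun s' hs' => ?_, fun s' h7 h8 d l b' h9 => ?_⟩
    · rw [hE.eq s' (by omega)]
      simp [stop, hs']
    · rcases Nat.lt_or_ge s' (max (max b N) (enc s)) with h10 | h10
      · rw [hE.eq s' h10] at h9
        unfold stop at h9
        rw [if_neg (by omega)] at h9
        simp at h9
      · obtain ⟨h11, h12⟩ := hE.new s' h10 (by omega) d l b' h9
        exact ⟨h11, by omega⟩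

lemma exists_chain {α : Type*} (R : ℕ → α → α → Prop) (a0 : α) (h : ∀ n a, ∃ a', R n a a') :
    ∃ s : ℕ → α, s 0 = a0 ∧ ∀ n, R n (s n) (s (n+1)) := by
  choose f hf using h
  exact ⟨fun n => Nat.rec a0 (fun n a => f n a) n, rfl, fun n => hf n _⟩

/-- The setting produced by the generic construction of the labelling. -/
structure World where
  c : Cut
  B : Ix → ℕ
  J : Ix → ℕ
  T : Ix → ℕ → Cmd
  top : Ix → ℕ
  legal : ∀ i, Legal (B i) (J i) (T i) (top i)
  le_top : ∀ k, ∀ᶠ i in (U : Filter Ix), c.a k i ≤ top i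
  two_le : ∀ i, 2 ≤ B i
  pos : ∀ i, 0 < J i
  K_le : ∀ i, (B i)^(J i) ≤ c.a 0 i

/-- The process `A` (with parameter `q`) has been met by the oracle `X`. -/
def PP (W : World) {Q : Type} (A : PQ Q) (q : Ix → Q) (X : Ix → ℕ → ℕ) : Prop :=
  ∃ (d : Ix → ℕ) (s : Ix → A.S) (b : Ix → ℕ), W.c.Bd s ∧ W.c.Bd b ∧
    (∀ᶠ i in (U : Filter Ix), A.thr (q i) ≤ b i ∧
      A.Inv (W.B i) (q i) (s i) (b i) (X i) (Lab (W.T i) (b i) (d i))) ∧
    ∀ t : Ix → ℕ, W.c.Bd t → ∀ᶠ i in (U : Filter Ix), b i ≤ t i →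
      A.act (W.B i) (q i) (s i) (b i) (t i) (X i) = none

def Good (W : World) (L : ℕ → Pr) (X : Ix → ℕ → ℕ) : Prop :=
  ∀ (n : ℕ) (e : Ix → ℕ), W.c.Bd e → ∃ n' ≥ n, ∃ e' : Ix → ℕ, W.c.Bd e' ∧
    (∀ᶠ i in (U : Filter Ix), e i ≤ e' i) ∧ PP W (gam L n') e' X

lemma Good.proc {W : World} {L : ℕ → Pr} {X : Ix → ℕ → ℕ} (h : Good W L X) (m : ℕ)
    (q : Ix → (L m).Q) (hq : W.c.Bd q) : PP W (L m).proc q X := by
  obtain ⟨n', hn', e', _, hle, d, s, b, hs, hb, hI, hact⟩ := h m (fun i => enc (q i))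
    (Cut.bd_map enc hq)
  obtain ⟨comp, hcomp⟩ := gam_sub L hn'
  refine ⟨d, fun i => comp (s i) (q i), b, Cut.bd_map₂ comp hs hq, hb, ?_, ?_⟩
  · filter_upwards [hle, hI] with i h1 h2
    obtain ⟨h3, h4⟩ := hcomp (W.B i) (e' i) (s i) (q i) h1
    exact ⟨h3.trans h2.1, (h4 _ _ _ h2.2).1⟩
  · intro t ht
    filter_upwards [hle, hI, hact t ht] with i h1 h2 h3 h4
    obtain ⟨h5, h6⟩ := hcomp (W.B i) (e' i) (s i) (q i) h1
    exact (h6 _ _ _ h2.2).2 _ _ _ (h3 h4)

lemma Good.proc' {W : World} {L : ℕ → Pr} {X : Ix → ℕ → ℕ} (h : Good W L X) {A : Pr}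
    (hA : ∃ m, L m = A) (q : Ix → A.Q) (hq : W.c.Bd q) : PP W A.proc q X := by
  obtain ⟨m, rfl⟩ := hA
  exact h.proc m q hq

lemma PP.congr {W : World} {Q : Type} {A : PQ Q} {q : Ix → Q} {X X' : Ix → ℕ → ℕ}
    (hX : ∀ t, W.c.Bd t → ∀ᶠ i in (U : Filter Ix), ∀ y < t i, X i y = X' i y)
    (h : PP W A q X) : PP W A q X' := by
  obtain ⟨d, s, b, hs, hb, hI, hact⟩ := h
  refine ⟨d, s, b, hs, hb, ?_, fun t ht => ?_⟩
  · filter_upwards [hI, hX b hb] with i h1 h2
    exact ⟨h1.1, A.inv_mono _ _ _ _ _ _ _ _ _ le_rfl h2 (fun _ _ h => h) h1.2⟩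
  · filter_upwards [hact t ht, hX t ht] with i h1 h2 h3
    rw [← h1 h3]
    exact (A.act_local _ _ _ _ _ _ _ h2).symm

lemma Good.congr {W : World} {L : ℕ → Pr} {X X' : Ix → ℕ → ℕ}
    (hX : ∀ t, W.c.Bd t → ∀ᶠ i in (U : Filter Ix), ∀ y < t i, X i y = X' i y)
    (h : Good W L X) : Good W L X' := by
  intro n e he
  obtain ⟨n', hn', e', he', hle, hP⟩ := h n e he
  exact ⟨n', hn', e', he', hle, hP.congr hX⟩

/-- Existence of a generic labelling. -/
theorem exists_world (L : ℕ → Pr) : ∃ W : World, Good W L (fun i => orc (W.T i)) := by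
  classical
  let BB : Ix → ℕ := fun i => 2 + (Finset.range (i.card + 1)).sup (fun n => (gam L n).v)
  let JJ : Ix → ℕ := fun i => i.card + 1
  let St : Ix → Type := fun i => {p : (ℕ → Cmd) × ℕ // Legal (BB i) (JJ i) p.1 p.2}
  let FF : Ix → ℕ → ℕ := fun i t => i.sup (fun f => (Finset.range (t+1)).sup f)
  have hFF : ∀ (f : ℕ → ℕ) (i : Ix) (t m : ℕ), f ∈ i → m ≤ t → f m ≤ FF i t := by
    intro f i t m hf hm
    refine le_trans ?_ (Finset.le_sup (f := fun f => (Finset.range (t+1)).sup f) hf)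
    exact Finset.le_sup (f := f) (Finset.mem_range.2 (by omega))
  let R : ∀ i, ℕ → St i → St i → Prop := fun i n p p' =>
    Ext n p.1.1 p.1.2 p'.1.1 p'.1.2 ∧ (n < JJ i → FF i p.1.2 + 1 ≤ p'.1.2 ∧
      ∃ (s : (gam L n).S) (b : ℕ), b ≤ p'.1.2 ∧ enc s ≤ p'.1.2 ∧ (gam L n).thr p.1.2 ≤ b ∧
        (gam L n).Inv (BB i) p.1.2 s b (orc p'.1.1) (Lab p'.1.1 b n) ∧
        ∀ τ'' r, Legal (BB i) (JJ i) τ'' r → Ext (n+1) p'.1.1 p'.1.2 τ'' r →
          ∀ t₁, b ≤ t₁ → t₁ ≤ r → (gam L n).act (BB i) p.1.2 s b t₁ (orc τ'') = none)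
  have hR : ∀ i n p, ∃ p', R i n p p' := by
    intro i n p
    by_cases hn : n < JJ i
    · have hv : (gam L n).v < BB i := by
        have : (gam L n).v ≤ (Finset.range (i.card + 1)).sup (fun n => (gam L n).v) :=
          Finset.le_sup (f := fun n => (gam L n).v) (Finset.mem_range.2 hn)
        simp only [BB]
        omega
      obtain ⟨τ', t', h1, h2, h3, h4⟩ := one_block (BB i) (JJ i) n (gam L n) hv hn p.1.1 p.1.2 p.2
        (FF i p.1.2 + 1)
      exact ⟨⟨(τ', t'), h1⟩, h2, fun _ => ⟨h3, h4⟩⟩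
    · exact ⟨p, Ext.refl _ _ _, fun h => absurd h hn⟩
  have hstart : ∀ i, Legal (BB i) (JJ i) (fun _ => none) ((BB i)^(JJ i)) := by
    intro i
    constructor
    · intro s hs d l b h
      simp at h
    · intro s hs s' hs' d l b l' b' h
      simp at h
  have hch : ∀ i, ∃ s : ℕ → St i, s 0 = ⟨(fun _ => none, (BB i)^(JJ i)), hstart i⟩ ∧
      ∀ n, R i n (s n) (s (n+1)) := fun i => exists_chain (R i) _ (hR i)
  choose st hst0 hst using hch
  have hext : ∀ i n m, n ≤ m → Ext n (st i n).1.1 (st i n).1.2 (st i m).1.1 (st i m).1.2 := by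
    intro i n m hnm
    induction hnm with
    | refl => exact Ext.refl _ _ _
    | step h ih => exact ih.trans ((hst i _).1.weaken h)
  let a : ℕ → Ix → ℕ := fun k i => (st i k).1.2
  let cut : Cut :=
    { a := a
      mono := fun k i => (hst i k).1.le
      grow := by
        intro f k
        filter_upwards [ev_mem f, ev_card k] with i h1 h2 m hm
        have h3 := ((hst i k).2 (by simp only [JJ]; omega)).1
        have h4 : f m ≤ FF i (st i k).1.2 := hFF f i _ m h1 hm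
        show f m < (st i (k+1)).1.2
        exact lt_of_le_of_lt h4 h3 }
  let W : World :=
    { c := cut
      B := BB
      J := JJ
      T := fun i => (st i (JJ i)).1.1
      top := fun i => (st i (JJ i)).1.2
      legal := fun i => (st i (JJ i)).2
      le_top := by
        intro k
        filter_upwards [ev_card k] with i h1
        exact (hext i k (JJ i) (by simp only [JJ]; omega)).le
      two_le := fun i => by simp only [BB]; omega
      pos := fun i => by simp only [JJ]; omega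
      K_le := by
        intro i
        show _ ≤ (st i 0).1.2
        rw [hst0 i] }
  refine ⟨W, ?_⟩
  intro n e he
  obtain ⟨k, hk⟩ := Cut.bd_nat.1 he
  refine ⟨max n k, le_max_left _ _, cut.a (max n k), Cut.bd_a _, ?_, ?_⟩
  · filter_upwards [hk] with i h1
    exact h1.trans (cut.mono' (le_max_right _ _) i)
  · set m := max n k with hm
    have hex : ∀ i, ∃ (s : (gam L m).S) (b : ℕ), m < JJ i → b ≤ a (m+1) i ∧ enc s ≤ a (m+1) i ∧
        (gam L m).thr (a m i) ≤ b ∧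
        (gam L m).Inv (BB i) (a m i) s b (orc (st i (m+1)).1.1) (Lab (st i (m+1)).1.1 b m) ∧
        ∀ τ'' r, Legal (BB i) (JJ i) τ'' r → Ext (m+1) (st i (m+1)).1.1 (st i (m+1)).1.2 τ'' r →
          ∀ t₁, b ≤ t₁ → t₁ ≤ r → (gam L m).act (BB i) (a m i) s b t₁ (orc τ'') = none := by
      intro i
      by_cases hmi : m < JJ i
      · obtain ⟨s, b, h1⟩ := ((hst i m).2 hmi).2
        exact ⟨s, b, fun _ => h1⟩
      · exact ⟨(gam L m).init 0, 0, fun h => absurd h hmi⟩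
    choose s b hsb using hex
    refine ⟨fun _ => m, s, b, ⟨m+1, ?_⟩, Cut.bd_nat.2 ⟨m+1, ?_⟩, ?_, ?_⟩
    · filter_upwards [ev_card m] with i hi
      exact (hsb i (by simp only [JJ]; omega)).2.1
    · filter_upwards [ev_card m] with i hi
      exact (hsb i (by simp only [JJ]; omega)).1
    · filter_upwards [ev_card m] with i hi
      obtain ⟨h1, h2, h3, h4, h5⟩ := hsb i (by simp only [JJ]; omega)
      refine ⟨h3, ?_⟩
      have hE := hext i (m+1) (JJ i) (by simp only [JJ]; omega)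
      refine (gam L m).inv_mono _ _ _ _ _ _ _ _ _ le_rfl ?_ ?_ h4
      · intro y hy
        have h6 : y < (st i (m+1)).1.2 := lt_of_lt_of_le hy h1
        exact congrArg enc (hE.eq y h6).symm
      · intro y l h
        exact h.mono le_rfl (fun s hs => hE.eq s (lt_of_lt_of_le hs h1))
    · intro t ht
      obtain ⟨k', hk'⟩ := Cut.bd_nat.1 ht
      filter_upwards [ev_card m, ev_card k', hk'] with i hi hi' h6 h7
      obtain ⟨h1, h2, h3, h4, h5⟩ := hsb i (by simp only [JJ]; omega)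
      have hE := hext i (m+1) (JJ i) (by simp only [JJ]; omega)
      have hE' := hext i k' (JJ i) (by simp only [JJ]; omega)
      exact h5 _ _ (st i (JJ i)).2 hE (t i) h7 (le_trans h6 hE'.le)

end Run7.h231
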